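import Pool.Agent.HA60.Defs

set_option autoImplicit false

namespace Pool.Agent.HA60

open SimpleGraph

variable {W V : Type}

/-! ### The dynamics -/

theorem stage_succ {H : SimpleGraph W} {G : SimpleGraph V} {t : ℕ} {x y : V}
    (h : (stage H G t).Adj x y) : (stage H G (t + 1)).Adj x y := Or.inl h

theorem stage_mono {H : SimpleGraph W} {G : SimpleGraph V} {s t : ℕ} (hst : s ≤ t) {x y : V}
    (h : (stage H G s).Adj x y) : (stage H G t).Adj x y := by
  induction t, hst using Nat.le_induction with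
  | base => exact h
  | succ t _ ih => exact stage_succ ih

theorem act_symm {H : SimpleGraph W} {G : SimpleGraph V} {x y : V} (h : Act H G x y) :
    Act H G y x := by
  obtain ⟨t, ht⟩ := h
  exact ⟨t, ht.symm⟩

theorem act_ne {H : SimpleGraph W} {G : SimpleGraph V} {x y : V} (h : Act H G x y) : x ≠ y := by
  obtain ⟨t, ht⟩ := h
  exact ht.ne

theorem act_of_adj {H : SimpleGraph W} {G : SimpleGraph V} {x y : V} (h : G.Adj x y) :
    Act H G x y := ⟨0, h⟩

/-- The closure is closed under completion of copies of `H`. -/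
theorem act_complete [Finite W] {H : SimpleGraph W} {G : SimpleGraph V} (f : W ↪ V) {a b : W}
    (hab : H.Adj a b)
    (h : ∀ c d : W, H.Adj c d → s(c, d) ≠ s(a, b) → Act H G (f c) (f d)) :
    Act H G (f a) (f b) := by
  classical
  have := Fintype.ofFinite W
  have h' : ∀ p : W × W, ∃ t, H.Adj p.1 p.2 → s(p.1, p.2) ≠ s(a, b) →
      (stage H G t).Adj (f p.1) (f p.2) := by
    intro p
    by_cases hp : H.Adj p.1 p.2 ∧ s(p.1, p.2) ≠ s(a, b)
    · obtain ⟨t, ht⟩ := h p.1 p.2 hp.1 hp.2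
      exact ⟨t, fun _ _ => ht⟩
    · exact ⟨0, fun h1 h2 => absurd ⟨h1, h2⟩ hp⟩
  choose T hT using h'
  refine ⟨(∑ p, T p) + 1, Or.inr ⟨f, a, b, hab, rfl, rfl, fun c d hcd hne => ?_⟩⟩
  exact stage_mono (Finset.single_le_sum (fun p _ => Nat.zero_le (T p)) (Finset.mem_univ (c, d)))
    (hT (c, d) hcd hne)

/-- The first new edge: if the closure has a new edge, then `A` contains a copy of `H - ab`. -/
theorem exists_first {H : SimpleGraph W} {A : SimpleGraph V} {x y : V} (h : Act H A x y)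
    (hA : ¬ A.Adj x y) : ∃ f : W ↪ V, ∃ a b : W, H.Adj a b ∧ ¬ A.Adj (f a) (f b) ∧
      ∀ c d : W, H.Adj c d → s(c, d) ≠ s(a, b) → A.Adj (f c) (f d) := by
  by_contra hcon
  push Not at hcon
  have key : ∀ t, ∀ u v : V, (stage H A t).Adj u v → A.Adj u v := by
    intro t
    induction t with
    | zero => exact fun u v huv => huv
    | succ t ih =>
      rintro u v (huv | ⟨f, a, b, hab, rfl, rfl, hf⟩)
      · exact ih u v huv
      · by_contra hne
        obtain ⟨c, d, hcd, hcd2, hcd3⟩ := hcon f a b hab hne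
        exact hcd3 (ih _ _ (hf c d hcd hcd2))
  obtain ⟨t, ht⟩ := h
  exact hA (key t x y ht)

/-- If no vertex of `H` has degree one, every end of an activated edge has a neighbour in `A`. -/
theorem exists_nbr {H : SimpleGraph W} {A : SimpleGraph V} (hdeg : ∀ v, deg H v ≠ 1) {x y : V}
    (h : Act H A x y) : ∃ z, A.Adj x z := by
  obtain ⟨t, ht⟩ := h
  induction t generalizing x y with
  | zero => exact ⟨y, ht⟩
  | succ t ih =>
    rcases ht with ht | ⟨f, a, b, hab, rfl, rfl, hf⟩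
    · exact ih ht
    · have h1 : ∃ c, H.Adj a c ∧ c ≠ b := by
        by_contra hcon
        push Not at hcon
        apply hdeg a
        have : H.neighborSet a = {b} := by
          ext c
          simp only [mem_neighborSet, Set.mem_singleton_iff]
          exact ⟨fun hc => hcon c hc, fun hc => hc ▸ hab⟩
        rw [deg, this, Set.ncard_singleton]
      obtain ⟨c, hc, hcb⟩ := h1
      refine ih (x := f a) (y := f c) (hf a c hc ?_)
      intro he
      rw [Sym2.eq_iff] at he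
      rcases he with ⟨_, h2⟩ | ⟨h2, _⟩
      · exact hcb h2
      · exact hab.ne h2

/-! ### Finiteness of the set of subgraphs -/

theorem finite_subgraph [Finite V] (G : SimpleGraph V) : Finite G.Subgraph := inferInstance

/-! ### `D(e, A)` -/

theorem Dset_finite [Finite V] (A : SimpleGraph V) (x y : V) :
    {r : ℝ | ∃ F : (A ⊔ edge x y).Subgraph, F.Adj x y ∧ 3 ≤ F.verts.ncard ∧
      r = ((F.edgeSet.ncard : ℝ) - 1) / ((F.verts.ncard : ℝ) - 2)}.Finite := by
  have := finite_subgraph (A ⊔ edge x y)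
  apply (Set.finite_range (fun F : (A ⊔ edge x y).Subgraph =>
    ((F.edgeSet.ncard : ℝ) - 1) / ((F.verts.ncard : ℝ) - 2))).subset
  rintro r ⟨F, _, _, rfl⟩
  exact ⟨F, rfl⟩

theorem le_Dval [Finite V] {A : SimpleGraph V} {x y : V} (F : (A ⊔ edge x y).Subgraph)
    (h1 : F.Adj x y) (h2 : 3 ≤ F.verts.ncard) :
    ((F.edgeSet.ncard : ℝ) - 1) / ((F.verts.ncard : ℝ) - 2) ≤ Dval A x y :=
  le_csSup (Dset_finite A x y).bddAbove ⟨F, h1, h2, rfl⟩

theorem one_le_edges [Finite V] {A : SimpleGraph V} {x y : V} (F : (A ⊔ edge x y).Subgraph)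
    (h1 : F.Adj x y) : 1 ≤ F.edgeSet.ncard := by
  have : s(x, y) ∈ F.edgeSet := h1
  exact (Set.ncard_pos (Set.toFinite _)).2 ⟨_, this⟩

theorem Dval_nonneg [Finite V] (A : SimpleGraph V) (x y : V) : 0 ≤ Dval A x y := by
  apply Real.sSup_nonneg
  rintro r ⟨F, h1, h2, rfl⟩
  have h3 := one_le_edges F h1
  have h4 : (1 : ℝ) ≤ F.edgeSet.ncard := by exact_mod_cast h3
  have h5 : (3 : ℝ) ≤ F.verts.ncard := by exact_mod_cast h2
  apply div_nonneg <;> linarith

theorem Dval_le {A : SimpleGraph V} {x y : V} {θ : ℝ} (h0 : 0 ≤ θ)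
    (h : ∀ F : (A ⊔ edge x y).Subgraph, F.Adj x y → 3 ≤ F.verts.ncard →
      (F.edgeSet.ncard : ℝ) - 1 ≤ θ * ((F.verts.ncard : ℝ) - 2)) : Dval A x y ≤ θ := by
  apply Real.sSup_le _ h0
  rintro r ⟨F, h1, h2, rfl⟩
  have h5 : (3 : ℝ) ≤ F.verts.ncard := by exact_mod_cast h2
  rw [div_le_iff₀ (by linarith)]
  exact h F h1 h2

/-! ### `ρ(H)` -/

theorem rho_le [Finite V] {H : SimpleGraph W} {A : SimpleGraph V} {x y : V} (h : Act H A x y)
    (hA : ¬ A.Adj x y) : rho H ≤ Dval A x y := by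
  apply csInf_le
  · refine ⟨0, ?_⟩
    rintro r ⟨V', _, A', x', y', _, _, rfl⟩
    exact Dval_nonneg A' x' y'
  · exact ⟨V, inferInstance, A, x, y, h, hA, rfl⟩

theorem act_base [Finite W] {H : SimpleGraph W} {a b : W} (hab : H.Adj a b) :
    Act H (H.deleteEdges {s(a, b)}) a b := by
  apply act_complete (Function.Embedding.refl W) hab
  intro c d hcd hne
  apply act_of_adj
  simp only [Function.Embedding.refl_apply, deleteEdges_adj, Set.mem_singleton_iff]
  exact ⟨hcd, hne⟩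

theorem le_rho [Finite W] {H : SimpleGraph W} {θ : ℝ} (hH : ∃ a b, H.Adj a b)
    (h : ∀ (V : Type) [Finite V] (A : SimpleGraph V) (x y : V), Act H A x y → ¬ A.Adj x y →
      θ ≤ Dval A x y) : θ ≤ rho H := by
  apply le_csInf
  · obtain ⟨a, b, hab⟩ := hH
    exact ⟨_, W, inferInstance, H.deleteEdges {s(a, b)}, a, b, act_base hab, by simp, rfl⟩
  · rintro r ⟨V, _, A, x, y, h1, h2, rfl⟩
    exact h V A x y h1 h2

/-- For every `ε > 0` there is an almost optimal pair. -/
theorem exists_near [Finite W] {H : SimpleGraph W} (hH : ∃ a b, H.Adj a b) {ε : ℝ} (hε : 0 < ε) :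
    ∃ (V : Type) (_ : Finite V) (A : SimpleGraph V) (x y : V),
      Act H A x y ∧ ¬ A.Adj x y ∧ Dval A x y < rho H + ε := by
  have hne : {r | ∃ (V : Type) (_ : Finite V) (A : SimpleGraph V) (x y : V),
      Act H A x y ∧ ¬ A.Adj x y ∧ r = Dval A x y}.Nonempty := by
    obtain ⟨a, b, hab⟩ := hH
    exact ⟨_, W, inferInstance, H.deleteEdges {s(a, b)}, a, b, act_base hab, by simp, rfl⟩
  obtain ⟨r, ⟨V, hV, A, x, y, h1, h2, rfl⟩, h3⟩ := exists_lt_of_csInf_lt hne
    (show rho H < rho H + ε by linarith)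
  exact ⟨V, hV, A, x, y, h1, h2, h3⟩

/-! ### `m(G)` and `q(H)` -/

theorem maxDens_finite [Finite W] (G : SimpleGraph W) :
    {r : ℝ | ∃ F : G.Subgraph, F.verts.Nonempty ∧
      r = (F.edgeSet.ncard : ℝ) / (F.verts.ncard : ℝ)}.Finite := by
  have := finite_subgraph G
  apply (Set.finite_range (fun F : G.Subgraph =>
    (F.edgeSet.ncard : ℝ) / (F.verts.ncard : ℝ))).subset
  rintro r ⟨F, _, rfl⟩
  exact ⟨F, rfl⟩

theorem maxDens_mem [Finite W] [Nonempty W] (G : SimpleGraph W) : ∃ F : G.Subgraph,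
    F.verts.Nonempty ∧ maxDens G = (F.edgeSet.ncard : ℝ) / (F.verts.ncard : ℝ) := by
  have h : {r : ℝ | ∃ F : G.Subgraph, F.verts.Nonempty ∧
      r = (F.edgeSet.ncard : ℝ) / (F.verts.ncard : ℝ)}.Nonempty :=
    ⟨_, ⊤, by simp [Set.univ_nonempty], rfl⟩
  exact h.csSup_mem (maxDens_finite G)

theorem maxDens_nonneg (G : SimpleGraph W) : 0 ≤ maxDens G := by
  apply Real.sSup_nonneg
  rintro r ⟨F, _, rfl⟩
  positivity

theorem edges_le_maxDens [Finite W] (G : SimpleGraph W) (F : G.Subgraph) :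
    (F.edgeSet.ncard : ℝ) ≤ maxDens G * F.verts.ncard := by
  by_cases h : F.verts.Nonempty
  · have h1 : (F.edgeSet.ncard : ℝ) / (F.verts.ncard : ℝ) ≤ maxDens G :=
      le_csSup (maxDens_finite G).bddAbove ⟨F, h, rfl⟩
    have h2 : (0 : ℝ) < F.verts.ncard := by
      exact_mod_cast (Set.ncard_pos (Set.toFinite _)).2 h
    rwa [div_le_iff₀ h2] at h1
  · have h1 : F.verts = ∅ := Set.not_nonempty_iff_eq_empty.mp h
    have h2 : F.edgeSet = ∅ := by
      ext e
      induction e using Sym2.ind with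
      | _ a b =>
        simp only [Subgraph.mem_edgeSet, Set.mem_empty_iff_false, iff_false]
        intro hab
        have := F.edge_vert hab
        rw [h1] at this
        exact this
    rw [h1, h2]
    simp

/-- The number of edges of `G` inside the set `S`. -/
theorem inside_le [Finite W] (G : SimpleGraph W) (S : Set W) :
    (({e | e ∈ G.edgeSet ∧ ∀ v ∈ e, v ∈ S} : Set (Sym2 W)).ncard : ℝ) ≤
      maxDens G * S.ncard := by
  set F : G.Subgraph :=
    { verts := S
      Adj := fun a b => G.Adj a b ∧ a ∈ S ∧ b ∈ S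
      adj_sub := fun h => h.1
      edge_vert := fun h => h.2.1
      symm := ⟨fun a b h => ⟨h.1.symm, h.2.2, h.2.1⟩⟩ } with hF
  have h1 := edges_le_maxDens G F
  have h2 : F.edgeSet = {e | e ∈ G.edgeSet ∧ ∀ v ∈ e, v ∈ S} := by
    ext e
    induction e using Sym2.ind with
    | _ a b =>
      simp only [Subgraph.mem_edgeSet, Set.mem_setOf_eq, mem_edgeSet, Sym2.mem_iff,
        forall_eq_or_imp, forall_eq]
      rfl
  rw [h2] at h1
  exact h1

theorem q_le [Finite W] {H : SimpleGraph W} {a b : W} (hab : H.Adj a b) :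
    q H ≤ maxDens (H.deleteEdges {s(a, b)}) := by
  apply csInf_le
  · refine ⟨0, ?_⟩
    rintro r ⟨a, b, _, rfl⟩
    exact maxDens_nonneg _
  · exact ⟨a, b, hab, rfl⟩

theorem q_mem [Finite W] {H : SimpleGraph W} (hH : ∃ a b, H.Adj a b) :
    ∃ a b, H.Adj a b ∧ q H = maxDens (H.deleteEdges {s(a, b)}) := by
  have hfin : {r : ℝ | ∃ a b : W, H.Adj a b ∧
      r = maxDens (H.deleteEdges {s(a, b)})}.Finite := by
    apply (Set.finite_range (fun p : W × W => maxDens (H.deleteEdges {s(p.1, p.2)}))).subset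
    rintro r ⟨a, b, _, rfl⟩
    exact ⟨(a, b), rfl⟩
  have hne : {r : ℝ | ∃ a b : W, H.Adj a b ∧
      r = maxDens (H.deleteEdges {s(a, b)})}.Nonempty := by
    obtain ⟨a, b, hab⟩ := hH
    exact ⟨_, a, b, hab, rfl⟩
  exact hne.csInf_mem hfin

theorem q_nonneg (H : SimpleGraph W) : 0 ≤ q H := by
  apply Real.sInf_nonneg
  rintro r ⟨a, b, _, rfl⟩
  exact maxDens_nonneg _

theorem q_rational [Finite W] {H : SimpleGraph W} (hH : ∃ a b, H.Adj a b) :
    ∃ r : ℚ, q H = r := by
  obtain ⟨a, b, hab, h⟩ := q_mem hH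
  have : Nonempty W := ⟨a⟩
  obtain ⟨F, _, hF⟩ := maxDens_mem (H.deleteEdges {s(a, b)})
  exact ⟨(F.edgeSet.ncard : ℚ) / (F.verts.ncard : ℚ), by rw [h, hF]; push_cast; rfl⟩

end Pool.Agent.HA60
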