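import Pool.Agent.HA60.Region

set_option autoImplicit false

namespace Pool.Agent.HA60

open SimpleGraph

variable {W : Type}

/-- A set of `n` vertices contains at most `n (n - 1) / 2` edges. -/
theorem inside_le_choose [Finite W] (H : SimpleGraph W) (F : Set W) :
    (inside H F : ℝ) ≤ (F.ncard : ℝ) * ((F.ncard : ℝ) - 1) / 2 := by
  classical
  have := Fintype.ofFinite W
  have h1 : inside H F = (H.induce F).edgeFinset.card := by
    unfold inside
    rw [← Set.ncard_coe_finset, coe_edgeFinset,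
      ← Set.ncard_image_of_injective _ (Sym2.map.injective Subtype.val_injective)]
    congr 1
    ext e
    induction e using Sym2.ind with
    | _ u v =>
      simp only [Set.mem_setOf_eq, mem_edgeSet, Set.mem_image]
      constructor
      · rintro ⟨h2, h3⟩
        refine ⟨s(⟨u, h3 u (Sym2.mem_mk_left _ _)⟩, ⟨v, h3 v (Sym2.mem_mk_right _ _)⟩), h2, ?_⟩
        rw [Sym2.map_mk]
      · rintro ⟨e', h2, h3⟩
        induction e' using Sym2.ind with
        | _ a b =>
          rw [Sym2.map_mk, Sym2.eq_iff] at h3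
          have h4 : H.Adj a b := h2
          rcases h3 with ⟨rfl, rfl⟩ | ⟨rfl, rfl⟩
          · refine ⟨h4, ?_⟩
            intro w hw
            rw [Sym2.mem_iff] at hw
            rcases hw with rfl | rfl
            · exact a.2
            · exact b.2
          · refine ⟨h4.symm, ?_⟩
            intro w hw
            rw [Sym2.mem_iff] at hw
            rcases hw with rfl | rfl
            · exact b.2
            · exact a.2
  have h2 := card_edgeFinset_le_card_choose_two (G := H.induce F)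
  have h3 : Fintype.card F = F.ncard := by
    rw [Set.ncard_eq_toFinset_card', Set.toFinset_card]
  rw [h1]
  rw [h3] at h2
  have h4 : ((H.induce F).edgeFinset.card : ℝ) ≤ ((F.ncard.choose 2 : ℕ) : ℝ) := by
    exact_mod_cast h2
  refine le_trans h4 (le_of_eq ?_)
  rw [Nat.cast_choose_two]

theorem out_le [Finite W] (H : SimpleGraph W) (X F : Set W) : (out H X F : ℝ) ≤ F.ncard := by
  have h5 : out H X F ≤ F.ncard := Set.ncard_le_ncard (fun v hv => hv.1) (Set.toFinite _)
  exact_mod_cast h5

theorem subgraph_edges_le [Finite W] (G : SimpleGraph W) (F : G.Subgraph) :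
    (F.edgeSet.ncard : ℝ) ≤ (F.verts.ncard : ℝ) * ((F.verts.ncard : ℝ) - 1) / 2 := by
  refine le_trans ?_ (inside_le_choose G F.verts)
  have h1 : F.edgeSet.ncard ≤ inside G F.verts := by
    apply Set.ncard_le_ncard _ (Set.toFinite _)
    intro e he
    induction e using Sym2.ind with
    | _ u v =>
      have hadj : F.Adj u v := he
      refine ⟨F.adj_sub hadj, ?_⟩
      intro w hw
      rw [Sym2.mem_iff] at hw
      rcases hw with rfl | rfl
      · exact F.edge_vert hadj
      · exact F.edge_vert hadj.symm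
  exact_mod_cast h1

/-- The number `(m + 2) / 2 - 1 / (m - 1) = λ(K_{m+1})`. -/
noncomputable def lamK (m : ℕ) : ℝ := ((m : ℝ) + 2) / 2 - 1 / ((m : ℝ) - 1)

theorem lamK_ge {m : ℕ} (hm : 2 ≤ m) : (m : ℝ) / 2 ≤ lamK m := by
  unfold lamK
  have h1 : (2 : ℝ) ≤ m := by exact_mod_cast hm
  have h2 : 1 / ((m : ℝ) - 1) ≤ 1 := by
    rw [div_le_one (by linarith)]
    linarith
  linarith

theorem lamK_ge' {m : ℕ} (hm : 3 ≤ m) : ((m : ℝ) + 1) / 2 ≤ lamK m := by
  unfold lamK
  have h1 : (3 : ℝ) ≤ m := by exact_mod_cast hm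
  have h2 : 1 / ((m : ℝ) - 1) ≤ 1 / 2 := by
    apply one_div_le_one_div_of_le <;> linarith
  linarith

/-- A crude upper bound for `ρ` of a graph with an edge and at most `m` vertices. -/
theorem rho_le_lamK [Finite W] {G : SimpleGraph W} (hG : ∃ a b, G.Adj a b) {m : ℕ} (hm : 2 ≤ m)
    (hcard : (Set.univ : Set W).ncard ≤ m) : rho G ≤ lamK m := by
  obtain ⟨a, b, hab⟩ := hG
  have h1 := act_base hab
  have h2 : ¬ (G.deleteEdges {s(a, b)}).Adj a b := by simp
  refine le_trans (rho_le h1 h2) ?_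
  have hm2 : (2 : ℝ) ≤ m := by exact_mod_cast hm
  apply Dval_le
  · have := lamK_ge hm
    linarith
  intro F _ hF2
  have h3 : F.verts.ncard ≤ m :=
    le_trans (Set.ncard_le_ncard (Set.subset_univ _) (Set.toFinite _)) hcard
  have h4 : 3 ≤ m := le_trans hF2 h3
  have h5 := lamK_ge' h4
  have h6 := subgraph_edges_le _ F
  have h7 : (3 : ℝ) ≤ F.verts.ncard := by exact_mod_cast hF2
  have h8 : (F.verts.ncard : ℝ) ≤ m := by exact_mod_cast h3
  have h9 : ((F.verts.ncard : ℝ) + 1) / 2 * ((F.verts.ncard : ℝ) - 2) ≤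
      lamK m * ((F.verts.ncard : ℝ) - 2) := by
    apply mul_le_mul_of_nonneg_right _ (by linarith)
    linarith
  refine le_trans ?_ h9
  nlinarith

/-- A set of `m` vertices which contains an edge, each with at most one neighbour outside, is a
`λ(K_{m+1})`-sparse part. -/
theorem sparse_small [Finite W] {H : SimpleGraph W} {X : Set W}
    (hedge : ∃ a ∈ X, ∃ b ∈ X, H.Adj a b)
    (huniq : ∀ v ∈ X, ∀ u u', u ∉ X → u' ∉ X → H.Adj v u → H.Adj v u' → u = u') :
    SparsePart H X (lamK X.ncard) := by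
  obtain ⟨a, ha, b, hb, hab⟩ := hedge
  have hm : 2 ≤ X.ncard := by
    have h1 : ({a, b} : Set W) ⊆ X := by
      rintro z (rfl | rfl)
      · exact ha
      · exact hb
    have h2 := Set.ncard_le_ncard h1 (Set.toFinite _)
    rw [Set.ncard_pair hab.ne] at h2
    exact h2
  refine ⟨⟨a, ha, b, hb, hab⟩, huniq, ?_, ?_⟩
  · apply rho_le_lamK ⟨⟨a, ha⟩, ⟨b, hb⟩, hab⟩ hm
    rw [Set.ncard_univ, Nat.card_coe_set_eq]
  · intro _ F hFX hne
    have hm2 : (2 : ℝ) ≤ X.ncard := by exact_mod_cast hm
    have h1 : (1 : ℝ) ≤ F.ncard := by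
      exact_mod_cast (Set.ncard_pos (Set.toFinite _)).2 hne
    have h2 : (F.ncard : ℝ) ≤ X.ncard := by
      exact_mod_cast Set.ncard_le_ncard hFX (Set.toFinite _)
    have h3 := inside_le_choose H F
    have h4 := out_le H X F
    have h5 := lamK_ge hm
    refine ⟨?_, ?_, ?_⟩
    · have h6 : (F.ncard : ℝ) / 2 * ((F.ncard : ℝ) - 1) ≤
          lamK X.ncard * ((F.ncard : ℝ) - 1) := by
        apply mul_le_mul_of_nonneg_right _ (by linarith)
        linarith
      linarith
    · have h7 : ((F.ncard : ℝ) - 1) * (1 / ((X.ncard : ℝ) - 1)) ≤ 1 := by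
        rw [mul_one_div, div_le_one (by linarith)]
        linarith
      have h8 : lamK X.ncard * ((F.ncard : ℝ) - 1) = ((F.ncard : ℝ) - 1) *
          (((X.ncard : ℝ) + 2) / 2) - ((F.ncard : ℝ) - 1) * (1 / ((X.ncard : ℝ) - 1)) := by
        unfold lamK
        ring
      rw [h8]
      have h9 : 0 ≤ ((F.ncard : ℝ) - 1) * ((X.ncard : ℝ) - F.ncard) :=
        mul_nonneg (by linarith) (by linarith)
      nlinarith
    · rintro ⟨v, hv, hvF, _⟩
      have h10 : F.ncard + 1 ≤ X.ncard := by
        have h11 : insert v F ⊆ X := Set.insert_subset hv hFX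
        have h12 := Set.ncard_le_ncard h11 (Set.toFinite _)
        rwa [Set.ncard_insert_of_notMem hvF (Set.toFinite _)] at h12
      have h13 : (F.ncard : ℝ) + 1 ≤ X.ncard := by exact_mod_cast h10
      have h14 : ((F.ncard : ℝ) + 1) / 2 * (F.ncard : ℝ) ≤ lamK X.ncard * (F.ncard : ℝ) := by
        apply mul_le_mul_of_nonneg_right _ (by linarith)
        linarith
      linarith

theorem max_rational {a : ℝ} {b : ℝ} (ha : ∃ r : ℚ, a = r) (hb : ∃ r : ℚ, b = r) :
    ∃ r : ℚ, max a b = r := by
  rcases le_total a b with h | h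
  · rw [max_eq_right h]; exact hb
  · rw [max_eq_left h]; exact ha

end Pool.Agent.HA60
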