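import Mathlib

set_option autoImplicit false

/-!
Graph bootstrap percolation (`H`-dynamics), the closure of a graph, the critical `H`-activation
density `ρ(H)`, the maximum density `m(G)` and `q(H) = min_e m(H - e)`.
-/

namespace Pool.Agent.HA60

/-- One step of the `H`-dynamics: add every pair `x y` of distinct vertices which is an edge of
some copy of `H` all of whose other edges are edges of `G`. The copy of `H` is the image of the
injective map `f`, and `x y` is the image of the edge `a b` of `H`. -/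
def step {W V : Type} (H : SimpleGraph W) (G : SimpleGraph V) : SimpleGraph V where
  Adj x y := G.Adj x y ∨ ∃ f : W ↪ V, ∃ a b : W, H.Adj a b ∧ f a = x ∧ f b = y ∧
    ∀ c d : W, H.Adj c d → s(c, d) ≠ s(a, b) → G.Adj (f c) (f d)
  symm := ⟨by
    rintro x y (h | ⟨f, a, b, hab, rfl, rfl, h⟩)
    · exact Or.inl h.symm
    · exact Or.inr ⟨f, b, a, hab.symm, rfl, rfl, fun c d hcd hne => h c d hcd
        (fun he => hne (by rw [he, Sym2.eq_swap]))⟩⟩
  loopless := ⟨by
    rintro x (h | ⟨f, a, b, hab, hx, hy, h⟩)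
    · exact G.loopless.irrefl x h
    · exact hab.ne (f.injective (hx.trans hy.symm))⟩

/-- The graphs `G_0 = G`, `G_{t+1} = step H G_t` of the `H`-dynamics. -/
def stage {W V : Type} (H : SimpleGraph W) (G : SimpleGraph V) : ℕ → SimpleGraph V
  | 0 => G
  | t + 1 => step H (stage H G t)

/-- `x y` is an edge of `⟨G⟩_H`, the union of all `G_t`. -/
def Act {W V : Type} (H : SimpleGraph W) (G : SimpleGraph V) (x y : V) : Prop :=
  ∃ t, (stage H G t).Adj x y

/-- `D(e, A)` for `e = x y`: the maximum of `d(F) = (e(F) - 1) / (v(F) - 2)` over all subgraphs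
`F` of `A + e` which contain the edge `e` and have at least three vertices. -/
noncomputable def Dval {V : Type} (A : SimpleGraph V) (x y : V) : ℝ :=
  sSup {r | ∃ F : (A ⊔ SimpleGraph.edge x y).Subgraph, F.Adj x y ∧ 3 ≤ F.verts.ncard ∧
    r = ((F.edgeSet.ncard : ℝ) - 1) / ((F.verts.ncard : ℝ) - 2)}

/-- The critical `H`-activation density: the infimum of `D(e, A)` over the finite graphs `A` and
the edges `e = x y` of `⟨A⟩_H` which are not edges of `A`. -/
noncomputable def rho {W : Type} (H : SimpleGraph W) : ℝ :=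
  sInf {r | ∃ (V : Type) (_ : Finite V) (A : SimpleGraph V) (x y : V),
    Act H A x y ∧ ¬ A.Adj x y ∧ r = Dval A x y}

/-- The maximum density `m(G)`: the maximum of `e(F) / v(F)` over all subgraphs `F` of `G` with at
least one vertex. -/
noncomputable def maxDens {W : Type} (G : SimpleGraph W) : ℝ :=
  sSup {r | ∃ F : G.Subgraph, F.verts.Nonempty ∧
    r = (F.edgeSet.ncard : ℝ) / (F.verts.ncard : ℝ)}

/-- `q(H)`, the minimum of `m(H - e)` over the edges `e` of `H`. -/
noncomputable def q {W : Type} (H : SimpleGraph W) : ℝ :=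
  sInf {r | ∃ a b : W, H.Adj a b ∧ r = maxDens (H.deleteEdges {s(a, b)})}

/-- The degree of a vertex. -/
noncomputable def deg {W : Type} (H : SimpleGraph W) (v : W) : ℕ := (H.neighborSet v).ncard

/-- The number of edges of `H` with both ends in `F`. -/
noncomputable def inside {W : Type} (H : SimpleGraph W) (F : Set W) : ℕ :=
  ({e | e ∈ H.edgeSet ∧ ∀ v ∈ e, v ∈ F} : Set (Sym2 W)).ncard

/-- The number of vertices of `F` which have a neighbour outside `X`. -/
noncomputable def out {W : Type} (H : SimpleGraph W) (X F : Set W) : ℕ :=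
  ({v | v ∈ F ∧ ∃ u, u ∉ X ∧ H.Adj v u} : Set W).ncard

/-- `X` is a `θ`-sparse part of `H`: it contains an edge, every vertex of `X` has at most one
neighbour outside `X`, `ρ(H[X]) ≤ θ`, and, if some edge leaves `X`, the nonempty sets `F ⊆ X`
satisfy the three inequalities below. -/
structure SparsePart {W : Type} (H : SimpleGraph W) (X : Set W) (θ : ℝ) : Prop where
  edge : ∃ a ∈ X, ∃ b ∈ X, H.Adj a b
  unique : ∀ v ∈ X, ∀ u u', u ∉ X → u' ∉ X → H.Adj v u → H.Adj v u' → u = u'
  rho_le : rho (H.induce X) ≤ θ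
  few : (∃ v ∈ X, ∃ u, u ∉ X ∧ H.Adj v u) → ∀ F : Set W, F ⊆ X → F.Nonempty →
    (inside H F : ℝ) ≤ θ * ((F.ncard : ℝ) - 1) ∧
    (inside H F : ℝ) + out H X F ≤ θ * ((F.ncard : ℝ) - 1) + 2 ∧
    ((∃ v ∈ X, v ∉ F ∧ ∃ u, u ∉ X ∧ H.Adj v u) →
      (inside H F : ℝ) + out H X F ≤ θ * (F.ncard : ℝ))

end Pool.Agent.HA60
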