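import Pool.Agent.HA60.Lower

set_option autoImplicit false

namespace Pool.Agent.HA60

open SimpleGraph

variable {W V : Type}

/-! ### Transfer of activations along embeddings -/

theorem act_map {V' : Type} {H : SimpleGraph W} {G : SimpleGraph V} {G' : SimpleGraph V'}
    (g : V ↪ V') (hg : ∀ a b, G.Adj a b → G'.Adj (g a) (g b)) {x y : V} (h : Act H G x y) :
    Act H G' (g x) (g y) := by
  obtain ⟨t, ht⟩ := h
  refine ⟨t, ?_⟩
  induction t generalizing x y with
  | zero => exact hg x y ht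
  | succ t ih =>
    rcases ht with ht | ⟨f, a, b, hab, rfl, rfl, hf⟩
    · exact Or.inl (ih ht)
    · exact Or.inr ⟨f.trans g, a, b, hab, rfl, rfl, fun c d hcd hne => ih (hf c d hcd hne)⟩

theorem act_all [Finite W] {H : SimpleGraph W} {a b : W} (hab : H.Adj a b) {c d : W}
    (hcd : H.Adj c d) : Act H (H.deleteEdges {s(a, b)}) c d := by
  by_cases hne : s(c, d) = s(a, b)
  · have h0 := act_base hab
    rw [Sym2.eq_iff] at hne
    rcases hne with ⟨rfl, rfl⟩ | ⟨rfl, rfl⟩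
    · exact h0
    · exact act_symm h0
  · apply act_of_adj
    rw [deleteEdges_adj]
    exact ⟨hcd, hne⟩

/-! ### Gadgets -/

/-- The edges of `Γ` inside `S` which do not join two base vertices. -/
def exS {Q : Type} (Γ : SimpleGraph Q) (β : W ↪ Q) (S : Set Q) : Set (Sym2 Q) :=
  {e | e ∈ Γ.edgeSet ∧ (∀ v ∈ e, v ∈ S) ∧ ∃ v ∈ e, v ∉ Set.range β}

/-- The new vertices in `S`: those which are neither the root nor base vertices. -/
def newS {Q : Type} (r : Q) (β : W ↪ Q) (S : Set Q) : Set Q :=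
  {v | v ∈ S ∧ v ≠ r ∧ v ∉ Set.range β}

open Classical in
/-- A gadget: a graph with a base (a copy of `B`) and a root `r` which becomes adjacent to the
base vertex `t`, such that every set `S` has at most `θ · #(new vertices) + (c if r ∈ S)` edges
outside the base. -/
structure GData (H B : SimpleGraph W) (θ c : ℝ) (t : W) where
  Q : Type
  fin : Finite Q
  Γ : SimpleGraph Q
  r : Q
  β : W ↪ Q
  hr : ∀ a, β a ≠ r
  hB : ∀ a b, Γ.Adj (β a) (β b) ↔ B.Adj a b
  act : Act H Γ r (β t)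
  cnt : ∀ S : Set Q, ((exS Γ β S).ncard : ℝ) ≤ θ * ((newS r β S).ncard : ℝ) +
    (if r ∈ S then c else 0)

section Glue

variable {H B : SimpleGraph W} {θ c : ℝ} {P V0 : Type} (pt : P → V0) (tt : P → W)
  (g : ∀ p, GData H B θ c (tt p))

/-- The new vertices of the gadget `p`. -/
abbrev NV (p : P) : Type := {v : (g p).Q // v ≠ (g p).r ∧ v ∉ Set.range (g p).β}

/-- The vertex set of the glued graph. -/
abbrev Tot : Type := V0 ⊕ (W ⊕ (Σ p : P, NV tt g p))

open Classical in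
/-- The map of the gadget `p` into the glued graph, as a function. -/
noncomputable def psiF (p : P) (v : (g p).Q) : Tot (V0 := V0) tt g :=
  if h : v = (g p).r then Sum.inl (pt p) else
    if h2 : v ∈ Set.range (g p).β then Sum.inr (Sum.inl (Classical.choose h2)) else
      Sum.inr (Sum.inr ⟨p, ⟨v, h, h2⟩⟩)

theorem psiF_r (p : P) : psiF pt tt g p (g p).r = Sum.inl (pt p) := by
  unfold psiF
  rw [dif_pos rfl]

theorem psiF_β (p : P) (a : W) : psiF pt tt g p ((g p).β a) = Sum.inr (Sum.inl a) := by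
  unfold psiF
  have h2 : (g p).β a ∈ Set.range (g p).β := ⟨a, rfl⟩
  rw [dif_neg ((g p).hr a), dif_pos h2]
  have := Classical.choose_spec h2
  rw [(g p).β.injective this]

theorem psiF_new (p : P) (v : (g p).Q) (h : v ≠ (g p).r) (h2 : v ∉ Set.range (g p).β) :
    psiF pt tt g p v = Sum.inr (Sum.inr ⟨p, ⟨v, h, h2⟩⟩) := by
  unfold psiF
  rw [dif_neg h, dif_neg h2]

theorem psiF_cases (p : P) (v : (g p).Q) :
    (v = (g p).r) ∨ (∃ a, v = (g p).β a) ∨
      (∃ (h : v ≠ (g p).r) (h2 : v ∉ Set.range (g p).β), True) := by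
  by_cases h : v = (g p).r
  · exact Or.inl h
  · by_cases h2 : v ∈ Set.range (g p).β
    · obtain ⟨a, ha⟩ := h2
      exact Or.inr (Or.inl ⟨a, ha.symm⟩)
    · exact Or.inr (Or.inr ⟨h, h2, trivial⟩)

theorem psiF_inj (p : P) : Function.Injective (psiF pt tt g p) := by
  intro v v' hvv
  rcases psiF_cases tt g p v with h | ⟨a, h⟩ | ⟨h1, h2, _⟩ <;>
    rcases psiF_cases tt g p v' with h' | ⟨a', h'⟩ | ⟨h1', h2', _⟩
  · rw [h, h']
  · rw [h, h', psiF_r, psiF_β] at hvv
    exact absurd hvv (by simp)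
  · rw [h, psiF_r, psiF_new pt tt g p v' h1' h2'] at hvv
    exact absurd hvv (by simp)
  · rw [h, h', psiF_r, psiF_β] at hvv
    exact absurd hvv (by simp)
  · rw [h, h', psiF_β, psiF_β] at hvv
    rw [h, h', Sum.inl.inj (Sum.inr.inj hvv)]
  · rw [h, psiF_β, psiF_new pt tt g p v' h1' h2'] at hvv
    exact absurd hvv (by simp)
  · rw [h', psiF_r, psiF_new pt tt g p v h1 h2] at hvv
    exact absurd hvv (by simp)
  · rw [h', psiF_β, psiF_new pt tt g p v h1 h2] at hvv
    exact absurd hvv (by simp)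
  · rw [psiF_new pt tt g p v h1 h2, psiF_new pt tt g p v' h1' h2'] at hvv
    have h5 := Sum.inr.inj (Sum.inr.inj hvv)
    have h6 := eq_of_heq (Sigma.mk.inj h5).2
    exact congrArg Subtype.val h6

/-- The map of the gadget `p` into the glued graph. -/
noncomputable def psi (p : P) : (g p).Q ↪ Tot (V0 := V0) tt g := ⟨psiF pt tt g p, psiF_inj pt tt g p⟩

theorem psi_r (p : P) : psi pt tt g p (g p).r = Sum.inl (pt p) := psiF_r pt tt g p

theorem psi_β (p : P) (a : W) : psi pt tt g p ((g p).β a) = Sum.inr (Sum.inl a) :=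
  psiF_β pt tt g p a

theorem psi_new (p : P) (v : (g p).Q) (h : v ≠ (g p).r) (h2 : v ∉ Set.range (g p).β) :
    psi pt tt g p v = Sum.inr (Sum.inr ⟨p, ⟨v, h, h2⟩⟩) := psiF_new pt tt g p v h h2

variable (G0 : SimpleGraph V0)

/-- The glued graph: `G0`, one base `B`, and for every `p` a gadget with root `pt p`. -/
def glue : SimpleGraph (Tot (V0 := V0) tt g) where
  Adj := fun z z' => (∃ v v', G0.Adj v v' ∧ Sum.inl v = z ∧ Sum.inl v' = z') ∨
    (∃ a b, B.Adj a b ∧ Sum.inr (Sum.inl a) = z ∧ Sum.inr (Sum.inl b) = z') ∨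
    (∃ p v v', (g p).Γ.Adj v v' ∧ psi pt tt g p v = z ∧ psi pt tt g p v' = z')
  symm := ⟨by
    rintro z z' (⟨v, v', h, rfl, rfl⟩ | ⟨a, b, h, rfl, rfl⟩ | ⟨p, v, v', h, rfl, rfl⟩)
    · exact Or.inl ⟨v', v, h.symm, rfl, rfl⟩
    · exact Or.inr (Or.inl ⟨b, a, h.symm, rfl, rfl⟩)
    · exact Or.inr (Or.inr ⟨p, v', v, h.symm, rfl, rfl⟩)⟩
  loopless := ⟨by
    rintro z (⟨v, v', h, h1, h2⟩ | ⟨a, b, h, h1, h2⟩ | ⟨p, v, v', h, h1, h2⟩)
    · exact h.ne (Sum.inl.inj (h1.trans h2.symm))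
    · exact h.ne (Sum.inl.inj (Sum.inr.inj (h1.trans h2.symm)))
    · exact h.ne ((psi pt tt g p).injective (h1.trans h2.symm))⟩

theorem glue_inl {v v' : V0} (h : G0.Adj v v') :
    (glue pt tt g G0).Adj (Sum.inl v) (Sum.inl v') := Or.inl ⟨v, v', h, rfl, rfl⟩

theorem glue_base {a b : W} (h : B.Adj a b) :
    (glue pt tt g G0).Adj (Sum.inr (Sum.inl a)) (Sum.inr (Sum.inl b)) :=
  Or.inr (Or.inl ⟨a, b, h, rfl, rfl⟩)

theorem glue_base_iff (a b : W) :
    (glue pt tt g G0).Adj (Sum.inr (Sum.inl a)) (Sum.inr (Sum.inl b)) ↔ B.Adj a b := by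
  constructor
  · rintro (⟨v, v', h, h1, h2⟩ | ⟨a', b', h, h1, h2⟩ | ⟨p, v, v', h, h1, h2⟩)
    · exact absurd h1 (by simp)
    · rw [← Sum.inl.inj (Sum.inr.inj h1), ← Sum.inl.inj (Sum.inr.inj h2)]
      exact h
    · rw [← psi_β pt tt g p] at h1 h2
      have h3 := (psi pt tt g p).injective h1
      have h4 := (psi pt tt g p).injective h2
      rw [h3, h4] at h
      exact ((g p).hB a b).1 h
  · exact glue_base pt tt g G0

/-- The roots become adjacent to their targets. -/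
theorem glue_root (p : P) : Act H (glue pt tt g G0) (Sum.inl (pt p)) (Sum.inr (Sum.inl (tt p))) := by
  have h := act_map (G' := glue pt tt g G0) (psi pt tt g p)
    (fun a b hab => Or.inr (Or.inr ⟨p, a, b, hab, rfl, rfl⟩)) (g p).act
  rw [psi_r, psi_β] at h
  exact h

/-- The copies of `H` in the glued graph which use the base outside `X`. -/
theorem glue_copy [Finite W] {X : Set W} (hBact : ∀ a b, H.Adj a b → Act H B a b)
    (ι : X ↪ V0) {c₀ d₀ : W} (hcd₀ : H.Adj c₀ d₀)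
    (hX : ∀ c d : X, H.Adj c d → s((c : W), (d : W)) ≠ s(c₀, d₀) →
      Act H (glue pt tt g G0) (Sum.inl (ι c)) (Sum.inl (ι d)))
    (hR : ∀ (c : X) (d : W), d ∉ X → H.Adj c d → s((c : W), d) ≠ s(c₀, d₀) →
      Act H (glue pt tt g G0) (Sum.inl (ι c)) (Sum.inr (Sum.inl d))) :
    ∃ f : W ↪ Tot (V0 := V0) tt g, (∀ c : X, f c = Sum.inl (ι c)) ∧
      (∀ d, d ∉ X → f d = Sum.inr (Sum.inl d)) ∧
      Act H (glue pt tt g G0) (f c₀) (f d₀) := by
  classical
  let F : W → Tot (V0 := V0) tt g :=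
    fun c => if h : c ∈ X then Sum.inl (ι ⟨c, h⟩) else Sum.inr (Sum.inl c)
  have hF1 : ∀ c (h : c ∈ X), F c = Sum.inl (ι ⟨c, h⟩) := fun c h => dif_pos h
  have hF2 : ∀ c (h : c ∉ X), F c = Sum.inr (Sum.inl c) := fun c h => dif_neg h
  have hinj : Function.Injective F := by
    intro c d hcd
    by_cases h1 : c ∈ X <;> by_cases h2 : d ∈ X
    · rw [hF1 c h1, hF1 d h2] at hcd
      exact congrArg Subtype.val (ι.injective (Sum.inl.inj hcd))
    · rw [hF1 c h1, hF2 d h2] at hcd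
      exact absurd hcd (by simp)
    · rw [hF2 c h1, hF1 d h2] at hcd
      exact absurd hcd (by simp)
    · rw [hF2 c h1, hF2 d h2] at hcd
      exact Sum.inl.inj (Sum.inr.inj hcd)
  refine ⟨⟨F, hinj⟩, fun c => hF1 c c.2, fun d hd => hF2 d hd, ?_⟩
  apply act_complete _ hcd₀
  intro c d hcd hne
  change Act H (glue pt tt g G0) (F c) (F d)
  by_cases h1 : c ∈ X <;> by_cases h2 : d ∈ X
  · rw [hF1 c h1, hF1 d h2]
    exact hX ⟨c, h1⟩ ⟨d, h2⟩ hcd hne
  · rw [hF1 c h1, hF2 d h2]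
    exact hR ⟨c, h1⟩ d h2 hcd hne
  · rw [hF2 c h1, hF1 d h2]
    exact act_symm (hR ⟨d, h2⟩ c h1 hcd.symm (by rw [Sym2.eq_swap]; exact hne))
  · rw [hF2 c h1, hF2 d h2]
    exact act_map (G' := glue pt tt g G0)
      (⟨fun a => Sum.inr (Sum.inl a), fun a b hab => Sum.inl.inj (Sum.inr.inj hab)⟩ :
        W ↪ Tot (V0 := V0) tt g) (fun a b hab => glue_base pt tt g G0 hab) (hBact c d hcd)

/-! ### Counting -/

theorem ncard_sum' {α β : Type} [Finite α] [Finite β] (S : Set (α ⊕ β)) :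
    S.ncard = (Sum.inl ⁻¹' S : Set α).ncard + (Sum.inr ⁻¹' S : Set β).ncard := by
  have h1 : S = (Sum.inl '' (Sum.inl ⁻¹' S)) ∪ (Sum.inr '' (Sum.inr ⁻¹' S)) := by
    ext p
    rcases p with c | j <;> simp
  have h2 : Disjoint ((Sum.inl '' (Sum.inl ⁻¹' S) : Set (α ⊕ β)))
      (Sum.inr '' (Sum.inr ⁻¹' S)) := by
    rw [Set.disjoint_left]
    rintro p ⟨c, _, rfl⟩ ⟨j, _, h⟩
    exact absurd h (by simp)
  conv_lhs => rw [h1]
  rw [Set.ncard_union_eq h2 (Set.toFinite _) (Set.toFinite _),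
    Set.ncard_image_of_injective _ Sum.inl_injective,
    Set.ncard_image_of_injective _ Sum.inr_injective]

theorem ncard_sigma' {ι : Type} [Fintype ι] {N : ι → Type} [∀ i, Finite (N i)]
    (S : Set (Σ i, N i)) : S.ncard = ∑ i, (Sigma.mk i ⁻¹' S : Set (N i)).ncard := by
  classical
  have := fun i => Fintype.ofFinite (N i)
  have h1 : ∀ i, (Sigma.mk i ⁻¹' S : Set (N i)).ncard =
      ∑ a : N i, if (⟨i, a⟩ : Σ i, N i) ∈ S then 1 else 0 := by
    intro i
    rw [Set.ncard_eq_toFinset_card', ← Finset.card_filter]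
    congr 1
    ext a
    simp
  have h2 : S.ncard = ∑ p : (Σ i, N i), if p ∈ S then 1 else 0 := by
    rw [Set.ncard_eq_toFinset_card', ← Finset.card_filter]
    congr 1
    ext a
    simp
  rw [h2, Fintype.sum_sigma]
  exact Finset.sum_congr rfl (fun i _ => (h1 i).symm)

/-- The number of vertices of a set in the glued graph. -/
theorem glue_verts [Finite W] [Finite V0] [Fintype P] (S : Set (Tot (V0 := V0) tt g)) :
    S.ncard = (Sum.inl ⁻¹' S : Set V0).ncard +
      ({a | Sum.inr (Sum.inl a) ∈ S} : Set W).ncard +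
      ∑ p, (newS (g p).r (g p).β (psi pt tt g p ⁻¹' S)).ncard := by
  have hfin : ∀ p, Finite (NV tt g p) := fun p => by
    have := (g p).fin
    exact inferInstance
  rw [ncard_sum', ncard_sum' (Sum.inr ⁻¹' S), ncard_sigma', ← add_assoc]
  congr 1
  apply Finset.sum_congr rfl
  intro p _
  rw [← Set.ncard_image_of_injective _ (Subtype.val_injective)]
  congr 1
  ext v
  simp only [Set.mem_image, Set.mem_preimage, Subtype.exists, exists_and_right, exists_eq_right,
    newS, Set.mem_setOf_eq]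
  constructor
  · rintro ⟨h1, h2⟩
    refine ⟨?_, h1⟩
    rw [psi_new pt tt g p v h1.1 h1.2]
    exact h2
  · rintro ⟨h1, h2⟩
    refine ⟨h2, ?_⟩
    rw [psi_new pt tt g p v h2.1 h2.2] at h1
    exact h1

/-- The number of edges in a set of pairs of the glued graph. -/
theorem glue_edges [Finite W] [Finite V0] [Fintype P] (S : Set (Tot (V0 := V0) tt g))
    (E : Set (Sym2 (Tot (V0 := V0) tt g))) (E0 : Set (Sym2 V0)) (EB : Set (Sym2 W))
    (hE : ∀ z z', s(z, z') ∈ E → z ∈ S ∧ z' ∈ S ∧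
      ((∃ v v', s(v, v') ∈ E0 ∧ Sum.inl v = z ∧ Sum.inl v' = z') ∨
      (∃ a b, s(a, b) ∈ EB ∧ Sum.inr (Sum.inl a) = z ∧ Sum.inr (Sum.inl b) = z') ∨
      (∃ p v v', (g p).Γ.Adj v v' ∧ psi pt tt g p v = z ∧ psi pt tt g p v' = z' ∧
        (v ∉ Set.range (g p).β ∨ v' ∉ Set.range (g p).β)))) :
    E.ncard ≤ E0.ncard + EB.ncard +
      ∑ p, (exS (g p).Γ (g p).β (psi pt tt g p ⁻¹' S)).ncard := by
  have hfin : ∀ p, Finite (g p).Q := fun p => (g p).fin
  have hfinT : Finite (Tot (V0 := V0) tt g) := by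
    have : ∀ p, Finite (NV tt g p) := fun p => inferInstance
    exact inferInstance
  have hsub : E ⊆ ((Sym2.map Sum.inl '' E0) ∪
      (Sym2.map (fun a => Sum.inr (Sum.inl a)) '' EB)) ∪
      ⋃ p, (Sym2.map (psi pt tt g p) '' (exS (g p).Γ (g p).β (psi pt tt g p ⁻¹' S))) := by
    intro e he
    induction e using Sym2.ind with
    | _ z z' =>
      obtain ⟨hz, hz', h⟩ := hE z z' he
      rcases h with ⟨v, v', h, rfl, rfl⟩ | ⟨a, b, h, rfl, rfl⟩ | ⟨p, v, v', h, rfl, rfl, h3⟩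
      · left; left
        exact ⟨s(v, v'), h, by rw [Sym2.map_mk]⟩
      · left; right
        exact ⟨s(a, b), h, by rw [Sym2.map_mk]⟩
      · right
        rw [Set.mem_iUnion]
        refine ⟨p, s(v, v'), ⟨h, ?_, ?_⟩, by rw [Sym2.map_mk]⟩
        · intro w hw
          rw [Sym2.mem_iff] at hw
          rcases hw with rfl | rfl
          · exact hz
          · exact hz'
        · rcases h3 with h3 | h3
          · exact ⟨v, Sym2.mem_mk_left _ _, h3⟩
          · exact ⟨v', Sym2.mem_mk_right _ _, h3⟩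
  calc E.ncard ≤ _ := Set.ncard_le_ncard hsub (Set.toFinite _)
    _ ≤ ((Sym2.map Sum.inl '' E0) ∪ (Sym2.map (fun a => Sum.inr (Sum.inl a)) '' EB)).ncard +
        (⋃ p, (Sym2.map (psi pt tt g p) ''
          (exS (g p).Γ (g p).β (psi pt tt g p ⁻¹' S)))).ncard := Set.ncard_union_le _ _
    _ ≤ _ := by
        apply Nat.add_le_add
        · refine le_trans (Set.ncard_union_le _ _) ?_
          exact Nat.add_le_add (Set.ncard_image_le (Set.toFinite _))
            (Set.ncard_image_le (Set.toFinite _))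
        · refine le_trans (Set.ncard_iUnion_le_of_fintype _) ?_
          exact Finset.sum_le_sum (fun p _ => Set.ncard_image_le (Set.toFinite _))

end Glue

end Pool.Agent.HA60
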