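import Pool.Agent.HA60.Basic

set_option autoImplicit false

namespace Pool.Agent.HA60

open SimpleGraph

variable {W V : Type}

theorem maxDens_le_Dval [Finite W] [Finite V] {H : SimpleGraph W} {A : SimpleGraph V} {x y : V}
    (hxy : x ≠ y) (hA : ¬ A.Adj x y) (f : W ↪ V) {a b : W}
    (hf : ∀ c d : W, H.Adj c d → s(c, d) ≠ s(a, b) → A.Adj (f c) (f d)) :
    maxDens (H.deleteEdges {s(a, b)}) ≤ Dval A x y := by
  apply Real.sSup_le _ (Dval_nonneg A x y)
  rintro r ⟨F0, hne, rfl⟩
  have hsub : ∀ c d, F0.Adj c d → A.Adj (f c) (f d) := by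
    intro c d hcd
    have h1 := F0.adj_sub hcd
    rw [deleteEdges_adj] at h1
    exact hf c d h1.1 h1.2
  rcases Set.eq_empty_or_nonempty F0.edgeSet with hE | hE
  · rw [hE]
    simp only [Set.ncard_empty, Nat.cast_zero, zero_div]
    exact Dval_nonneg A x y
  · set F : (A ⊔ edge x y).Subgraph :=
      { verts := f '' F0.verts ∪ {x, y}
        Adj := fun u v => (∃ c d, F0.Adj c d ∧ f c = u ∧ f d = v) ∨ s(u, v) = s(x, y)
        adj_sub := by
          rintro u v (⟨c, d, hcd, rfl, rfl⟩ | h)
          · exact Or.inl (hsub c d hcd)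
          · right
            rw [edge_adj]
            rw [Sym2.eq_iff] at h
            refine ⟨h, ?_⟩
            rcases h with ⟨rfl, rfl⟩ | ⟨rfl, rfl⟩
            · exact hxy
            · exact hxy.symm
        edge_vert := by
          rintro u v (⟨c, d, hcd, rfl, rfl⟩ | h)
          · exact Or.inl ⟨c, F0.edge_vert hcd, rfl⟩
          · rw [Sym2.eq_iff] at h
            right
            rcases h with ⟨rfl, rfl⟩ | ⟨rfl, rfl⟩
            · simp
            · simp
        symm := ⟨by
          rintro u v (⟨c, d, hcd, rfl, rfl⟩ | h)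
          · exact Or.inl ⟨d, c, hcd.symm, rfl, rfl⟩
          · exact Or.inr (by rw [Sym2.eq_swap]; exact h)⟩ } with hF
    have hFE : F.edgeSet = insert s(x, y) (Sym2.map f '' F0.edgeSet) := by
      ext e
      induction e using Sym2.ind with
      | _ u v =>
        simp only [Subgraph.mem_edgeSet, Set.mem_insert_iff, Set.mem_image]
        constructor
        · rintro (⟨c, d, hcd, rfl, rfl⟩ | h)
          · exact Or.inr ⟨s(c, d), hcd, rfl⟩
          · exact Or.inl h
        · rintro (h | ⟨e, he, h⟩)
          · exact Or.inr h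
          · induction e using Sym2.ind with
            | _ c d =>
              rw [Sym2.map_mk] at h
              have hcd : F0.Adj c d := he
              rw [Sym2.eq_iff] at h
              rcases h with ⟨h1, h2⟩ | ⟨h1, h2⟩
              · exact Or.inl ⟨c, d, hcd, h1, h2⟩
              · exact Or.inl ⟨d, c, hcd.symm, h2, h1⟩
    have hnot : s(x, y) ∉ Sym2.map f '' F0.edgeSet := by
      rintro ⟨e, he, h⟩
      induction e using Sym2.ind with
      | _ c d =>
        have hcd : F0.Adj c d := he
        rw [Sym2.map_mk, Sym2.eq_iff] at h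
        have h3 := hsub c d hcd
        rcases h with ⟨h1, h2⟩ | ⟨h1, h2⟩
        · exact hA (by rw [← h1, ← h2]; exact h3)
        · exact hA (by rw [← h1, ← h2]; exact h3.symm)
    have hcard : F.edgeSet.ncard = F0.edgeSet.ncard + 1 := by
      rw [hFE, Set.ncard_insert_of_notMem hnot (Set.toFinite _),
        Set.ncard_image_of_injective _ (Sym2.map.injective f.injective)]
    have hv1 : F.verts.ncard ≤ F0.verts.ncard + 2 := by
      calc F.verts.ncard ≤ (f '' F0.verts).ncard + ({x, y} : Set V).ncard :=
            Set.ncard_union_le _ _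
        _ ≤ F0.verts.ncard + 2 := by
            apply Nat.add_le_add
            · exact Set.ncard_image_le (Set.toFinite _)
            · rw [Set.ncard_pair hxy]
    have hv2 : 3 ≤ F.verts.ncard := by
      by_contra hcon
      push Not at hcon
      have hsub2 : ({x, y} : Set V) ⊆ F.verts := fun z hz => Or.inr hz
      have heq : ({x, y} : Set V) = F.verts := by
        apply Set.eq_of_subset_of_ncard_le hsub2 _ (Set.toFinite _)
        rw [Set.ncard_pair hxy]
        omega
      obtain ⟨e, he⟩ := hE
      induction e using Sym2.ind with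
      | _ c d =>
        have hcd : F0.Adj c d := he
        have h1 : f c ∈ F.verts := Or.inl ⟨c, F0.edge_vert hcd, rfl⟩
        have h2 : f d ∈ F.verts := Or.inl ⟨d, F0.edge_vert hcd.symm, rfl⟩
        rw [← heq] at h1 h2
        have h3 := hsub c d hcd
        simp only [Set.mem_insert_iff, Set.mem_singleton_iff] at h1 h2
        rcases h1 with h1 | h1 <;> rcases h2 with h2 | h2
        · rw [h1, h2] at h3; exact h3.ne rfl
        · rw [h1, h2] at h3; exact hA h3
        · rw [h1, h2] at h3; exact hA h3.symm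
        · rw [h1, h2] at h3; exact h3.ne rfl
    have hadj : F.Adj x y := Or.inr rfl
    have h1 := le_Dval F hadj hv2
    refine le_trans ?_ h1
    rw [hcard]
    push_cast
    have h3 : (3 : ℝ) ≤ F.verts.ncard := by exact_mod_cast hv2
    have h4 : (F.verts.ncard : ℝ) ≤ F0.verts.ncard + 2 := by exact_mod_cast hv1
    have h5 : (F0.edgeSet.ncard : ℝ) + 1 - 1 = F0.edgeSet.ncard := by ring
    rw [h5]
    apply div_le_div_of_nonneg_left (Nat.cast_nonneg _) (by linarith) (by linarith)

theorem q_le_Dval [Finite W] [Finite V] {H : SimpleGraph W} {A : SimpleGraph V} {x y : V}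
    (h : Act H A x y) (hA : ¬ A.Adj x y) : q H ≤ Dval A x y := by
  obtain ⟨f, a, b, hab, _, hf⟩ := exists_first h hA
  exact le_trans (q_le hab) (maxDens_le_Dval (act_ne h) hA f hf)

theorem one_le_Dval [Finite V] {H : SimpleGraph W} {A : SimpleGraph V} {x y : V}
    (hdeg : ∀ v, deg H v ≠ 1) (h : Act H A x y) (hA : ¬ A.Adj x y) : 1 ≤ Dval A x y := by
  obtain ⟨z, hz⟩ := exists_nbr hdeg h
  have hxy := act_ne h
  have hzy : y ≠ z := by
    rintro rfl
    exact hA hz
  set F : (A ⊔ edge x y).Subgraph :=
    { verts := {x, y, z}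
      Adj := fun u v => s(u, v) = s(x, y) ∨ s(u, v) = s(x, z)
      adj_sub := by
        rintro u v (h | h) <;> rw [Sym2.eq_iff] at h
        · right
          rw [edge_adj]
          refine ⟨h, ?_⟩
          rcases h with ⟨rfl, rfl⟩ | ⟨rfl, rfl⟩
          · exact hxy
          · exact hxy.symm
        · left
          rcases h with ⟨rfl, rfl⟩ | ⟨rfl, rfl⟩
          · exact hz
          · exact hz.symm
      edge_vert := by
        rintro u v (h | h) <;> rw [Sym2.eq_iff] at h <;> rcases h with ⟨rfl, rfl⟩ | ⟨rfl, rfl⟩ <;>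
          simp
      symm := ⟨by
        rintro u v (h | h)
        · exact Or.inl (by rw [Sym2.eq_swap]; exact h)
        · exact Or.inr (by rw [Sym2.eq_swap]; exact h)⟩ } with hF
  have hE : F.edgeSet = {s(x, y), s(x, z)} := by
    ext e
    induction e using Sym2.ind with
    | _ u v =>
      simp only [Subgraph.mem_edgeSet, Set.mem_insert_iff, Set.mem_singleton_iff]
      rfl
  have hne : s(x, y) ≠ s(x, z) := by
    intro he
    rw [Sym2.eq_iff] at he
    rcases he with ⟨_, h2⟩ | ⟨h1, _⟩
    · exact hzy h2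
    · exact hz.ne h1
  have hcE : F.edgeSet.ncard = 2 := by rw [hE, Set.ncard_pair hne]
  have hcV : F.verts.ncard = 3 := by
    have : ({x, y, z} : Set V).ncard = 3 := Set.ncard_eq_three.2 ⟨x, y, z, hxy, hz.ne, hzy, rfl⟩
    exact this
  have h1 := le_Dval F (Or.inl rfl) (le_of_eq hcV.symm)
  rw [hcE, hcV] at h1
  norm_num at h1
  exact h1

theorem q_le_rho [Finite W] {H : SimpleGraph W} (hH : ∃ a b, H.Adj a b) : q H ≤ rho H :=
  le_rho hH (fun _ _ _ _ _ h1 h2 => q_le_Dval h1 h2)

theorem one_le_rho [Finite W] {H : SimpleGraph W} (hH : ∃ a b, H.Adj a b)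
    (hdeg : ∀ v, deg H v ≠ 1) : 1 ≤ rho H :=
  le_rho hH (fun _ _ _ _ _ h1 h2 => one_le_Dval hdeg h1 h2)

end Pool.Agent.HA60
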