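import Pool.Agent.HA60.P1

set_option autoImplicit false

/-!
The upper bound from a nucleus: a base graph whose closure contains a complete graph.
-/

namespace Pool.Agent.HA60

open SimpleGraph

variable {W U : Type}

/-- The gadget whose root is joined to the roots of `k` copies of a gadget. -/
theorem gad_tree [Finite U] {H : SimpleGraph W} {B : SimpleGraph U} (k : ℕ) (T T' : Set U)
    {θ c : ℝ} (hc : c ≤ θ) (g₀ : Nonempty (Gad H B T' θ c))
    (hact : ∀ (V : Type) (G : SimpleGraph V) (κ : U ↪ V) (r : V) (z : Fin k → V),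
      (∀ a b, Act H B a b → Act H G (κ a) (κ b)) → r ∉ Set.range κ → (∀ i, z i ∉ Set.range κ) →
      Function.Injective z → (∀ i, Act H G r (z i)) → (∀ i, ∀ t ∈ T', Act H G (z i) (κ t)) →
      ∀ t ∈ T, Act H G r (κ t)) :
    Nonempty (Gad H B T θ (max 0 (k * (1 + c - θ)))) := by
  classical
  let TT : Fin k → Set U := fun _ => T'
  let cc : Fin k → ℝ := fun _ => c
  let g : ∀ p, Gad H B (TT p) θ (cc p) := fun _ => Classical.choice g₀
  let pt : Fin k → Option (Fin k) := fun p => some p
  have hK : ∀ p r, (coreG B (none : Option (Fin k)) ∅).Adj (Sum.inr p) (Sum.inr r) ↔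
    B.Adj p r := fun p r => Iff.rfl
  apply gad_build pt g (coreG B (none : Option (Fin k)) ∅) hK none
  · apply hact _ (glue2 pt g (coreG B (none : Option (Fin k)) ∅)) (bt g) _
      (fun i => Sum.inl (Sum.inl (some i)))
      (fun a b h => glue2_base_act pt g (coreG B (none : Option (Fin k)) ∅) hK h)
    · rintro ⟨t, ht⟩
      exact absurd ht (by simp [bt])
    · rintro i ⟨t, ht⟩
      exact absurd ht (by simp [bt])
    · intro i j hij
      simpa using hij
    · intro i
      apply act_of_adj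
      apply glue2_core
      exact Or.inl ⟨rfl, by simp⟩
    · intro i t ht
      exact glue2_root pt g (coreG B (none : Option (Fin k)) ∅) i ht
  · intro S0
    have h1 := coreG_count B (none : Option (Fin k)) ∅ S0
    set m : ℕ := ({v : Option (Fin k) | (Sum.inl v : Option (Fin k) ⊕ U) ∈ S0 ∧ v ≠ none} :
        Set (Option (Fin k))).ncard with hm
    have hsum : (∑ p : Fin k, (if (Sum.inl (pt p) : Option (Fin k) ⊕ U) ∈ S0 then cc p else 0)) =
        m * c := by
      change (∑ p : Fin k, (if (Sum.inl (some p) : Option (Fin k) ⊕ U) ∈ S0 then c else 0)) = _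
      rw [Finset.sum_ite, Finset.sum_const_zero, add_zero, Finset.sum_const, nsmul_eq_mul]
      congr 2
      rw [hm]
      have h2 : ({v : Option (Fin k) | (Sum.inl v : Option (Fin k) ⊕ U) ∈ S0 ∧ v ≠ none} :
          Set (Option (Fin k))) = some '' {p : Fin k |
            (Sum.inl (some p) : Option (Fin k) ⊕ U) ∈ S0} := by
        ext v
        rcases v with _ | v
        · simp
        · simp
      rw [h2, Set.ncard_image_of_injective _ (Option.some_injective _),
        Set.ncard_eq_toFinset_card']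
      congr 1
      ext p
      simp
    rw [Set.ncard_empty, add_zero] at h1
    rw [hsum]
    have hmk : m ≤ k := by
      have h2 : ({v : Option (Fin k) | (Sum.inl v : Option (Fin k) ⊕ U) ∈ S0 ∧ v ≠ none} :
          Set (Option (Fin k))) ⊆ some '' (Set.univ : Set (Fin k)) := by
        rintro (_ | v) ⟨_, hv⟩
        · exact absurd rfl hv
        · exact ⟨v, trivial, rfl⟩
      have h3 := Set.ncard_le_ncard h2 (Set.toFinite _)
      rw [Set.ncard_image_of_injective _ (Option.some_injective _), Set.ncard_univ] at h3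
      simpa using h3
    have hmkR : (m : ℝ) ≤ k := by exact_mod_cast hmk
    have hm0 : (0 : ℝ) ≤ m := Nat.cast_nonneg _
    by_cases hv : (Sum.inl none : Option (Fin k) ⊕ U) ∈ S0
    · rw [if_pos hv] at h1
      rw [if_pos hv]
      have h5 : ((exS (coreG B (none : Option (Fin k)) ∅)
          (⟨Sum.inr, Sum.inr_injective⟩ : U ↪ Option (Fin k) ⊕ U) S0).ncard : ℝ) ≤ m := by
        exact_mod_cast h1
      have h6 : (m : ℝ) * (1 + c - θ) ≤ max 0 (k * (1 + c - θ)) := by
        rcases le_total 0 (1 + c - θ) with h | h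
        · exact le_trans (mul_le_mul_of_nonneg_right hmkR h) (le_max_right _ _)
        · exact le_trans (mul_nonpos_of_nonneg_of_nonpos hm0 h) (le_max_left _ _)
      have h7 : (m : ℝ) * (1 + c - θ) = m + m * c - θ * m := by ring
      rw [h7] at h6
      linarith
    · rw [if_neg hv] at h1
      rw [if_neg hv]
      have h5 : ((exS (coreG B (none : Option (Fin k)) ∅)
          (⟨Sum.inr, Sum.inr_injective⟩ : U ↪ Option (Fin k) ⊕ U) S0).ncard : ℝ) ≤ 0 := by
        exact_mod_cast h1
      have h6 : (m : ℝ) * c ≤ m * θ := mul_le_mul_of_nonneg_left hc hm0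
      have h7 : (m : ℝ) * θ = θ * m := mul_comm _ _
      linarith

/-- The facts about a nucleus in a larger graph. -/
theorem nucleus_facts [Finite W] {H : SimpleGraph W} {V : Type} {G : SimpleGraph V} (ν : W ↪ V)
    (hν : ∀ a b, a ≠ b → Act H G (ν a) (ν b)) {w c₀ : W} (hw : H.Adj w c₀) :
    (∀ z z', z ∉ Set.range ν → z' ∉ Set.range ν → z ≠ z' → (∀ t, Act H G z (ν t)) →
      (∀ t, Act H G z' (ν t)) → Act H G z z') ∧
    (∀ r (u : W → V), (∀ t, H.Adj w t → t ≠ c₀ → Act H G r (u t)) →
      r ∉ Set.range ν →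
      (∀ t t', H.Adj w t → t ≠ c₀ → H.Adj w t' → t' ≠ c₀ → u t = u t' → t = t') →
      ((∀ t, H.Adj w t → t ≠ c₀ → u t = ν t) ∨
        (∀ t, H.Adj w t → t ≠ c₀ → u t ∉ Set.range ν ∧ ∀ s, Act H G (u t) (ν s))) →
      ∀ v, Act H G r (ν v)) := by
  classical
  have hfull : ∀ z z', z ∉ Set.range ν → z' ∉ Set.range ν → z ≠ z' → (∀ t, Act H G z (ν t)) →
      (∀ t, Act H G z' (ν t)) → Act H G z z' := by
    intro z z' hz hz' hzz h h'
    let F : W → V := fun t => if t = w then z else if t = c₀ then z' else ν t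
    have Fw : F w = z := if_pos rfl
    have Fc : F c₀ = z' := by
      change (if c₀ = w then z else if c₀ = c₀ then z' else ν c₀) = z'
      rw [if_neg hw.ne', if_pos rfl]
    have Fo : ∀ t, t ≠ w → t ≠ c₀ → F t = ν t := by
      intro t h1 h2
      change (if t = w then z else if t = c₀ then z' else ν t) = ν t
      rw [if_neg h1, if_neg h2]
    have hcase : ∀ t : W, t = w ∨ t = c₀ ∨ (t ≠ w ∧ t ≠ c₀) := by
      intro t
      by_cases h1 : t = w
      · exact Or.inl h1
      · by_cases h2 : t = c₀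
        · exact Or.inr (Or.inl h2)
        · exact Or.inr (Or.inr ⟨h1, h2⟩)
    have hinj : Function.Injective F := by
      intro t t' htt
      rcases hcase t with rfl | rfl | ⟨c1, c2⟩ <;> rcases hcase t' with rfl | rfl | ⟨d1, d2⟩
      · rfl
      · rw [Fw, Fc] at htt; exact absurd htt hzz
      · rw [Fw, Fo t' d1 d2] at htt; exact absurd ⟨_, htt.symm⟩ hz
      · rw [Fw, Fc] at htt; exact absurd htt.symm hzz
      · rfl
      · rw [Fc, Fo t' d1 d2] at htt; exact absurd ⟨_, htt.symm⟩ hz'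
      · rw [Fw, Fo t c1 c2] at htt; exact absurd ⟨_, htt⟩ hz
      · rw [Fc, Fo t c1 c2] at htt; exact absurd ⟨_, htt⟩ hz'
      · rw [Fo t c1 c2, Fo t' d1 d2] at htt
        exact ν.injective htt
    have hact := act_complete (G := G) ⟨F, hinj⟩ hw (by
      intro c d hcd hne
      change Act H G (F c) (F d)
      rcases hcase c with rfl | rfl | ⟨c1, c2⟩ <;> rcases hcase d with rfl | rfl | ⟨d1, d2⟩
      · exact absurd rfl hcd.ne
      · exact absurd rfl hne
      · rw [Fw, Fo d d1 d2]; exact h d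
      · exact absurd Sym2.eq_swap hne
      · exact absurd rfl hcd.ne
      · rw [Fc, Fo d d1 d2]; exact h' d
      · rw [Fw, Fo c c1 c2]; exact act_symm (h c)
      · rw [Fc, Fo c c1 c2]; exact act_symm (h' c)
      · rw [Fo c c1 c2, Fo d d1 d2]; exact hν c d hcd.ne)
    change Act H G (F w) (F c₀) at hact
    rw [Fw, Fc] at hact
    exact hact
  refine ⟨hfull, ?_⟩
  intro r u hru hr hu hcases v
  by_cases hv : H.Adj w v ∧ v ≠ c₀ ∧ u v = ν v
  · rw [← hv.2.2]
    exact hru v hv.1 hv.2.1
  -- the copy of `H` in which `w` is `r` and `c₀` is `ν v`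
  let F : W → V := fun t => if t = w then r else if H.Adj w t ∧ t ≠ c₀ then u t else
    ν (Equiv.swap c₀ v t)
  have Fw : F w = r := if_pos rfl
  have Fu : ∀ t, H.Adj w t → t ≠ c₀ → F t = u t := by
    intro t h1 h2
    change (if t = w then r else if H.Adj w t ∧ t ≠ c₀ then u t else ν (Equiv.swap c₀ v t)) = _
    rw [if_neg h1.ne', if_pos ⟨h1, h2⟩]
  have Fo : ∀ t, t ≠ w → ¬ (H.Adj w t ∧ t ≠ c₀) → F t = ν (Equiv.swap c₀ v t) := by
    intro t h1 h2
    change (if t = w then r else if H.Adj w t ∧ t ≠ c₀ then u t else ν (Equiv.swap c₀ v t)) = _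
    rw [if_neg h1, if_neg h2]
  have Fc : F c₀ = ν v := by
    rw [Fo c₀ hw.ne' (fun h => h.2 rfl), Equiv.swap_apply_left]
  have hcase : ∀ t : W, t = w ∨ (H.Adj w t ∧ t ≠ c₀) ∨ (t ≠ w ∧ ¬ (H.Adj w t ∧ t ≠ c₀)) := by
    intro t
    by_cases h1 : t = w
    · exact Or.inl h1
    · by_cases h2 : H.Adj w t ∧ t ≠ c₀
      · exact Or.inr (Or.inl h2)
      · exact Or.inr (Or.inr ⟨h1, h2⟩)
  -- the images of the neighbours and of the other vertices are different
  have hno : ∀ t t', H.Adj w t → t ≠ c₀ → t' ≠ w → ¬ (H.Adj w t' ∧ t' ≠ c₀) →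
      u t ≠ ν (Equiv.swap c₀ v t') := by
    intro t t' h1 h2 h3 h4 h5
    rcases hcases with h | h
    · rw [h t h1 h2] at h5
      have h6 := ν.injective h5
      have h7 : t ≠ v := by
        rintro rfl
        exact hv ⟨h1, h2, h t h1 h2⟩
      have h8 : Equiv.swap c₀ v t' = Equiv.swap c₀ v t := by
        rw [← h6, Equiv.swap_apply_of_ne_of_ne h2 h7]
      have h9 := (Equiv.swap c₀ v).injective h8
      rw [h9] at h4
      exact h4 ⟨h1, h2⟩
    · exact (h t h1 h2).1 ⟨_, h5.symm⟩
  have hur : ∀ t, H.Adj w t → t ≠ c₀ → r ≠ u t := fun t h1 h2 => act_ne (hru t h1 h2)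
  have hinj : Function.Injective F := by
    intro t t' htt
    rcases hcase t with rfl | ⟨c1, c2⟩ | ⟨c1, c2⟩ <;>
      rcases hcase t' with rfl | ⟨d1, d2⟩ | ⟨d1, d2⟩
    · rfl
    · rw [Fw, Fu t' d1 d2] at htt; exact absurd htt (hur t' d1 d2)
    · rw [Fw, Fo t' d1 d2] at htt; exact absurd ⟨_, htt.symm⟩ hr
    · rw [Fw, Fu t c1 c2] at htt; exact absurd htt.symm (hur t c1 c2)
    · rw [Fu t c1 c2, Fu t' d1 d2] at htt; exact hu t t' c1 c2 d1 d2 htt
    · rw [Fu t c1 c2, Fo t' d1 d2] at htt; exact absurd htt (hno t t' c1 c2 d1 d2)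
    · rw [Fw, Fo t c1 c2] at htt; exact absurd ⟨_, htt⟩ hr
    · rw [Fu t' d1 d2, Fo t c1 c2] at htt; exact absurd htt.symm (hno t' t d1 d2 c1 c2)
    · rw [Fo t c1 c2, Fo t' d1 d2] at htt
      exact (Equiv.swap c₀ v).injective (ν.injective htt)
  -- two images other than `r` are adjacent
  have hadj : ∀ t t', t ≠ t' → t ≠ w → t' ≠ w → Act H G (F t) (F t') := by
    have huo : ∀ t t', H.Adj w t → t ≠ c₀ → t' ≠ w → ¬ (H.Adj w t' ∧ t' ≠ c₀) →
        Act H G (u t) (ν (Equiv.swap c₀ v t')) := by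
      intro t t' h1 h2 h3 h4
      have h5 := hno t t' h1 h2 h3 h4
      rcases hcases with h | h
      · rw [h t h1 h2] at h5 ⊢
        exact hν _ _ (fun h6 => h5 (by rw [h6]))
      · exact (h t h1 h2).2 _
    intro t t' hne h1 h2
    have hFne : F t ≠ F t' := fun h => hne (hinj h)
    rcases hcase t with rfl | ⟨c1, c2⟩ | ⟨c1, c2⟩
    · exact absurd rfl h1
    · rcases hcase t' with rfl | ⟨d1, d2⟩ | ⟨d1, d2⟩
      · exact absurd rfl h2
      · rw [Fu t c1 c2, Fu t' d1 d2] at hFne ⊢
        rcases hcases with h | h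
        · rw [h t c1 c2, h t' d1 d2]
          exact hν _ _ hne
        · exact hfull _ _ (h t c1 c2).1 (h t' d1 d2).1 hFne (h t c1 c2).2 (h t' d1 d2).2
      · rw [Fu t c1 c2, Fo t' d1 d2]
        exact huo t t' c1 c2 d1 d2
    · rcases hcase t' with rfl | ⟨d1, d2⟩ | ⟨d1, d2⟩
      · exact absurd rfl h2
      · rw [Fo t c1 c2, Fu t' d1 d2]
        exact act_symm (huo t' t d1 d2 c1 c2)
      · rw [Fo t c1 c2, Fo t' d1 d2] at hFne ⊢
        exact hν _ _ (fun h => hFne (by rw [h]))
  have hact := act_complete (G := G) ⟨F, hinj⟩ hw (by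
    intro c d hcd hne
    change Act H G (F c) (F d)
    by_cases h1 : c = w
    · rw [h1] at hcd hne ⊢
      have h2 : d ≠ c₀ := by
        rintro rfl
        exact hne rfl
      rw [Fw, Fu d hcd h2]
      exact hru d hcd h2
    · by_cases h2 : d = w
      · rw [h2] at hcd hne ⊢
        have h3 : c ≠ c₀ := by
          rintro rfl
          exact hne Sym2.eq_swap
        rw [Fw, Fu c hcd.symm h3]
        exact act_symm (hru c hcd.symm h3)
      · exact hadj c d hcd.ne h1 h2)
  change Act H G (F w) (F c₀) at hact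
  rw [Fw, Fc] at hact
  exact hact

/-- The upper bound from a nucleus: if the closure of `B` contains a complete graph on `v(H)`
vertices, all sets `S` contain at most `M |S|` edges of `B`, and `H` has a vertex of degree
`k + 1` with `k < M`, then `ρ(H) ≤ M`. -/
theorem rho_le_of_nucleus [Finite W] [Finite U] {H : SimpleGraph W} {B : SimpleGraph U} {M : ℝ}
    (hbase : ∀ S : Set U, ((({e | e ∈ B.edgeSet ∧ ∀ v ∈ e, v ∈ S} : Set (Sym2 U)).ncard : ℕ) : ℝ)
      ≤ M * S.ncard) (ν : W ↪ U) (hν : ∀ a b, a ≠ b → Act H B (ν a) (ν b)) {w c₀ : W}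
    (hw : H.Adj w c₀) {k : ℕ} (hk : deg H w = k + 1) (hkM : (k : ℝ) < M) : rho H ≤ M := by
  classical
  have hk0 : (0 : ℝ) ≤ k := Nat.cast_nonneg _
  set T : Set U := Set.range ν with hT
  set N : Set W := {t | H.Adj w t ∧ t ≠ c₀} with hN
  have hNcard : N.ncard = k := by
    have h3 : N = H.neighborSet w \ {c₀} := by
      ext c
      simp [hN]
    have h4 := Set.ncard_sdiff_singleton_add_one (s := H.neighborSet w) (a := c₀) hw
      (Set.toFinite _)
    unfold deg at hk
    rw [h3]
    omega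
  -- an enumeration of `N`
  obtain ⟨idx, hidx⟩ : ∃ idx : N ≃ Fin k, True := by
    have : Nat.card N = k := by rw [Nat.card_coe_set_eq, hNcard]
    have : Fintype N := Fintype.ofFinite _
    have hc : Fintype.card N = k := by rw [← Nat.card_eq_fintype_card]; assumption
    exact ⟨Fintype.equivFinOfCardEq hc, trivial⟩
  have hctx : ∀ (V : Type) (G : SimpleGraph V) (κ : U ↪ V),
      (∀ a b, Act H B a b → Act H G (κ a) (κ b)) →
      ∀ a b, a ≠ b → Act H G ((ν.trans κ) a) ((ν.trans κ) b) :=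
    fun V G κ hκ a b hab => hκ _ _ (hν a b hab)
  have hnr : ∀ {V : Type} (κ : U ↪ V) {z : V}, z ∉ Set.range κ → z ∉ Set.range (ν.trans κ) := by
    rintro V κ z hz ⟨t, ht⟩
    exact hz ⟨_, ht⟩
  have hstar : Nonempty (Gad H B T M (k : ℝ)) := by
    have h := gad_star (H := H) (B := B) T (ν '' N) M (by
      intro V G κ r hκ hr hR t ht
      obtain ⟨v, rfl⟩ := ht
      have h1 := (nucleus_facts (ν.trans κ) (hctx V G κ hκ) hw).2 r (fun t => κ (ν t))
        (fun t h1 h2 => hR _ ⟨t, ⟨h1, h2⟩, rfl⟩) (hnr κ hr)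
        (fun t t' _ _ _ _ h => ν.injective (κ.injective h)) (Or.inl (fun t _ _ => rfl)) v
      exact h1)
    rw [Set.ncard_image_of_injective _ ν.injective, hNcard] at h
    exact h
  have hnext : ∀ c : ℝ, c ≤ M → Nonempty (Gad H B T M c) →
      Nonempty (Gad H B T M (max 0 (k * (1 + c - M)))) := by
    intro c hc g₀
    apply gad_tree k T T hc g₀
    intro V G κ r z hκ hr hz hzinj hrz hzT t ht
    obtain ⟨v, rfl⟩ := ht
    let u : W → V := fun t => if h : t ∈ N then z (idx ⟨t, h⟩) else r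
    have hu : ∀ t, (h : t ∈ N) → u t = z (idx ⟨t, h⟩) := fun t h => dif_pos h
    exact (nucleus_facts (ν.trans κ) (hctx V G κ hκ) hw).2 r u
      (fun t h1 h2 => by
        rw [hu t ⟨h1, h2⟩]
        exact hrz _) (hnr κ hr)
      (fun t t' h1 h2 h3 h4 h => by
        rw [hu t ⟨h1, h2⟩, hu t' ⟨h3, h4⟩] at h
        have h5 := idx.injective (hzinj h)
        exact congrArg Subtype.val h5)
      (Or.inr (fun t h1 h2 => by
        rw [hu t ⟨h1, h2⟩]
        exact ⟨hnr κ (hz _), fun s => hzT _ _ ⟨s, rfl⟩⟩)) v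
  have hfree : Nonempty (Gad H B T M 0) := by
    rcases Nat.eq_zero_or_pos k with h0 | h0
    · rw [h0, Nat.cast_zero] at hstar
      exact hstar
    · have hk1 : (1 : ℝ) ≤ k := by exact_mod_cast h0
      set ε : ℝ := M - k with hε
      have hεpos : 0 < ε := by rw [hε]; linarith
      have key : ∀ m : ℕ, ∃ τ : ℝ, 0 ≤ τ ∧ τ ≤ k ∧ τ ≤ max 0 (k - m * ε) ∧
          Nonempty (Gad H B T M τ) := by
        intro m
        induction m with
        | zero => exact ⟨k, hk0, le_refl _, by simp, hstar⟩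
        | succ m ih =>
          obtain ⟨τ, h1, h2, h3, h4⟩ := ih
          have h5 : (k : ℝ) * (1 + τ - M) ≤ τ - ε := by
            have h6 : 0 ≤ ((k : ℝ) - 1) * (M - τ) := mul_nonneg (by linarith) (by linarith)
            have h7 : (k : ℝ) * (1 + τ - M) = τ - ε - ((k : ℝ) - 1) * (M - τ) := by
              rw [hε]; ring
            rw [h7]
            linarith
          refine ⟨max 0 (k * (1 + τ - M)), le_max_left _ _, max_le hk0 (by linarith), ?_,
            hnext τ (by linarith) h4⟩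
          apply max_le (le_max_left _ _)
          push_cast
          rcases le_total ((k : ℝ) - m * ε) 0 with h8 | h8
          · rw [max_eq_left h8] at h3
            have : 0 ≤ max 0 ((k : ℝ) - ((m : ℝ) + 1) * ε) := le_max_left _ _
            linarith
          · rw [max_eq_right h8] at h3
            have : (k : ℝ) - ((m : ℝ) + 1) * ε ≤ max 0 ((k : ℝ) - ((m : ℝ) + 1) * ε) :=
              le_max_right _ _
            linarith
      obtain ⟨m, hm⟩ := exists_nat_gt ((k : ℝ) / ε)
      obtain ⟨τ, h1, _, h3, h4⟩ := key m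
      have h5 : (k : ℝ) < m * ε := by rwa [div_lt_iff₀ hεpos] at hm
      rw [max_eq_left (by linarith)] at h3
      have h6 : τ = 0 := le_antisymm h3 h1
      rw [h6] at h4
      exact h4
  apply rho_le_of_gadgets (B := B) (θ := M) (by linarith) (le_refl _) hbase hfree hfree
  intro V G κ x y hκ hx hy hxy hxT hyT
  exact (nucleus_facts (ν.trans κ) (hctx V G κ hκ) hw).1 x y (hnr κ hx) (hnr κ hy) hxy
    (fun t => hxT _ ⟨t, rfl⟩) (fun t => hyT _ ⟨t, rfl⟩)

end Pool.Agent.HA60
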