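import Pool.Agent.HA60.Defs

set_option autoImplicit false

namespace Pool.Agent.HA60

/-- The nucleation density: the infimum of the maximum densities `m(B)` of the finite graphs `B`
whose closure contains a complete graph on `v(H)` vertices. -/
noncomputable def nu {W : Type} (H : SimpleGraph W) : ℝ :=
  sInf {r | ∃ (U : Type) (_ : Finite U) (B : SimpleGraph U) (κ : W ↪ U),
    (∀ a b, a ≠ b → Act H B (κ a) (κ b)) ∧ r = maxDens B}

/-- The graph obtained from `H` by adding `2 v(H)` clones of each vertex of `X` (the vertices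
`Sum.inr (x, i)` with `x ∉ X` are isolated). -/
def cloned {W : Type} (H : SimpleGraph W) (X : Set W) : SimpleGraph (W ⊕ (W × (Bool × W))) where
  Adj := fun p r => match p, r with
    | Sum.inl c, Sum.inl d => H.Adj c d
    | Sum.inl c, Sum.inr xi => xi.1 ∈ X ∧ H.Adj xi.1 c
    | Sum.inr xi, Sum.inl c => xi.1 ∈ X ∧ H.Adj xi.1 c
    | Sum.inr xi, Sum.inr xj => xi.1 ∈ X ∧ xj.1 ∈ X ∧ H.Adj xi.1 xj.1
  symm := ⟨by
    rintro (c | xi) (d | xj) h
    · exact (show H.Adj c d from h).symm
    · exact h
    · exact h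
    · exact ⟨h.2.1, h.1, h.2.2.symm⟩⟩
  loopless := ⟨by
    rintro (c | xi) h
    · exact H.loopless.irrefl c h
    · exact H.loopless.irrefl _ h.2.2⟩

end Pool.Agent.HA60
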