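import Pool.Agent.HA60.N1
import Pool.Agent.HA60.NuDefs

set_option autoImplicit false

/-!
The nucleation density is a lower bound for `ρ(H)`.
-/

namespace Pool.Agent.HA60

open SimpleGraph

variable {W U V : Type}

/-- The number of edges of `A` inside a set, in terms of `D(e, A)`. -/
theorem inside_le_Dval [Finite V] {A : SimpleGraph V} {x y : V} (hxy : x ≠ y) (hA : ¬ A.Adj x y)
    (S : Set V) :
    ((({e | e ∈ A.edgeSet ∧ ∀ v ∈ e, v ∈ S} : Set (Sym2 V)).ncard : ℕ) : ℝ) ≤
      Dval A x y * (({v | v ∈ S ∧ v ≠ x ∧ v ≠ y} : Set V).ncard : ℝ) := by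
  classical
  set N : Set V := {v | v ∈ S ∧ v ≠ x ∧ v ≠ y} with hN
  set E : Set (Sym2 V) := {e | e ∈ A.edgeSet ∧ ∀ v ∈ e, v ∈ S} with hE
  rcases Set.eq_empty_or_nonempty N with hempty | hne
  · have hE0 : E = ∅ := by
      ext e
      simp only [Set.mem_empty_iff_false, iff_false]
      rintro ⟨h1, h2⟩
      induction e using Sym2.ind with
      | _ u v =>
        have hu := h2 u (Sym2.mem_mk_left _ _)
        have hv := h2 v (Sym2.mem_mk_right _ _)
        have hadj : A.Adj u v := h1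
        have key : ∀ z ∈ S, z = x ∨ z = y := by
          intro z hz
          by_contra hcon
          push Not at hcon
          have : z ∈ N := ⟨hz, hcon.1, hcon.2⟩
          rw [hempty] at this
          exact this
        rcases key u hu with rfl | rfl <;> rcases key v hv with rfl | rfl
        · exact hadj.ne rfl
        · exact hA hadj
        · exact hA hadj.symm
        · exact hadj.ne rfl
    rw [hE0, hempty]
    simp
  · set F : (A ⊔ edge x y).Subgraph :=
      { verts := N ∪ {x, y}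
        Adj := fun a b => (A ⊔ edge x y).Adj a b ∧ a ∈ N ∪ {x, y} ∧ b ∈ N ∪ {x, y}
        adj_sub := fun h => h.1
        edge_vert := fun h => h.2.1
        symm := ⟨fun a b h => ⟨h.1.symm, h.2.2, h.2.1⟩⟩ } with hF
    have hverts : F.verts.ncard = N.ncard + 2 := by
      change (N ∪ {x, y}).ncard = _
      rw [Set.ncard_union_eq _ (Set.toFinite _) (Set.toFinite _), Set.ncard_pair hxy]
      rw [Set.disjoint_left]
      rintro v ⟨_, h1, h2⟩ h3
      rcases h3 with rfl | rfl
      · exact h1 rfl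
      · exact h2 rfl
    have hFxy : F.Adj x y := by
      refine ⟨Or.inr ?_, Or.inr (by simp), Or.inr (by simp)⟩
      rw [edge_adj]
      exact ⟨Or.inl ⟨rfl, rfl⟩, hxy⟩
    have hpos : 0 < N.ncard := (Set.ncard_pos (Set.toFinite _)).2 hne
    have h1 := le_Dval F hFxy (by rw [hverts]; omega)
    have hsub : insert s(x, y) E ⊆ F.edgeSet := by
      intro e he
      rcases he with rfl | ⟨h2, h3⟩
      · exact hFxy
      · induction e using Sym2.ind with
        | _ u v =>
          have hmem : ∀ z ∈ S, z ∈ N ∪ {x, y} := by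
            intro z hz
            by_cases h4 : z = x
            · exact Or.inr (Or.inl h4)
            · by_cases h5 : z = y
              · exact Or.inr (Or.inr h5)
              · exact Or.inl ⟨hz, h4, h5⟩
          exact ⟨Or.inl h2, hmem u (h3 u (Sym2.mem_mk_left _ _)),
            hmem v (h3 v (Sym2.mem_mk_right _ _))⟩
    have hnot : s(x, y) ∉ E := fun h => hA h.1
    have h2 := Set.ncard_le_ncard hsub (Set.toFinite _)
    rw [Set.ncard_insert_of_notMem hnot (Set.toFinite _)] at h2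
    have h3 : (E.ncard : ℝ) + 1 ≤ F.edgeSet.ncard := by exact_mod_cast h2
    have h4 : (F.verts.ncard : ℝ) = N.ncard + 2 := by rw [hverts]; push_cast; rfl
    have h5 : (0 : ℝ) < N.ncard := by exact_mod_cast hpos
    rw [h4, div_le_iff₀ (by linarith)] at h1
    have h6 : Dval A x y * ((N.ncard : ℝ) + 2 - 2) = Dval A x y * N.ncard := by ring
    rw [h6] at h1
    linarith

/-- A bound for all sets bounds the maximum density. -/
theorem maxDens_le_of_count [Finite U] {B : SimpleGraph U} {M : ℝ} (hM : 0 ≤ M)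
    (h : ∀ S : Set U, ((({e | e ∈ B.edgeSet ∧ ∀ v ∈ e, v ∈ S} : Set (Sym2 U)).ncard : ℕ) : ℝ) ≤
      M * S.ncard) : maxDens B ≤ M := by
  apply Real.sSup_le _ hM
  rintro r ⟨F, hne, rfl⟩
  have h1 : (0 : ℝ) < F.verts.ncard := by exact_mod_cast (Set.ncard_pos (Set.toFinite _)).2 hne
  rw [div_le_iff₀ h1]
  refine le_trans ?_ (h F.verts)
  have h2 : F.edgeSet ⊆ {e | e ∈ B.edgeSet ∧ ∀ v ∈ e, v ∈ F.verts} := by
    intro e he
    induction e using Sym2.ind with
    | _ u v =>
      have hadj : F.Adj u v := he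
      refine ⟨F.adj_sub hadj, ?_⟩
      intro w hw
      rw [Sym2.mem_iff] at hw
      rcases hw with rfl | rfl
      · exact F.edge_vert hadj
      · exact F.edge_vert hadj.symm
  exact_mod_cast Set.ncard_le_ncard h2 (Set.toFinite _)

section Net

variable (A : SimpleGraph V) (x y : V)

/-- The vertices of `A` other than `x` and `y`. -/
abbrev NN : Type := {v : V // v ≠ x ∧ v ≠ y}

/-- The ordered pairs of different elements of `W`. -/
abbrev PP (W : Type) : Type := {p : W × W // p.1 ≠ p.2}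

open Classical in
/-- The copy of `A` which belongs to the pair `p`, as a function. -/
noncomputable def netF (p : PP W) (v : V) : W ⊕ (Σ _ : PP W, NN x y) :=
  if h : v = x then Sum.inl p.1.1 else if h2 : v = y then Sum.inl p.1.2 else
    Sum.inr ⟨p, ⟨v, h, h2⟩⟩

theorem netF_x (p : PP W) : netF x y p x = Sum.inl p.1.1 := by
  unfold netF
  rw [dif_pos rfl]

theorem netF_y (hxy : x ≠ y) (p : PP W) : netF x y p y = Sum.inl p.1.2 := by
  unfold netF
  rw [dif_neg hxy.symm, dif_pos rfl]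

theorem netF_o (p : PP W) {v : V} (h : v ≠ x) (h2 : v ≠ y) :
    netF x y p v = Sum.inr ⟨p, ⟨v, h, h2⟩⟩ := by
  unfold netF
  rw [dif_neg h, dif_neg h2]

theorem netF_inj (hxy : x ≠ y) (p : PP W) : Function.Injective (netF x y p) := by
  classical
  have hcase : ∀ v : V, v = x ∨ v = y ∨ (v ≠ x ∧ v ≠ y) := by
    intro t
    by_cases h1 : t = x
    · exact Or.inl h1
    · by_cases h2 : t = y
      · exact Or.inr (Or.inl h2)
      · exact Or.inr (Or.inr ⟨h1, h2⟩)
  intro v v' hvv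
  rcases hcase v with rfl | rfl | ⟨c1, c2⟩ <;> rcases hcase v' with rfl | rfl | ⟨d1, d2⟩
  · rfl
  · rw [netF_x, netF_y _ _ hxy] at hvv
    exact absurd (Sum.inl.inj hvv) p.2
  · rw [netF_x, netF_o _ _ p d1 d2] at hvv
    exact absurd hvv (by simp)
  · rw [netF_x, netF_y _ _ hxy] at hvv
    exact absurd (Sum.inl.inj hvv).symm p.2
  · rfl
  · rw [netF_y _ _ hxy, netF_o _ _ p d1 d2] at hvv
    exact absurd hvv (by simp)
  · rw [netF_x, netF_o _ _ p c1 c2] at hvv
    exact absurd hvv (by simp)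
  · rw [netF_y _ _ hxy, netF_o _ _ p c1 c2] at hvv
    exact absurd hvv (by simp)
  · rw [netF_o _ _ p c1 c2, netF_o _ _ p d1 d2] at hvv
    have h := Sum.inr.inj hvv
    injection h with _ h2
    injection h2

/-- A copy of `A` on every pair of different elements of `W`. -/
def net (W : Type) (hxy : x ≠ y) : SimpleGraph (W ⊕ (Σ _ : PP W, NN x y)) where
  Adj := fun z z' => ∃ (p : PP W) (v v' : V), A.Adj v v' ∧ netF x y p v = z ∧ netF x y p v' = z'
  symm := ⟨by
    rintro z z' ⟨p, v, v', h, rfl, rfl⟩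
    exact ⟨p, v', v, h.symm, rfl, rfl⟩⟩
  loopless := ⟨by
    rintro z ⟨p, v, v', h, h1, h2⟩
    exact h.ne (netF_inj x y hxy p (h1.trans h2.symm))⟩

end Net

/-- The nucleation density is at most `D(e, A)`. -/
theorem nu_le_Dval [Finite W] [Finite V] {H : SimpleGraph W} {A : SimpleGraph V} {x y : V}
    (h : Act H A x y) (hA : ¬ A.Adj x y) : nu H ≤ Dval A x y := by
  classical
  have hxy := act_ne h
  have := Fintype.ofFinite W
  have hPfin : Fintype (PP W) := Fintype.ofFinite _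
  set B := net A x y W hxy with hB
  have hact : ∀ a b : W, a ≠ b → Act H B (Sum.inl a) (Sum.inl b) := by
    intro a b hab
    have h1 := act_map (G' := B) ⟨netF x y ⟨(a, b), hab⟩, netF_inj x y hxy _⟩
      (fun v v' hvv => ⟨⟨(a, b), hab⟩, v, v', hvv, rfl, rfl⟩) h
    change Act H B (netF x y ⟨(a, b), hab⟩ x) (netF x y ⟨(a, b), hab⟩ y) at h1
    rw [netF_x, netF_y _ _ hxy] at h1
    exact h1
  have h1 : nu H ≤ maxDens B := by
    apply csInf_le
    · refine ⟨0, ?_⟩
      rintro r ⟨U, _, B', κ, _, rfl⟩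
      exact maxDens_nonneg B'
    · exact ⟨_, inferInstance, B, ⟨Sum.inl, Sum.inl_injective⟩, hact, rfl⟩
  refine le_trans h1 ?_
  have hD := Dval_nonneg A x y
  apply maxDens_le_of_count hD
  intro S
  have hsub : ({e | e ∈ B.edgeSet ∧ ∀ v ∈ e, v ∈ S} :
      Set (Sym2 (W ⊕ (Σ _ : PP W, NN x y)))) ⊆
      ⋃ p : PP W, (Sym2.map (netF x y p) ''
        {e | e ∈ A.edgeSet ∧ ∀ v ∈ e, v ∈ (netF x y p ⁻¹' S : Set V)}) := by
    rintro e ⟨he1, he2⟩
    induction e using Sym2.ind with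
    | _ z z' =>
      obtain ⟨p, v, v', hvv, rfl, rfl⟩ := he1
      rw [Set.mem_iUnion]
      refine ⟨p, s(v, v'), ⟨hvv, ?_⟩, by rw [Sym2.map_mk]⟩
      intro w hw
      rw [Sym2.mem_iff] at hw
      rcases hw with rfl | rfl
      · exact he2 _ (Sym2.mem_mk_left _ _)
      · exact he2 _ (Sym2.mem_mk_right _ _)
  have h2 : ({e | e ∈ B.edgeSet ∧ ∀ v ∈ e, v ∈ S} :
      Set (Sym2 (W ⊕ (Σ _ : PP W, NN x y)))).ncard ≤
      ∑ p : PP W, ({e | e ∈ A.edgeSet ∧ ∀ v ∈ e, v ∈ (netF x y p ⁻¹' S : Set V)} :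
        Set (Sym2 V)).ncard := by
    refine le_trans (Set.ncard_le_ncard hsub (Set.toFinite _)) ?_
    refine le_trans (Set.ncard_iUnion_le_of_fintype _) ?_
    exact Finset.sum_le_sum (fun p _ => Set.ncard_image_le (Set.toFinite _))
  have h3 : ((({e | e ∈ B.edgeSet ∧ ∀ v ∈ e, v ∈ S} :
      Set (Sym2 (W ⊕ (Σ _ : PP W, NN x y)))).ncard : ℕ) : ℝ) ≤
      ∑ p : PP W, ((({e | e ∈ A.edgeSet ∧ ∀ v ∈ e, v ∈ (netF x y p ⁻¹' S : Set V)} :
        Set (Sym2 V)).ncard : ℕ) : ℝ) := by exact_mod_cast h2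
  refine le_trans h3 ?_
  have h4 : ∀ p : PP W, ((({e | e ∈ A.edgeSet ∧ ∀ v ∈ e, v ∈ (netF x y p ⁻¹' S : Set V)} :
        Set (Sym2 V)).ncard : ℕ) : ℝ) ≤
      Dval A x y * (({v : NN x y | (⟨p, v⟩ : Σ _ : PP W, NN x y) ∈ (Sum.inr ⁻¹' S :
        Set (Σ _ : PP W, NN x y))} : Set (NN x y)).ncard : ℝ) := by
    intro p
    refine le_trans (inside_le_Dval hxy hA _) ?_
    apply mul_le_mul_of_nonneg_left _ hD
    have h5 : ({v | v ∈ (netF x y p ⁻¹' S : Set V) ∧ v ≠ x ∧ v ≠ y} : Set V) =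
        Subtype.val '' {v : NN x y | (⟨p, v⟩ : Σ _ : PP W, NN x y) ∈ (Sum.inr ⁻¹' S :
        Set (Σ _ : PP W, NN x y))} := by
      ext v
      constructor
      · rintro ⟨h6, h7, h8⟩
        refine ⟨⟨v, h7, h8⟩, ?_, rfl⟩
        change Sum.inr (⟨p, ⟨v, h7, h8⟩⟩ : Σ _ : PP W, NN x y) ∈ S
        rw [← netF_o x y p h7 h8]
        exact h6
      · rintro ⟨v', h6, rfl⟩
        refine ⟨?_, v'.2.1, v'.2.2⟩
        change netF x y p v'.1 ∈ S
        rw [netF_o x y p v'.2.1 v'.2.2]
        exact h6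
    rw [h5, Set.ncard_image_of_injective _ Subtype.val_injective]
  refine le_trans (Finset.sum_le_sum (fun p _ => h4 p)) ?_
  rw [← Finset.mul_sum]
  apply mul_le_mul_of_nonneg_left _ hD
  have h5 := ncard_sum' S
  have h6 := ncard_sigma' (Sum.inr ⁻¹' S : Set (Σ _ : PP W, NN x y))
  have h7 : (∑ p : PP W, (({v : NN x y | (⟨p, v⟩ : Σ _ : PP W, NN x y) ∈ (Sum.inr ⁻¹' S :
        Set (Σ _ : PP W, NN x y))} : Set (NN x y)).ncard : ℕ)) ≤ S.ncard := by
    rw [h5, h6]
    exact Nat.le_add_left _ _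
  exact_mod_cast h7

/-- The nucleation density is a lower bound. -/
theorem nu_le_rho [Finite W] {H : SimpleGraph W} (hH : ∃ a b, H.Adj a b) : nu H ≤ rho H :=
  le_rho hH (fun _ _ _ _ _ h1 h2 => nu_le_Dval h1 h2)

/-- The upper bound in terms of the nucleation density. -/
theorem rho_le_nu [Finite W] {H : SimpleGraph W} {w : W} {k : ℕ} (hk : deg H w = k + 1) :
    rho H ≤ max (nu H) k := by
  classical
  have hpos : 0 < (H.neighborSet w).ncard := by
    unfold deg at hk
    omega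
  obtain ⟨c₀, hc₀⟩ := (Set.ncard_pos (Set.toFinite _)).1 hpos
  have hw : H.Adj w c₀ := hc₀
  have hH : ∃ a b, H.Adj a b := ⟨w, c₀, hw⟩
  apply le_of_forall_pos_le_add
  intro ε hε
  have hne : {r | ∃ (U : Type) (_ : Finite U) (B : SimpleGraph U) (κ : W ↪ U),
      (∀ a b, a ≠ b → Act H B (κ a) (κ b)) ∧ r = maxDens B}.Nonempty :=
    ⟨_, W, inferInstance, ⊤, Function.Embedding.refl W, fun a b hab => act_of_adj hab, rfl⟩
  obtain ⟨r, ⟨U, hU, B, κ, hκ, rfl⟩, hr⟩ :=
    exists_lt_of_csInf_lt hne (lt_add_of_pos_right (nu H) hε)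
  have h1 : maxDens B ≤ max (nu H) k + ε := by
    have := le_max_left (nu H) (k : ℝ)
    linarith
  exact rho_le_of_nucleus (B := B) (fun S => le_trans (inside_le B S)
    (mul_le_mul_of_nonneg_right h1 (Nat.cast_nonneg _))) κ hκ hw hk (by
      have := le_max_right (nu H) (k : ℝ)
      linarith)

end Pool.Agent.HA60
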