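import Pool.Agent.HA60.N2

set_option autoImplicit false

/-!
Criteria for `ρ(H) ≤ max (q(H), d - 1)` from clones of vertices of degree at most `d`.
-/

namespace Pool.Agent.HA60

open SimpleGraph

variable {W U V : Type}

/-- The closure is transitive. -/
theorem act_trans [Finite W] {H : SimpleGraph W} {G' : SimpleGraph U} {G : SimpleGraph V}
    (κ : U ↪ V) (h : ∀ a b, G'.Adj a b → Act H G (κ a) (κ b)) {x y : U} (hxy : Act H G' x y) :
    Act H G (κ x) (κ y) := by
  obtain ⟨t, ht⟩ := hxy
  induction t generalizing x y with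
  | zero => exact h x y ht
  | succ t ih =>
    rcases ht with ht | ⟨f, a, b, hab, rfl, rfl, hf⟩
    · exact ih ht
    · exact act_complete (f.trans κ) hab (fun c d hcd hne => ih (hf c d hcd hne))

theorem maxDens_mono [Finite W] [Finite U] {G : SimpleGraph W} {B : SimpleGraph U} (f : W ↪ U)
    (h : ∀ c d, G.Adj c d → B.Adj (f c) (f d)) : maxDens G ≤ maxDens B := by
  apply Real.sSup_le _ (maxDens_nonneg B)
  rintro r ⟨F, hne, rfl⟩
  have h1 : (0 : ℝ) < F.verts.ncard := by exact_mod_cast (Set.ncard_pos (Set.toFinite _)).2 hne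
  rw [div_le_iff₀ h1]
  have h2 := inside_le B (f '' F.verts)
  rw [Set.ncard_image_of_injective _ f.injective] at h2
  refine le_trans ?_ h2
  have h3 : (Sym2.map f '' F.edgeSet) ⊆ {e | e ∈ B.edgeSet ∧ ∀ v ∈ e, v ∈ f '' F.verts} := by
    rintro _ ⟨e, he, rfl⟩
    induction e using Sym2.ind with
    | _ u v =>
      have hadj : F.Adj u v := he
      rw [Sym2.map_mk]
      refine ⟨h u v (F.adj_sub hadj), ?_⟩
      intro w hw
      rw [Sym2.mem_iff] at hw
      rcases hw with rfl | rfl
      · exact ⟨u, F.edge_vert hadj, rfl⟩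
      · exact ⟨v, F.edge_vert hadj.symm, rfl⟩
  have h4 := Set.ncard_le_ncard h3 (Set.toFinite _)
  rw [Set.ncard_image_of_injective _ (Sym2.map.injective f.injective)] at h4
  exact_mod_cast h4

/-- The number `q(H)` is a lower bound for the nucleation density. -/
theorem q_le_nu [Finite W] {H : SimpleGraph W} (hH : ∃ a b, H.Adj a b) : q H ≤ nu H := by
  apply le_csInf
  · exact ⟨_, W, inferInstance, ⊤, Function.Embedding.refl W, fun a b hab => act_of_adj hab, rfl⟩
  · rintro r ⟨U, hU, B, κ, hκ, rfl⟩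
    by_cases hall : ∀ a b, a ≠ b → B.Adj (κ a) (κ b)
    · obtain ⟨a, b, hab⟩ := hH
      refine le_trans (q_le hab) (maxDens_mono κ ?_)
      intro c d hcd
      exact hall c d hcd.ne
    · push Not at hall
      obtain ⟨a, b, hab, hnot⟩ := hall
      obtain ⟨f, c, d, hcd, _, hf⟩ := exists_first (hκ a b hab) hnot
      refine le_trans (q_le hcd) (maxDens_mono f ?_)
      intro p r hpr
      rw [deleteEdges_adj] at hpr
      exact hf p r hpr.1 hpr.2

/-- The criterion with clones: all vertices of `X` have degree at most `d`, and the closure of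
the graph with clones of the vertices of `X` contains a complete graph on `v(H)` vertices. -/
theorem rho_le_of_cloned [Finite W] {H : SimpleGraph W} {X : Set W} {d : ℕ} (hd : 1 ≤ d)
    (hdeg : ∀ x ∈ X, deg H x ≤ d) {w c₀ : W} (hw : H.Adj w c₀) (hwd : deg H w ≤ d)
    (κ : W ↪ W ⊕ (W × (Bool × W)))
    (hκ : ∀ a b, a ≠ b → Act H (cloned H X) (κ a) (κ b)) : rho H ≤ max (q H) ((d : ℝ) - 1) := by
  classical
  obtain ⟨a, b, hab, hq⟩ := q_mem ⟨w, c₀, hw⟩
  apply le_of_forall_pos_le_add
  intro ε hε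
  obtain ⟨k, rfl⟩ : ∃ k, d = k + 1 := ⟨d - 1, by omega⟩
  let b₀ : W → W := fun x => if h' : ∃ c, H.Adj x c then Classical.choose h' else x
  have hb₀ : ∀ x c, H.Adj x c → H.Adj x (b₀ x) := by
    intro x c hxc
    have h' : ∃ c, H.Adj x c := ⟨c, hxc⟩
    have h2 : b₀ x = Classical.choose h' := dif_pos h'
    rw [h2]
    exact Classical.choose_spec h'
  have hX : ∀ x ∈ X, ({c | H.Adj x c ∧ c ≠ b₀ x} : Set W).ncard ≤ k := by
    intro x hx
    by_cases hn : ∃ c, H.Adj x c
    · obtain ⟨c, hc⟩ := hn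
      have h3 : ({c | H.Adj x c ∧ c ≠ b₀ x} : Set W) = H.neighborSet x \ {b₀ x} := by
        ext c
        simp
      have h4 := Set.ncard_sdiff_singleton_add_one (s := H.neighborSet x) (a := b₀ x)
        (hb₀ x c hc) (Set.toFinite _)
      have h5 := hdeg x hx
      unfold deg at h5
      rw [h3]
      omega
    · have h3 : ({c | H.Adj x c ∧ c ≠ b₀ x} : Set W) = ∅ := by
        ext c
        simp only [Set.mem_setOf_eq, Set.mem_empty_iff_false, iff_false]
        rintro ⟨h4, _⟩
        exact hn ⟨c, h4⟩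
      rw [h3, Set.ncard_empty]
      exact Nat.zero_le _
  have hM1 : maxDens (H.deleteEdges {s(a, b)}) ≤ max (q H) (((k + 1 : ℕ) : ℝ) - 1) + ε := by
    rw [← hq]
    have := le_max_left (q H) (((k + 1 : ℕ) : ℝ) - 1)
    linarith
  have hM2 : (k : ℝ) ≤ max (q H) (((k + 1 : ℕ) : ℝ) - 1) := by
    refine le_trans ?_ (le_max_right _ _)
    push_cast
    linarith
  have hcount := baseG_count (H := H) (a := a) (b := b) (X := X) (b₀ := b₀) hM1
    (k := k) (by linarith) hX
  have hnuc : ∀ p r : W, p ≠ r → Act H (baseG H a b X b₀) (κ p) (κ r) := by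
    intro p r hpr
    have h := act_trans (H := H) (G' := cloned H X) (G := baseG H a b X b₀)
      (Function.Embedding.refl _) (by
        intro s t hst
        change Act H (baseG H a b X b₀) s t
        rcases s with c | xi <;> rcases t with c' | xj
        · exact baseG_f0 hab hst
        · exact act_symm (baseG_f1 hab hb₀ hst.1 xj.2 hst.2)
        · exact baseG_f1 hab hb₀ hst.1 xi.2 hst.2
        · exact baseG_f2 hab hb₀ hst.1 hst.2.1 hst.2.2 xi.2 xj.2) (hκ p r hpr)
    exact h
  have hpos : 0 < (H.neighborSet w).ncard := (Set.ncard_pos (Set.toFinite _)).2 ⟨c₀, hw⟩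
  obtain ⟨j, hj⟩ : ∃ j, deg H w = j + 1 := ⟨deg H w - 1, by
    have : 0 < deg H w := hpos
    omega⟩
  have hjk : (j : ℝ) ≤ k := by
    have : j ≤ k := by omega
    exact_mod_cast this
  exact rho_le_of_nucleus (B := baseG H a b X b₀) hcount κ hnuc hw hj (by linarith)

/-- The criterion with a homomorphism: `φ` maps all edges of `H` except `u v` to edges of `H`,
`φ(u) = φ(v) ∈ X`, and every vertex outside `X` is the image of at most one vertex. -/
theorem rho_le_of_hom [Finite W] {H : SimpleGraph W} {X : Set W} {d : ℕ} (hd : 1 ≤ d)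
    (hdeg : ∀ x ∈ X, deg H x ≤ d) {u v : W} (huv : H.Adj u v) (φ : W → W)
    (hφ : ∀ a b, H.Adj a b → s(a, b) ≠ s(u, v) → H.Adj (φ a) (φ b)) (hφuv : φ u = φ v)
    (hφX : φ u ∈ X) (hinjφ : ∀ a b, φ a ∉ X → φ a = φ b → a = b)
    (hne : ∃ c, H.Adj (φ u) c) : rho H ≤ max (q H) ((d : ℝ) - 1) := by
  classical
  obtain ⟨c₀, hc₀⟩ := hne
  set x₀ : W := φ u with hx₀
  apply rho_le_of_cloned (X := X) hd hdeg hc₀ (hdeg _ hφX)
    ⟨fun t => Sum.inr (x₀, (false, t)), fun t t' h => by simpa using h⟩
  intro a b hab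
  change Act H (cloned H X) (Sum.inr (x₀, (false, a))) (Sum.inr (x₀, (false, b)))
  let F : W → W ⊕ (W × (Bool × W)) := fun t => if t = u then Sum.inr (x₀, (false, a)) else
    if t = v then Sum.inr (x₀, (false, b)) else
    if φ t ∈ X then Sum.inr (φ t, (true, t)) else Sum.inl (φ t)
  have Fu : F u = Sum.inr (x₀, (false, a)) := if_pos rfl
  have Fv : F v = Sum.inr (x₀, (false, b)) := by
    change (if v = u then _ else if v = v then _ else _) = _
    rw [if_neg huv.ne', if_pos rfl]
  have FX : ∀ t, t ≠ u → t ≠ v → φ t ∈ X → F t = Sum.inr (φ t, (true, t)) := by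
    intro t h1 h2 h3
    change (if t = u then _ else if t = v then _ else if φ t ∈ X then _ else _) = _
    rw [if_neg h1, if_neg h2, if_pos h3]
  have FY : ∀ t, t ≠ u → t ≠ v → φ t ∉ X → F t = Sum.inl (φ t) := by
    intro t h1 h2 h3
    change (if t = u then _ else if t = v then _ else if φ t ∈ X then _ else _) = _
    rw [if_neg h1, if_neg h2, if_neg h3]
  have hcase : ∀ t : W, t = u ∨ t = v ∨ (t ≠ u ∧ t ≠ v ∧ φ t ∈ X) ∨
      (t ≠ u ∧ t ≠ v ∧ φ t ∉ X) := by
    intro t
    by_cases h1 : t = u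
    · exact Or.inl h1
    · by_cases h2 : t = v
      · exact Or.inr (Or.inl h2)
      · by_cases h3 : φ t ∈ X
        · exact Or.inr (Or.inr (Or.inl ⟨h1, h2, h3⟩))
        · exact Or.inr (Or.inr (Or.inr ⟨h1, h2, h3⟩))
  have hinj : Function.Injective F := by
    intro t t' htt
    rcases hcase t with rfl | rfl | ⟨c1, c2, c3⟩ | ⟨c1, c2, c3⟩ <;>
      rcases hcase t' with rfl | rfl | ⟨d1, d2, d3⟩ | ⟨d1, d2, d3⟩
    · rfl
    · rw [Fu, Fv] at htt
      exact absurd (by simpa using htt) hab
    · rw [Fu, FX t' d1 d2 d3] at htt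
      exact absurd htt (by simp)
    · rw [Fu, FY t' d1 d2 d3] at htt
      exact absurd htt (by simp)
    · rw [Fu, Fv] at htt
      exact absurd (by simpa using htt.symm) hab
    · rfl
    · rw [Fv, FX t' d1 d2 d3] at htt
      exact absurd htt (by simp)
    · rw [Fv, FY t' d1 d2 d3] at htt
      exact absurd htt (by simp)
    · rw [Fu, FX t c1 c2 c3] at htt
      exact absurd htt (by simp)
    · rw [Fv, FX t c1 c2 c3] at htt
      exact absurd htt (by simp)
    · rw [FX t c1 c2 c3, FX t' d1 d2 d3] at htt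
      have h := Sum.inr.inj htt
      exact congrArg (fun p : W × (Bool × W) => p.2.2) h
    · rw [FX t c1 c2 c3, FY t' d1 d2 d3] at htt
      exact absurd htt (by simp)
    · rw [Fu, FY t c1 c2 c3] at htt
      exact absurd htt (by simp)
    · rw [Fv, FY t c1 c2 c3] at htt
      exact absurd htt (by simp)
    · rw [FY t c1 c2 c3, FX t' d1 d2 d3] at htt
      exact absurd htt (by simp)
    · rw [FY t c1 c2 c3, FY t' d1 d2 d3] at htt
      exact hinjφ t t' c3 (Sum.inl.inj htt)
  have hfib : ∀ t, (F t = Sum.inl (φ t)) ∨ (φ t ∈ X ∧ ∃ i, F t = Sum.inr (φ t, i)) := by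
    intro t
    rcases hcase t with rfl | rfl | ⟨c1, c2, c3⟩ | ⟨c1, c2, c3⟩
    · exact Or.inr ⟨hφX, _, Fu⟩
    · refine Or.inr ⟨by rw [← hφuv]; exact hφX, (false, b), ?_⟩
      rw [Fv, ← hφuv]
    · exact Or.inr ⟨c3, _, FX t c1 c2 c3⟩
    · exact Or.inl (FY t c1 c2 c3)
  have hact := act_complete (G := cloned H X) ⟨F, hinj⟩ huv (by
    intro c d hcd hne
    apply act_of_adj
    change (cloned H X).Adj (F c) (F d)
    have h := hφ c d hcd hne
    rcases hfib c with h1 | ⟨h1, i, h2⟩ <;> rcases hfib d with h3 | ⟨h3, j, h4⟩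
    · rw [h1, h3]; exact h
    · rw [h1, h4]; exact ⟨h3, h.symm⟩
    · rw [h2, h3]; exact ⟨h1, h⟩
    · rw [h2, h4]; exact ⟨h1, h3, h⟩)
  change Act H (cloned H X) (F u) (F v) at hact
  rw [Fu, Fv] at hact
  exact hact

/-- An edge `x u` with `N[u] ⊆ N[x]` and `deg x ≤ d`. -/
theorem rho_le_of_dominated [Finite W] {H : SimpleGraph W} {d : ℕ} {x u : W} (hxu : H.Adj x u)
    (hdx : deg H x ≤ d) (hN : ∀ t, H.Adj u t → t = x ∨ H.Adj x t) :
    rho H ≤ max (q H) ((d : ℝ) - 1) := by
  classical
  have hd : 1 ≤ d := by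
    have h : 0 < (H.neighborSet x).ncard := (Set.ncard_pos (Set.toFinite _)).2 ⟨u, hxu⟩
    exact le_trans h hdx
  let φ : W → W := fun t => if t = u then x else t
  have φu : φ u = x := if_pos rfl
  have φo : ∀ t, t ≠ u → φ t = t := fun t h => if_neg h
  have φx : φ x = x := φo x hxu.ne
  apply rho_le_of_hom (X := {x}) hd (by rintro z rfl; exact hdx) (u := u) (v := x) hxu.symm φ
  · intro a b hab hne
    by_cases h1 : a = u
    · rw [h1] at hab hne ⊢
      have h2 : b ≠ x := by
        rintro rfl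
        exact hne rfl
      rw [φu, φo b hab.ne']
      rcases hN b hab with h3 | h3
      · exact absurd h3 h2
      · exact h3
    · by_cases h2 : b = u
      · rw [h2] at hab hne ⊢
        have h3 : a ≠ x := by
          rintro rfl
          exact hne Sym2.eq_swap
        rw [φu, φo a h1]
        rcases hN a hab.symm with h4 | h4
        · exact absurd h4 h3
        · exact h4.symm
      · rw [φo a h1, φo b h2]
        exact hab
  · rw [φu, φx]
  · rw [φu]; rfl
  · intro a b ha hab
    have h1 : a ≠ u := by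
      rintro rfl
      exact ha (by rw [φu]; rfl)
    rw [φo a h1] at ha hab
    have h2 : b ≠ u := by
      rintro rfl
      rw [φu] at hab
      exact ha hab
    rw [φo b h2] at hab
    exact hab
  · rw [φu]
    exact ⟨u, hxu⟩

/-- A graph which has an `r`-colouring after deleting one edge, and an `r`-clique of vertices of
degree at most `d`. -/
theorem rho_le_of_clique [Finite W] {H : SimpleGraph W} {d r : ℕ} (hd : 2 ≤ d) (hr : 2 ≤ r)
    {u v : W} (huv : H.Adj u v) (C : (H.deleteEdges {s(u, v)}).Coloring (Fin r))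
    (κ : Fin r → W) (hκ : ∀ i j, i ≠ j → H.Adj (κ i) (κ j)) (hdeg : ∀ i, deg H (κ i) ≤ d) :
    rho H ≤ max (q H) ((d : ℝ) - 1) := by
  classical
  have h01 : (⟨0, by omega⟩ : Fin r) ≠ ⟨1, by omega⟩ := by
    intro h
    exact absurd (congrArg Fin.val h) (by simp)
  by_cases hC : C u = C v
  · apply rho_le_of_hom (X := Set.range κ) (by omega) (by rintro z ⟨i, rfl⟩; exact hdeg i) huv
      (fun t => κ (C t))
    · intro a b hab hne
      apply hκ
      intro h
      have hadj : (H.deleteEdges {s(u, v)}).Adj a b := by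
        rw [deleteEdges_adj]
        exact ⟨hab, hne⟩
      exact C.valid hadj h
    · change κ (C u) = κ (C v)
      rw [hC]
    · exact ⟨_, rfl⟩
    · intro a b ha _
      exact absurd ⟨_, rfl⟩ ha
    · change ∃ c, H.Adj (κ (C u)) c
      by_cases h : C u = ⟨0, by omega⟩
      · exact ⟨κ ⟨1, by omega⟩, hκ _ _ (by rw [h]; exact h01)⟩
      · exact ⟨κ ⟨0, by omega⟩, hκ _ _ h⟩
  · have hval : ∀ {a b : W}, H.Adj a b → C a ≠ C b := by
      intro a b hab
      by_cases hne : s(a, b) = s(u, v)
      · rw [Sym2.eq_iff] at hne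
        rcases hne with ⟨rfl, rfl⟩ | ⟨rfl, rfl⟩
        · exact hC
        · exact fun h => hC h.symm
      · have hadj : (H.deleteEdges {s(u, v)}).Adj a b := by
          rw [deleteEdges_adj]
          exact ⟨hab, hne⟩
        exact C.valid hadj
    have hinj : Function.Injective (fun i => C (κ i)) := by
      intro i j hij
      by_contra hne
      exact hval (hκ i j hne) hij
    have hbij : Function.Bijective (fun i => C (κ i)) := Finite.injective_iff_bijective.1 hinj
    obtain ⟨g, hg1, hg2⟩ := Function.bijective_iff_has_inverse.1 hbij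
    have hR : Retr H (Set.range κ) ∅ (fun v => κ (g (C v))) :=
      { hom := by
          intro a b hab
          apply hκ
          intro h
          apply hval hab
          have h1 := hg2 (C a)
          have h2 := hg2 (C b)
          change C (κ (g (C a))) = C a at h1
          change C (κ (g (C b))) = C b at h2
          rw [← h1, ← h2, h]
        fX := by
          rintro v ⟨i, rfl⟩
          have h1 := hg1 i
          change g (C (κ i)) = i at h1
          change κ (g (C (κ i))) = κ i
          rw [h1]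
        fY := fun v hv => absurd hv (Set.notMem_empty v)
        toX := fun v _ => ⟨_, rfl⟩
        disj := fun v _ => Set.notMem_empty v }
    exact rho_le_of_retr hR hd (by rintro x ⟨i, rfl⟩; exact hdeg i)
      (x₁ := κ ⟨0, by omega⟩) (x₂ := κ ⟨1, by omega⟩) ⟨_, rfl⟩ ⟨_, rfl⟩
      (hκ _ _ h01) (fun y hy => absurd hy (Set.notMem_empty y))
      (fun y hy => absurd hy (Set.notMem_empty y))

end Pool.Agent.HA60
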