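import Pool.Agent.HA60.N3

set_option autoImplicit false

/-!
Graphs with an independent set whose complement contains exactly one edge.
-/

namespace Pool.Agent.HA60

open SimpleGraph

variable {W : Type}

/-- Let `S` be a vertex cover of `H` which contains exactly one edge `p q`; let `t₀ ∉ S` have
degree at most `d`, let the neighbourhood of `t₀` percolate to `S` under the rule that a set which
contains all but one of the neighbours of some `t ∉ S` gets the last one, and let there be a set
`C` with `|C| ≤ |S|` which covers all edges of `H` but one. Then `ρ(H) ≤ max (q(H), d - 1)`. -/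
theorem rho_le_of_cover [Finite W] {H : SimpleGraph W} {d : ℕ} {S C : Set W} {p q₁ t₀ c₀ u v : W}
    (hS : ∀ a b, H.Adj a b → a ∈ S ∨ b ∈ S) (hp : p ∈ S) (hq₁ : q₁ ∈ S) (hpq : H.Adj p q₁)
    (honly : ∀ a b, a ∈ S → b ∈ S → H.Adj a b → s(a, b) = s(p, q₁))
    (htc : H.Adj t₀ c₀) (hd : deg H t₀ ≤ d)
    (hperc : ∀ A : Set W, (∀ s, H.Adj t₀ s → s ∈ A) →
      (∀ t s, t ∉ S → H.Adj t s → (∀ s', H.Adj t s' → s' ≠ s → s' ∈ A) → s ∈ A) → S ⊆ A)
    (hC : C.ncard ≤ S.ncard) (hu : u ∉ C) (hv : v ∉ C) (huv : H.Adj u v)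
    (hcov : ∀ a b, H.Adj a b → a ∉ C → b ∉ C → s(a, b) = s(u, v)) :
    rho H ≤ max (q H) ((d : ℝ) - 1) := by
  classical
  have hd1 : 1 ≤ d := by
    have h : 0 < (H.neighborSet t₀).ncard := (Set.ncard_pos (Set.toFinite _)).2 ⟨c₀, htc⟩
    exact le_trans h hd
  set G := cloned H {t₀} with hG
  -- Step 1: all clones are joined to all of `S`
  have step1 : ∀ (i : Bool × W) (s : W), s ∈ S → Act H G (Sum.inr (t₀, i)) (Sum.inl s) := by
    intro i
    apply hperc {s | Act H G (Sum.inr (t₀, i)) (Sum.inl s)}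
    · intro s hs
      exact act_of_adj (show G.Adj (Sum.inr (t₀, i)) (Sum.inl s) from ⟨rfl, hs⟩)
    · intro t s _ hts hall
      let F : W → W ⊕ (W × (Bool × W)) := fun a => if a = t then Sum.inr (t₀, i) else Sum.inl a
      have Ft : F t = Sum.inr (t₀, i) := if_pos rfl
      have Fo : ∀ a, a ≠ t → F a = Sum.inl a := fun a h => if_neg h
      have hinj : Function.Injective F := by
        intro a b hab
        by_cases h1 : a = t <;> by_cases h2 : b = t
        · rw [h1, h2]
        · rw [h1, Ft, Fo b h2] at hab; exact absurd hab (by simp)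
        · rw [h2, Ft, Fo a h1] at hab; exact absurd hab (by simp)
        · rw [Fo a h1, Fo b h2] at hab; exact Sum.inl.inj hab
      have hact := act_complete (G := G) ⟨F, hinj⟩ hts (by
        intro a b hab hne
        change Act H G (F a) (F b)
        by_cases h1 : a = t
        · rw [h1] at hab hne ⊢
          have h2 : b ≠ s := by
            rintro rfl
            exact hne rfl
          rw [Ft, Fo b hab.ne']
          exact hall b hab h2
        · by_cases h2 : b = t
          · rw [h2] at hab hne ⊢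
            have h3 : a ≠ s := by
              rintro rfl
              exact hne Sym2.eq_swap
            rw [Ft, Fo a h1]
            exact act_symm (hall a hab.symm h3)
          · rw [Fo a h1, Fo b h2]
            exact act_of_adj (show G.Adj (Sum.inl a) (Sum.inl b) from hab))
      change Act H G (F t) (F s) at hact
      rw [Ft, Fo s hts.ne'] at hact
      exact hact
  -- Step 2: `S` becomes complete
  have step2 : ∀ s s', s ∈ S → s' ∈ S → s ≠ s' → Act H G (Sum.inl s) (Sum.inl s') := by
    intro s s' hs hs' hss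
    set τ := Equiv.swap p s with hτ
    have hτS : ∀ a ∈ S, τ a ∈ S := by
      intro a ha
      by_cases h1 : a = p
      · rw [h1, hτ, Equiv.swap_apply_left]; exact hs
      · by_cases h2 : a = s
        · rw [h2, hτ, Equiv.swap_apply_right]; exact hp
        · rw [hτ, Equiv.swap_apply_of_ne_of_ne h1 h2]; exact ha
    set q' := τ q₁ with hq'
    have hq'S : q' ∈ S := hτS q₁ hq₁
    have hτp : τ p = s := by rw [hτ, Equiv.swap_apply_left]
    have hsq' : s ≠ q' := by
      intro h
      rw [← hτp, hq'] at h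
      exact hpq.ne (τ.injective h)
    set σ := τ.trans (Equiv.swap q' s') with hσ
    have hσp : σ p = s := by
      rw [hσ, Equiv.trans_apply, hτp, Equiv.swap_apply_of_ne_of_ne hsq' hss]
    have hσq : σ q₁ = s' := by
      rw [hσ, Equiv.trans_apply, ← hq', Equiv.swap_apply_left]
    have hσS : ∀ a ∈ S, σ a ∈ S := by
      intro a ha
      have h0 := hτS a ha
      rw [hσ, Equiv.trans_apply]
      by_cases h1 : τ a = q'
      · rw [h1, Equiv.swap_apply_left]; exact hs'
      · by_cases h2 : τ a = s'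
        · rw [h2, Equiv.swap_apply_right]; exact hq'S
        · rw [Equiv.swap_apply_of_ne_of_ne h1 h2]; exact h0
    let F : W → W ⊕ (W × (Bool × W)) := fun a => if a ∈ S then Sum.inl (σ a) else
      Sum.inr (t₀, (true, a))
    have FS : ∀ a, a ∈ S → F a = Sum.inl (σ a) := fun a h => if_pos h
    have Fo : ∀ a, a ∉ S → F a = Sum.inr (t₀, (true, a)) := fun a h => if_neg h
    have hinj : Function.Injective F := by
      intro a b hab
      by_cases h1 : a ∈ S <;> by_cases h2 : b ∈ S
      · rw [FS a h1, FS b h2] at hab; exact σ.injective (Sum.inl.inj hab)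
      · rw [FS a h1, Fo b h2] at hab; exact absurd hab (by simp)
      · rw [Fo a h1, FS b h2] at hab; exact absurd hab (by simp)
      · rw [Fo a h1, Fo b h2] at hab
        have h := Sum.inr.inj hab
        exact congrArg (fun p : W × (Bool × W) => p.2.2) h
    have hact := act_complete (G := G) ⟨F, hinj⟩ hpq (by
      intro a b hab hne
      change Act H G (F a) (F b)
      by_cases h1 : a ∈ S <;> by_cases h2 : b ∈ S
      · exact absurd (honly a b h1 h2 hab) hne
      · rw [FS a h1, Fo b h2]
        exact act_symm (step1 _ _ (hσS a h1))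
      · rw [Fo a h1, FS b h2]
        exact step1 _ _ (hσS b h2)
      · rcases hS a b hab with h | h
        · exact absurd h h1
        · exact absurd h h2)
    change Act H G (F p) (F q₁) at hact
    rw [FS p hp, FS q₁ hq₁, hσp, hσq] at hact
    exact hact
  -- Step 3: the clones become complete
  obtain ⟨ι⟩ : Nonempty (C ↪ S) := by
    have h1 : Fintype C := Fintype.ofFinite _
    have h2 : Fintype S := Fintype.ofFinite _
    apply Function.Embedding.nonempty_of_card_le
    rw [← Nat.card_eq_fintype_card, ← Nat.card_eq_fintype_card, Nat.card_coe_set_eq,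
      Nat.card_coe_set_eq]
    exact hC
  apply rho_le_of_cloned (X := {t₀}) hd1 (by rintro x rfl; exact hd) htc hd
    ⟨fun t => Sum.inr (t₀, (false, t)), fun t t' h => by simpa using h⟩
  intro a b hab
  change Act H G (Sum.inr (t₀, (false, a))) (Sum.inr (t₀, (false, b)))
  let F : W → W ⊕ (W × (Bool × W)) := fun t => if t = u then Sum.inr (t₀, (false, a)) else
    if t = v then Sum.inr (t₀, (false, b)) else
    if h : t ∈ C then Sum.inl (ι ⟨t, h⟩ : W) else Sum.inr (t₀, (true, t))
  have Fu : F u = Sum.inr (t₀, (false, a)) := if_pos rfl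
  have Fv : F v = Sum.inr (t₀, (false, b)) := by
    change (if v = u then _ else if v = v then _ else _) = _
    rw [if_neg huv.ne', if_pos rfl]
  have FC : ∀ t, (h : t ∈ C) → F t = Sum.inl (ι ⟨t, h⟩ : W) := by
    intro t h
    change (if t = u then _ else if t = v then _ else if h : t ∈ C then _ else _) = _
    have h1 : t ≠ u := fun h' => hu (h' ▸ h)
    have h2 : t ≠ v := fun h' => hv (h' ▸ h)
    rw [if_neg h1, if_neg h2, dif_pos h]
  have Fo : ∀ t, t ≠ u → t ≠ v → t ∉ C → F t = Sum.inr (t₀, (true, t)) := by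
    intro t h1 h2 h3
    change (if t = u then _ else if t = v then _ else if h : t ∈ C then _ else _) = _
    rw [if_neg h1, if_neg h2, dif_neg h3]
  have hcase : ∀ t : W, t = u ∨ t = v ∨ t ∈ C ∨ (t ≠ u ∧ t ≠ v ∧ t ∉ C) := by
    intro t
    by_cases h1 : t = u
    · exact Or.inl h1
    · by_cases h2 : t = v
      · exact Or.inr (Or.inl h2)
      · by_cases h3 : t ∈ C
        · exact Or.inr (Or.inr (Or.inl h3))
        · exact Or.inr (Or.inr (Or.inr ⟨h1, h2, h3⟩))
  have hinj : Function.Injective F := by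
    intro t t' htt
    rcases hcase t with rfl | rfl | c1 | ⟨c1, c2, c3⟩ <;>
      rcases hcase t' with rfl | rfl | d1 | ⟨d1, d2, d3⟩
    · rfl
    · rw [Fu, Fv] at htt
      exact absurd (by simpa using htt) hab
    · rw [Fu, FC t' d1] at htt
      exact absurd htt (by simp)
    · rw [Fu, Fo t' d1 d2 d3] at htt
      exact absurd htt (by simp)
    · rw [Fu, Fv] at htt
      exact absurd (by simpa using htt.symm) hab
    · rfl
    · rw [Fv, FC t' d1] at htt
      exact absurd htt (by simp)
    · rw [Fv, Fo t' d1 d2 d3] at htt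
      exact absurd htt (by simp)
    · rw [Fu, FC t c1] at htt
      exact absurd htt (by simp)
    · rw [Fv, FC t c1] at htt
      exact absurd htt (by simp)
    · rw [FC t c1, FC t' d1] at htt
      have h1 := ι.injective (Subtype.ext (Sum.inl.inj htt))
      exact congrArg Subtype.val h1
    · rw [FC t c1, Fo t' d1 d2 d3] at htt
      exact absurd htt (by simp)
    · rw [Fu, Fo t c1 c2 c3] at htt
      exact absurd htt (by simp)
    · rw [Fv, Fo t c1 c2 c3] at htt
      exact absurd htt (by simp)
    · rw [Fo t c1 c2 c3, FC t' d1] at htt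
      exact absurd htt (by simp)
    · rw [Fo t c1 c2 c3, Fo t' d1 d2 d3] at htt
      have h := Sum.inr.inj htt
      exact congrArg (fun p : W × (Bool × W) => p.2.2) h
  have hcl : ∀ t, t ∉ C → ∃ i, F t = Sum.inr (t₀, i) := by
    intro t ht
    rcases hcase t with rfl | rfl | c1 | ⟨c1, c2, c3⟩
    · exact ⟨_, Fu⟩
    · exact ⟨_, Fv⟩
    · exact absurd c1 ht
    · exact ⟨_, Fo t c1 c2 c3⟩
  have hact := act_complete (G := G) ⟨F, hinj⟩ huv (by
    intro c e hce hne
    change Act H G (F c) (F e)
    by_cases h1 : c ∈ C <;> by_cases h2 : e ∈ C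
    · rw [FC c h1, FC e h2]
      apply step2 _ _ (ι ⟨c, h1⟩).2 (ι ⟨e, h2⟩).2
      intro h
      have h3 := ι.injective (Subtype.ext h)
      exact hce.ne (congrArg Subtype.val h3)
    · obtain ⟨i, hi⟩ := hcl e h2
      rw [FC c h1, hi]
      exact act_symm (step1 i _ (ι ⟨c, h1⟩).2)
    · obtain ⟨i, hi⟩ := hcl c h1
      rw [FC e h2, hi]
      exact step1 i _ (ι ⟨e, h2⟩).2
    · exact absurd (hcov c e hce h1 h2) hne)
  change Act H G (F u) (F v) at hact
  rw [Fu, Fv] at hact
  exact hact

/-- The case in which an end `p` of the only edge `p q₁` inside `S` has degree three. -/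
theorem rho_le_of_cubic_end [Finite W] {H : SimpleGraph W} {d : ℕ} {S : Set W} {p q₁ t₀ c₀ : W}
    (hS : ∀ a b, H.Adj a b → a ∈ S ∨ b ∈ S) (hp : p ∈ S) (hq₁ : q₁ ∈ S) (hpq : H.Adj p q₁)
    (honly : ∀ a b, a ∈ S → b ∈ S → H.Adj a b → s(a, b) = s(p, q₁))
    (htc : H.Adj t₀ c₀) (hd : deg H t₀ ≤ d)
    (hperc : ∀ A : Set W, (∀ s, H.Adj t₀ s → s ∈ A) →
      (∀ t s, t ∉ S → H.Adj t s → (∀ s', H.Adj t s' → s' ≠ s → s' ∈ A) → s ∈ A) → S ⊆ A)
    (hp3 : deg H p = 3) : rho H ≤ max (q H) ((d : ℝ) - 1) := by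
  classical
  have h1 : (H.neighborSet p \ {q₁}).ncard = 2 := by
    have h2 := Set.ncard_sdiff_singleton_add_one (s := H.neighborSet p) (a := q₁) hpq
      (Set.toFinite _)
    unfold deg at hp3
    omega
  obtain ⟨t₁, t₂, ht, hN⟩ := Set.ncard_eq_two.1 h1
  have ht₁ : t₁ ∈ H.neighborSet p \ {q₁} := by rw [hN]; simp
  have ht₂ : t₂ ∈ H.neighborSet p \ {q₁} := by rw [hN]; simp
  have hpt₁ : H.Adj p t₁ := ht₁.1
  have hpt₂ : H.Adj p t₂ := ht₂.1
  have hnS : ∀ t, H.Adj p t → t ≠ q₁ → t ∉ S := by
    intro t h2 h3 h4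
    have h5 := honly p t hp h4 h2
    rw [Sym2.eq_iff] at h5
    rcases h5 with ⟨_, h6⟩ | ⟨h6, h7⟩
    · exact h3 h6
    · exact hpq.ne h6
  have ht₁S : t₁ ∉ S := hnS t₁ hpt₁ ht₁.2
  have ht₂S : t₂ ∉ S := hnS t₂ hpt₂ ht₂.2
  have hcard : (insert t₁ (S \ {p})).ncard ≤ S.ncard := by
    have h2 := Set.ncard_sdiff_singleton_add_one (s := S) (a := p) hp (Set.toFinite _)
    have h3 : t₁ ∉ S \ {p} := fun h => ht₁S h.1
    rw [Set.ncard_insert_of_notMem h3 (Set.toFinite _)]
    omega
  apply rho_le_of_cover (C := insert t₁ (S \ {p})) (u := p) (v := t₂) hS hp hq₁ hpq honly htc hd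
    hperc hcard
  · rintro (h | h)
    · exact hpt₁.ne h
    · exact h.2 rfl
  · rintro (h | h)
    · exact ht h.symm
    · exact ht₂S h.1
  · exact hpt₂
  · have key : ∀ a b, H.Adj a b → a ∉ insert t₁ (S \ {p}) → b ∉ insert t₁ (S \ {p}) → a ∈ S →
        s(a, b) = s(p, t₂) := by
      intro a b hab ha hb haS
      have hap : a = p := by
        by_contra h
        exact ha (Or.inr ⟨haS, h⟩)
      rw [hap] at hab ⊢
      have hbq : b ≠ q₁ := by
        rintro rfl
        exact hb (Or.inr ⟨hq₁, hpq.ne'⟩)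
      have hbt : b ∈ H.neighborSet p \ {q₁} := ⟨hab, hbq⟩
      rw [hN] at hbt
      rcases hbt with h | h
      · exact absurd (Or.inl h) hb
      · rw [h]
    intro a b hab ha hb
    rcases hS a b hab with h | h
    · exact key a b hab ha hb h
    · rw [Sym2.eq_swap]
      exact key b a hab.symm hb ha h

end Pool.Agent.HA60
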