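import Pool.Agent.HA60.N4

set_option autoImplicit false

/-!
The upper bound with a nucleus and clones.
-/

namespace Pool.Agent.HA60

open SimpleGraph

variable {W U V : Type}

/-- The nucleation density relative to `X`: the infimum of the maximum densities `m(B)` of the
finite graphs `B` such that the closure of the disjoint union of `B` and the graph `H_X` obtained
from `H` by adding `2 v(H)` clones of each vertex of `X` contains a complete graph on `v(H)`
vertices. -/
noncomputable def nuRel {W : Type} (H : SimpleGraph W) (X : Set W) : ℝ :=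
  sInf {r | ∃ (U : Type) (_ : Finite U) (B : SimpleGraph U)
    (κ : W ↪ (W ⊕ (W × (Bool × W))) ⊕ U),
    (∀ a b, a ≠ b → Act H (cloned H X ⊕g B) (κ a) (κ b)) ∧ r = maxDens B}

/-- Edge counts in a disjoint union. -/
theorem sum_count [Finite U] [Finite V] {A : SimpleGraph U} {B : SimpleGraph V} {M : ℝ}
    (hA : ∀ S : Set U, ((({e | e ∈ A.edgeSet ∧ ∀ v ∈ e, v ∈ S} : Set (Sym2 U)).ncard : ℕ) : ℝ) ≤
      M * S.ncard)
    (hB : ∀ S : Set V, ((({e | e ∈ B.edgeSet ∧ ∀ v ∈ e, v ∈ S} : Set (Sym2 V)).ncard : ℕ) : ℝ) ≤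
      M * S.ncard) (S : Set (U ⊕ V)) :
    ((({e | e ∈ (A ⊕g B).edgeSet ∧ ∀ v ∈ e, v ∈ S} : Set (Sym2 (U ⊕ V))).ncard : ℕ) : ℝ) ≤
      M * S.ncard := by
  classical
  set S1 : Set U := Sum.inl ⁻¹' S with hS1
  set S2 : Set V := Sum.inr ⁻¹' S with hS2
  have h1 : ({e | e ∈ (A ⊕g B).edgeSet ∧ ∀ v ∈ e, v ∈ S} : Set (Sym2 (U ⊕ V))) ⊆
      Sym2.map Sum.inl '' {e | e ∈ A.edgeSet ∧ ∀ v ∈ e, v ∈ S1} ∪
      Sym2.map Sum.inr '' {e | e ∈ B.edgeSet ∧ ∀ v ∈ e, v ∈ S2} := by
    rintro e ⟨he, hv⟩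
    induction e using Sym2.ind with
    | _ s t =>
      rw [mem_edgeSet] at he
      rcases s with s | s <;> rcases t with t | t
      · left
        refine ⟨s(s, t), ⟨by simpa using he, ?_⟩, by simp⟩
        intro v hv'
        rw [Sym2.mem_iff] at hv'
        rcases hv' with rfl | rfl
        · exact hv _ (by simp)
        · exact hv _ (by simp)
      · simp at he
      · simp at he
      · right
        refine ⟨s(s, t), ⟨by simpa using he, ?_⟩, by simp⟩
        intro v hv'
        rw [Sym2.mem_iff] at hv'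
        rcases hv' with rfl | rfl
        · exact hv _ (by simp)
        · exact hv _ (by simp)
  have h2 := (Set.ncard_le_ncard h1 (Set.toFinite _)).trans (Set.ncard_union_le _ _)
  rw [Set.ncard_image_of_injective _ (Sym2.map.injective Sum.inl_injective),
    Set.ncard_image_of_injective _ (Sym2.map.injective Sum.inr_injective)] at h2
  have h3 : S.ncard = S1.ncard + S2.ncard := by
    have h4 : S = Sum.inl '' S1 ∪ Sum.inr '' S2 := by
      ext v
      rcases v with v | v
      · simp [hS1]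
      · simp [hS2]
    have h5 : Disjoint (Sum.inl '' S1 : Set (U ⊕ V)) (Sum.inr '' S2) := by
      rw [Set.disjoint_left]
      rintro v ⟨a, _, rfl⟩ ⟨b, _, hb⟩
      simp at hb
    conv_lhs => rw [h4]
    rw [Set.ncard_union_eq h5 (Set.toFinite _) (Set.toFinite _),
      Set.ncard_image_of_injective _ Sum.inl_injective,
      Set.ncard_image_of_injective _ Sum.inr_injective]
  have h4 : ((({e | e ∈ (A ⊕g B).edgeSet ∧ ∀ v ∈ e, v ∈ S} : Set (Sym2 (U ⊕ V))).ncard : ℕ) : ℝ)
      ≤ (({e | e ∈ A.edgeSet ∧ ∀ v ∈ e, v ∈ S1} : Set (Sym2 U)).ncard : ℝ) +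
        (({e | e ∈ B.edgeSet ∧ ∀ v ∈ e, v ∈ S2} : Set (Sym2 V)).ncard : ℝ) := by
    exact_mod_cast h2
  have h5 := hA S1
  have h6 := hB S2
  rw [h3]
  push_cast
  linarith

/-- The upper bound with a nucleus and clones. -/
theorem rho_le_of_rel [Finite W] [Finite U] {H : SimpleGraph W} {X : Set W} {d : ℕ} (hd : 1 ≤ d)
    (hdeg : ∀ x ∈ X, deg H x ≤ d) {w c₀ : W} (hw : H.Adj w c₀) (hwd : deg H w ≤ d)
    (B : SimpleGraph U) (κ : W ↪ (W ⊕ (W × (Bool × W))) ⊕ U)
    (hκ : ∀ a b, a ≠ b → Act H (cloned H X ⊕g B) (κ a) (κ b)) :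
    rho H ≤ max (max (q H) (maxDens B)) ((d : ℝ) - 1) := by
  classical
  obtain ⟨a, b, hab, hq⟩ := q_mem ⟨w, c₀, hw⟩
  apply le_of_forall_pos_le_add
  intro ε hε
  obtain ⟨k, rfl⟩ : ∃ k, d = k + 1 := ⟨d - 1, by omega⟩
  let b₀ : W → W := fun x => if h' : ∃ c, H.Adj x c then Classical.choose h' else x
  have hb₀ : ∀ x c, H.Adj x c → H.Adj x (b₀ x) := by
    intro x c hxc
    have h' : ∃ c, H.Adj x c := ⟨c, hxc⟩
    have h2 : b₀ x = Classical.choose h' := dif_pos h'
    rw [h2]
    exact Classical.choose_spec h'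
  have hX : ∀ x ∈ X, ({c | H.Adj x c ∧ c ≠ b₀ x} : Set W).ncard ≤ k := by
    intro x hx
    by_cases hn : ∃ c, H.Adj x c
    · obtain ⟨c, hc⟩ := hn
      have h3 : ({c | H.Adj x c ∧ c ≠ b₀ x} : Set W) = H.neighborSet x \ {b₀ x} := by
        ext c
        simp
      have h4 := Set.ncard_sdiff_singleton_add_one (s := H.neighborSet x) (a := b₀ x)
        (hb₀ x c hc) (Set.toFinite _)
      have h5 := hdeg x hx
      unfold deg at h5
      rw [h3]
      omega
    · have h3 : ({c | H.Adj x c ∧ c ≠ b₀ x} : Set W) = ∅ := by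
        ext c
        simp only [Set.mem_setOf_eq, Set.mem_empty_iff_false, iff_false]
        rintro ⟨h4, _⟩
        exact hn ⟨c, h4⟩
      rw [h3, Set.ncard_empty]
      exact Nat.zero_le _
  have hm1 := le_max_left (max (q H) (maxDens B)) (((k + 1 : ℕ) : ℝ) - 1)
  have hm2 := le_max_left (q H) (maxDens B)
  have hm3 := le_max_right (q H) (maxDens B)
  have hM1 : maxDens (H.deleteEdges {s(a, b)}) ≤
      max (max (q H) (maxDens B)) (((k + 1 : ℕ) : ℝ) - 1) + ε := by
    rw [← hq]
    linarith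
  have hM2 : (k : ℝ) ≤ max (max (q H) (maxDens B)) (((k + 1 : ℕ) : ℝ) - 1) := by
    refine le_trans ?_ (le_max_right _ _)
    push_cast
    linarith
  have hcount := baseG_count (H := H) (a := a) (b := b) (X := X) (b₀ := b₀) hM1
    (k := k) (by linarith) hX
  have hcountB : ∀ S : Set U,
      ((({e | e ∈ B.edgeSet ∧ ∀ v ∈ e, v ∈ S} : Set (Sym2 U)).ncard : ℕ) : ℝ) ≤
      (max (max (q H) (maxDens B)) (((k + 1 : ℕ) : ℝ) - 1) + ε) * S.ncard :=
    fun S => le_trans (inside_le B S)
      (mul_le_mul_of_nonneg_right (by linarith) (Nat.cast_nonneg _))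
  have hlift : ∀ s t, Act H (baseG H a b X b₀) s t →
      Act H (baseG H a b X b₀ ⊕g B) (Sum.inl s) (Sum.inl t) := by
    intro s t hst
    exact act_trans (H := H) (G' := baseG H a b X b₀) (G := baseG H a b X b₀ ⊕g B)
      ⟨Sum.inl, Sum.inl_injective⟩ (fun p r hpr => act_of_adj (by simpa using hpr)) hst
  have hnuc : ∀ p r : W, p ≠ r → Act H (baseG H a b X b₀ ⊕g B) (κ p) (κ r) := by
    intro p r hpr
    have h := act_trans (H := H) (G' := cloned H X ⊕g B) (G := baseG H a b X b₀ ⊕g B)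
      (Function.Embedding.refl _) (by
        intro s t hst
        change Act H (baseG H a b X b₀ ⊕g B) s t
        rcases s with s | s <;> rcases t with t | t
        · have hst' : (cloned H X).Adj s t := by simpa using hst
          apply hlift
          rcases s with c | xi <;> rcases t with c' | xj
          · exact baseG_f0 hab hst'
          · exact act_symm (baseG_f1 hab hb₀ hst'.1 xj.2 hst'.2)
          · exact baseG_f1 hab hb₀ hst'.1 xi.2 hst'.2
          · exact baseG_f2 hab hb₀ hst'.1 hst'.2.1 hst'.2.2 xi.2 xj.2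
        · simp at hst
        · simp at hst
        · exact act_of_adj (by simpa using hst)) (hκ p r hpr)
    exact h
  have hpos : 0 < (H.neighborSet w).ncard := (Set.ncard_pos (Set.toFinite _)).2 ⟨c₀, hw⟩
  obtain ⟨j, hj⟩ : ∃ j, deg H w = j + 1 := ⟨deg H w - 1, by
    have : 0 < deg H w := hpos
    omega⟩
  have hjk : (j : ℝ) ≤ k := by
    have : j ≤ k := by omega
    exact_mod_cast this
  exact rho_le_of_nucleus (B := baseG H a b X b₀ ⊕g B) (sum_count hcount hcountB) κ hnuc hw hj
    (by linarith)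

/-- The upper bound in terms of the relative nucleation density. -/
theorem rho_le_nuRel [Finite W] {H : SimpleGraph W} {X : Set W} {d : ℕ}
    (hdeg : ∀ x ∈ X, deg H x ≤ d) {w c₀ : W} (hw : H.Adj w c₀) (hwd : deg H w ≤ d) :
    rho H ≤ max (max (q H) (nuRel H X)) ((d : ℝ) - 1) := by
  have hd : 1 ≤ d := by
    have : 0 < (H.neighborSet w).ncard := (Set.ncard_pos (Set.toFinite _)).2 ⟨c₀, hw⟩
    unfold deg at hwd
    omega
  apply le_of_forall_pos_le_add
  intro ε hε
  have hne : {r | ∃ (U : Type) (_ : Finite U) (B : SimpleGraph U)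
      (κ : W ↪ (W ⊕ (W × (Bool × W))) ⊕ U),
      (∀ a b, a ≠ b → Act H (cloned H X ⊕g B) (κ a) (κ b)) ∧ r = maxDens B}.Nonempty := by
    refine ⟨_, W, inferInstance, ⊤, ⟨Sum.inr, Sum.inr_injective⟩, fun a b hab => ?_, rfl⟩
    exact act_of_adj (by simpa using hab)
  obtain ⟨r, ⟨U, hU, B, κ, hκ, rfl⟩, hr⟩ :=
    exists_lt_of_csInf_lt hne (lt_add_of_pos_right (nuRel H X) hε)
  refine le_trans (rho_le_of_rel hd hdeg hw hwd B κ hκ) ?_
  have h1 := le_max_left (max (q H) (nuRel H X)) ((d : ℝ) - 1)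
  have h2 := le_max_right (max (q H) (nuRel H X)) ((d : ℝ) - 1)
  have h3 := le_max_left (q H) (nuRel H X)
  have h4 := le_max_right (q H) (nuRel H X)
  refine max_le (max_le ?_ ?_) ?_
  · linarith
  · linarith
  · linarith

/-- The relative nucleation density is at most the nucleation density. -/
theorem nuRel_le_nu [Finite W] (H : SimpleGraph W) (X : Set W) : nuRel H X ≤ nu H := by
  apply le_csInf
  · exact ⟨_, W, inferInstance, ⊤, Function.Embedding.refl W, fun a b hab => act_of_adj hab, rfl⟩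
  · rintro r ⟨U, hU, B, κ, hκ, rfl⟩
    apply csInf_le
    · refine ⟨0, ?_⟩
      rintro r ⟨U', _, B', _, _, rfl⟩
      exact maxDens_nonneg B'
    · refine ⟨U, hU, B, κ.trans ⟨Sum.inr, Sum.inr_injective⟩, ?_, rfl⟩
      intro a b hab
      exact act_trans (H := H) (G' := B) (G := cloned H X ⊕g B) ⟨Sum.inr, Sum.inr_injective⟩
        (fun p r hpr => act_of_adj (by simpa using hpr)) (hκ a b hab)

/-- If the closure of `H_X` contains a complete graph on `v(H)` vertices, then the relative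
nucleation density is `0`. -/
theorem nuRel_eq_zero [Finite W] {H : SimpleGraph W} {X : Set W}
    (κ : W ↪ W ⊕ (W × (Bool × W)))
    (hκ : ∀ a b, a ≠ b → Act H (cloned H X) (κ a) (κ b)) : nuRel H X = 0 := by
  apply le_antisymm
  · apply csInf_le
    · refine ⟨0, ?_⟩
      rintro r ⟨U', _, B', _, _, rfl⟩
      exact maxDens_nonneg B'
    · refine ⟨PEmpty, inferInstance, ⊥, κ.trans ⟨Sum.inl, Sum.inl_injective⟩, ?_, ?_⟩
      · intro a b hab
        exact act_trans (H := H) (G' := cloned H X) (G := cloned H X ⊕g (⊥ : SimpleGraph PEmpty))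
          ⟨Sum.inl, Sum.inl_injective⟩
          (fun p r hpr => act_of_adj (by simpa using hpr)) (hκ a b hab)
      · symm
        apply le_antisymm _ (maxDens_nonneg _)
        apply Real.sSup_le _ le_rfl
        rintro r ⟨F, ⟨v, _⟩, _⟩
        exact v.elim
  · apply le_csInf
    · exact ⟨_, W, inferInstance, ⊤, ⟨Sum.inr, Sum.inr_injective⟩, fun a b hab =>
        act_of_adj (by simpa using hab), rfl⟩
    · rintro r ⟨U', _, B', _, _, rfl⟩
      exact maxDens_nonneg B'

end Pool.Agent.HA60
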