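import Pool.Agent.HA60.R5

set_option autoImplicit false

/-!
General upper bound from gadgets, and gadgets which are paths.
-/

namespace Pool.Agent.HA60

open SimpleGraph

variable {W U : Type}

/-- The upper bound from two free gadgets. -/
theorem rho_le_of_gadgets [Finite W] [Finite U] {H : SimpleGraph W} {B : SimpleGraph U}
    {M θ : ℝ} (hM : 0 ≤ M) (hθM : θ ≤ M)
    (hbase : ∀ S : Set U, ((({e | e ∈ B.edgeSet ∧ ∀ v ∈ e, v ∈ S} : Set (Sym2 U)).ncard : ℕ) : ℝ)
      ≤ M * S.ncard) {T₁ T₂ : Set U} (g₁ : Nonempty (Gad H B T₁ θ 0))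
    (g₂ : Nonempty (Gad H B T₂ θ 0))
    (hfin : ∀ (V : Type) (G : SimpleGraph V) (κ : U ↪ V) (x y : V),
      (∀ a b, Act H B a b → Act H G (κ a) (κ b)) → x ∉ Set.range κ → y ∉ Set.range κ → x ≠ y →
      (∀ t ∈ T₁, Act H G x (κ t)) → (∀ t ∈ T₂, Act H G y (κ t)) → Act H G x y) :
    rho H ≤ M := by
  classical
  let TT : Bool → Set U := fun p => if p then T₂ else T₁
  let cc : Bool → ℝ := fun _ => 0
  have hcl : ∀ p, Nonempty (Gad H B (TT p) θ (cc p)) := by
    intro p
    cases p
    · exact g₁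
    · exact g₂
  let g : ∀ p, Gad H B (TT p) θ (cc p) := fun p => Classical.choice (hcl p)
  let pt : Bool → Bool := fun p => p
  let K : SimpleGraph (Bool ⊕ U) := plainG Bool B
  have hK : ∀ p r, K.Adj (Sum.inr p) (Sum.inr r) ↔ B.Adj p r := fun p r => Iff.rfl
  have hfinT : Finite (Tot2 g Bool) := glue2_finite g
  let x : Tot2 g Bool := Sum.inl (Sum.inl false)
  let y : Tot2 g Bool := Sum.inl (Sum.inl true)
  have hxr : x ∉ Set.range (bt (V0 := Bool) g) := by
    rintro ⟨t, ht⟩
    exact absurd ht (by simp [bt, x])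
  have hyr : y ∉ Set.range (bt (V0 := Bool) g) := by
    rintro ⟨t, ht⟩
    exact absurd ht (by simp [bt, y])
  have hxy : x ≠ y := by simp [x, y]
  have hact : Act H (glue2 pt g K) x y := by
    apply hfin _ (glue2 pt g K) (bt g) x y (fun a b h => glue2_base_act pt g K hK h) hxr hyr hxy
    · intro t ht
      exact glue2_root pt g K false ht
    · intro t ht
      exact glue2_root pt g K true ht
  have hroot : ∀ (p : Bool) (v : (g p).Q) (w : Bool),
      psi2 pt g p v = Sum.inl (Sum.inl w) → v = (g p).r ∧ p = w := by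
    intro p v w hvw
    rcases psi2F_cases g p v with h3 | ⟨c, h3⟩ | ⟨h3, h4, _⟩
    · refine ⟨h3, ?_⟩
      rw [h3, psi2_r] at hvw
      exact Sum.inl.inj (Sum.inl.inj hvw)
    · rw [h3, psi2_β] at hvw
      exact absurd hvw (by simp)
    · rw [psi2_new pt g p v h3 h4] at hvw
      exact absurd hvw (by simp)
  have hnot : ¬ (glue2 pt g K).Adj x y := by
    rintro (⟨v, v', h, h3, h4⟩ | ⟨p, v, v', h, h3, h4⟩)
    · have h5 : v = Sum.inl false := Sum.inl.inj h3
      have h6 : v' = Sum.inl true := Sum.inl.inj h4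
      rw [h5, h6] at h
      exact h
    · have h5 := hroot p v false h3
      have h6 := hroot p v' true h4
      exact absurd (h5.2.symm.trans h6.2) (by simp)
  refine le_trans (rho_le hact hnot) ?_
  apply Dval_le hM
  intro F hF1 hF2
  have hxF : x ∈ F.verts := F.edge_vert hF1
  have hyF : y ∈ F.verts := F.edge_vert hF1.symm
  have hsub : F.edgeSet ⊆ ({s(x, y)} ∪ (Sym2.map (bt g) ''
      {e | e ∈ B.edgeSet ∧ ∀ v ∈ e, v ∈ (bt g ⁻¹' F.verts)})) ∪
      exS (glue2 pt g K) (bt g) F.verts := by
    intro e he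
    induction e using Sym2.ind with
    | _ z z' =>
      have hadj : F.Adj z z' := he
      have hz := F.edge_vert hadj
      have hz' := F.edge_vert hadj.symm
      rcases F.adj_sub hadj with h3 | h3
      · by_cases hcase : ∀ v ∈ s(z, z'), v ∈ Set.range (bt (V0 := Bool) g)
        · left; right
          obtain ⟨t, ht⟩ := hcase z (Sym2.mem_mk_left _ _)
          obtain ⟨t', ht'⟩ := hcase z' (Sym2.mem_mk_right _ _)
          refine ⟨s(t, t'), ⟨?_, ?_⟩, by rw [Sym2.map_mk, ht, ht']⟩
          · change B.Adj t t'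
            rw [← glue2_base_iff pt g K hK, ht, ht']
            exact h3
          · intro w hw
            rw [Sym2.mem_iff] at hw
            rcases hw with rfl | rfl
            · change bt g w ∈ F.verts
              rw [ht]; exact hz
            · change bt g w ∈ F.verts
              rw [ht']; exact hz'
        · right
          push Not at hcase
          refine ⟨h3, ?_, hcase⟩
          intro w hw
          rw [Sym2.mem_iff] at hw
          rcases hw with rfl | rfl
          · exact hz
          · exact hz'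
      · left; left
        rw [edge_adj] at h3
        rw [Set.mem_singleton_iff, Sym2.eq_iff]
        exact h3.1
  have hcard : F.edgeSet.ncard ≤ 1 +
      ({e | e ∈ B.edgeSet ∧ ∀ v ∈ e, v ∈ (bt g ⁻¹' F.verts)} :
        Set (Sym2 U)).ncard + (exS (glue2 pt g K) (bt g) F.verts).ncard := by
    refine le_trans (Set.ncard_le_ncard hsub (Set.toFinite _)) ?_
    refine le_trans (Set.ncard_union_le _ _) ?_
    apply Nat.add_le_add_right
    refine le_trans (Set.ncard_union_le _ _) ?_
    apply Nat.add_le_add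
    · rw [Set.ncard_singleton]
    · exact Set.ncard_image_le (Set.toFinite _)
  have hb := hbase (bt g ⁻¹' F.verts)
  have hedges := glue2_edges pt g K F.verts
  rw [plainG_ex, Set.ncard_empty, zero_add] at hedges
  have hsum := glue2_sum pt g F.verts
  have hzero : (∑ p, (if (Sum.inl (Sum.inl (pt p)) : Tot2 g Bool) ∈ F.verts then cc p else 0))
      = 0 := by
    apply Finset.sum_eq_zero
    intro p _
    simp [cc]
  rw [hzero, add_zero] at hsum
  have hverts := glue2_verts pt g F.verts
  have hcore : (Sum.inl ⁻¹' F.verts : Set (Bool ⊕ U)).ncard =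
      2 + (bt g ⁻¹' F.verts : Set U).ncard := by
    rw [ncard_sum']
    congr 1
    have h3 : (Sum.inl ⁻¹' (Sum.inl ⁻¹' F.verts : Set (Bool ⊕ U)) : Set Bool) = Set.univ := by
      ext v
      simp only [Set.mem_preimage, Set.mem_univ, iff_true]
      cases v
      · exact hxF
      · exact hyF
    rw [h3, Set.ncard_univ]
    simp
  rw [hcore] at hverts
  set nN : ℕ := ∑ p, (newS (g p).r (g p).β (psi2 pt g p ⁻¹' F.verts)).ncard with hnN
  set nB : ℕ := (bt g ⁻¹' F.verts : Set U).ncard with hnB
  have he1 : (F.edgeSet.ncard : ℝ) ≤ 1 +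
      ((({e | e ∈ B.edgeSet ∧ ∀ v ∈ e, v ∈ (bt g ⁻¹' F.verts)} :
        Set (Sym2 U)).ncard : ℕ) : ℝ) +
      ((exS (glue2 pt g K) (bt g) F.verts).ncard : ℝ) := by
    exact_mod_cast hcard
  have he2 : ((exS (glue2 pt g K) (bt g) F.verts).ncard : ℝ) ≤
      ((∑ p, (exS (g p).Γ (g p).β (psi2 pt g p ⁻¹' F.verts)).ncard : ℕ) : ℝ) := by
    exact_mod_cast hedges
  have hv : (F.verts.ncard : ℝ) = 2 + nB + nN := by exact_mod_cast hverts
  rw [hv]
  have h3 : θ * (nN : ℝ) ≤ M * (nN : ℝ) :=
    mul_le_mul_of_nonneg_right hθM (Nat.cast_nonneg _)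
  have h5 : M * (2 + (nB : ℝ) + nN - 2) = M * (nB : ℝ) + M * (nN : ℝ) := by
    ring
  rw [h5]
  linarith

/-- The gadget whose root is joined to the base vertices in `R`. -/
theorem gad_star [Finite U] {H : SimpleGraph W} {B : SimpleGraph U} (T R : Set U) (θ : ℝ)
    (hact : ∀ (V : Type) (G : SimpleGraph V) (κ : U ↪ V) (r : V),
      (∀ a b, Act H B a b → Act H G (κ a) (κ b)) → r ∉ Set.range κ →
      (∀ t ∈ R, Act H G r (κ t)) → ∀ t ∈ T, Act H G r (κ t)) :
    Nonempty (Gad H B T θ (R.ncard : ℝ)) := by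
  classical
  let TT : Empty → Set U := fun p => p.elim
  let cc : Empty → ℝ := fun p => p.elim
  let g : ∀ p, Gad H B (TT p) θ (cc p) := fun p => p.elim
  let pt : Empty → Unit := fun p => p.elim
  have hK : ∀ p r, (coreG B () R).Adj (Sum.inr p) (Sum.inr r) ↔ B.Adj p r :=
    fun p r => Iff.rfl
  apply gad_build pt g (coreG B () R) hK ()
  · apply hact _ (glue2 pt g (coreG B () R)) (bt g) _
      (fun a b h => glue2_base_act pt g (coreG B () R) hK h)
    · rintro ⟨t, ht⟩
      exact absurd ht (by simp [bt])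
    · intro t ht
      apply act_of_adj
      apply glue2_core
      exact ⟨rfl, ht⟩
  · intro S0
    have h1 := coreG_count B () R S0
    have h0 : ({v : Unit | (Sum.inl v : Unit ⊕ U) ∈ S0 ∧ v ≠ ()} : Set Unit) = ∅ := by
      ext v
      simp
    rw [h0] at h1 ⊢
    rw [Set.ncard_empty] at h1 ⊢
    by_cases hv : (Sum.inl () : Unit ⊕ U) ∈ S0
    · rw [if_pos hv] at h1 ⊢
      have h2 : ((exS (coreG B () R)
          (⟨Sum.inr, Sum.inr_injective⟩ : U ↪ Unit ⊕ U) S0).ncard : ℝ) ≤ (R.ncard : ℝ) := by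
        have : (exS (coreG B () R)
          (⟨Sum.inr, Sum.inr_injective⟩ : U ↪ Unit ⊕ U) S0).ncard ≤ R.ncard := by omega
        exact_mod_cast this
      simp only [Finset.univ_eq_empty, Finset.sum_empty, Nat.cast_zero, mul_zero]
      linarith
    · rw [if_neg hv] at h1 ⊢
      have h2 : (exS (coreG B () R)
          (⟨Sum.inr, Sum.inr_injective⟩ : U ↪ Unit ⊕ U) S0).ncard = 0 := by omega
      rw [h2]
      simp

/-- The gadget whose root is joined to the root of a gadget. -/
theorem gad_path [Finite U] {H : SimpleGraph W} {B : SimpleGraph U} (T T' : Set U) {θ c : ℝ}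
    (hc : c ≤ θ) (g₀ : Nonempty (Gad H B T' θ c))
    (hact : ∀ (V : Type) (G : SimpleGraph V) (κ : U ↪ V) (r z : V),
      (∀ a b, Act H B a b → Act H G (κ a) (κ b)) → r ∉ Set.range κ → z ∉ Set.range κ →
      Act H G r z → (∀ t ∈ T', Act H G z (κ t)) → ∀ t ∈ T, Act H G r (κ t)) :
    Nonempty (Gad H B T θ (max 0 (1 + c - θ))) := by
  classical
  let TT : Unit → Set U := fun _ => T'
  let cc : Unit → ℝ := fun _ => c
  let g : ∀ p, Gad H B (TT p) θ (cc p) := fun _ => Classical.choice g₀
  let pt : Unit → Option Unit := fun p => some p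
  have hK : ∀ p r, (coreG B (none : Option Unit) ∅).Adj (Sum.inr p) (Sum.inr r) ↔ B.Adj p r :=
    fun p r => Iff.rfl
  apply gad_build pt g (coreG B (none : Option Unit) ∅) hK none
  · apply hact _ (glue2 pt g (coreG B (none : Option Unit) ∅)) (bt g) _
      (Sum.inl (Sum.inl (some ())))
      (fun a b h => glue2_base_act pt g (coreG B (none : Option Unit) ∅) hK h)
    · rintro ⟨t, ht⟩
      exact absurd ht (by simp [bt])
    · rintro ⟨t, ht⟩
      exact absurd ht (by simp [bt])
    · apply act_of_adj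
      apply glue2_core
      exact Or.inl ⟨rfl, by simp⟩
    · intro t ht
      exact glue2_root pt g (coreG B (none : Option Unit) ∅) () ht
  · intro S0
    have h1 := coreG_count B (none : Option Unit) ∅ S0
    have hm : ({v : Option Unit | (Sum.inl v : Option Unit ⊕ U) ∈ S0 ∧ v ≠ none} :
        Set (Option Unit)).ncard =
        if (Sum.inl (some ()) : Option Unit ⊕ U) ∈ S0 then 1 else 0 := by
      by_cases hp : (Sum.inl (some ()) : Option Unit ⊕ U) ∈ S0
      · rw [if_pos hp, Set.ncard_eq_one]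
        refine ⟨some (), ?_⟩
        ext v
        rcases v with _ | v
        · simp
        · simpa using hp
      · rw [if_neg hp, Set.ncard_eq_zero]
        ext v
        rcases v with _ | v
        · simp
        · simpa using hp
    rw [hm] at h1 ⊢
    rw [Set.ncard_empty] at h1
    simp only [Finset.univ_unique, Finset.sum_singleton]
    have h2 : (Sum.inl (pt default) : Option Unit ⊕ U) = Sum.inl (some ()) := rfl
    rw [h2]
    have h3 : 1 + c - θ ≤ max 0 (1 + c - θ) := le_max_right _ _
    have h4 : 0 ≤ max 0 (1 + c - θ) := le_max_left _ _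
    by_cases hv : (Sum.inl none : Option Unit ⊕ U) ∈ S0 <;>
      by_cases hp : (Sum.inl (some ()) : Option Unit ⊕ U) ∈ S0
    · rw [if_pos hv, if_pos hp] at h1
      rw [if_pos hp, if_pos hp, if_pos hv]
      have h5 : ((exS (coreG B (none : Option Unit) ∅)
          (⟨Sum.inr, Sum.inr_injective⟩ : U ↪ Option Unit ⊕ U) S0).ncard : ℝ) ≤ 1 := by
        exact_mod_cast h1
      push_cast
      linarith
    · rw [if_pos hv, if_neg hp] at h1
      rw [if_neg hp, if_neg hp, if_pos hv]
      have h5 : ((exS (coreG B (none : Option Unit) ∅)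
          (⟨Sum.inr, Sum.inr_injective⟩ : U ↪ Option Unit ⊕ U) S0).ncard : ℝ) ≤ 0 := by
        exact_mod_cast h1
      push_cast
      linarith
    · rw [if_neg hv] at h1
      rw [if_pos hp, if_pos hp, if_neg hv]
      have h5 : ((exS (coreG B (none : Option Unit) ∅)
          (⟨Sum.inr, Sum.inr_injective⟩ : U ↪ Option Unit ⊕ U) S0).ncard : ℝ) ≤ 0 := by
        exact_mod_cast h1
      push_cast
      change _ + c ≤ _
      linarith
    · rw [if_neg hv] at h1
      rw [if_neg hp, if_neg hp, if_neg hv]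
      have h5 : ((exS (coreG B (none : Option Unit) ∅)
          (⟨Sum.inr, Sum.inr_injective⟩ : U ↪ Option Unit ⊕ U) S0).ncard : ℝ) ≤ 0 := by
        exact_mod_cast h1
      push_cast
      linarith

/-- Iterating the path step over a family of types: from gadgets of defect `1` of all types one
gets free gadgets of all types, if every type has a predecessor type. -/
theorem gad_iter [Finite U] {H : SimpleGraph W} {B : SimpleGraph U} {ι : Type} (T : ι → Set U)
    (pr : ι → ι) {ε : ℝ} (hε : 0 < ε)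
    (h0 : ∀ i, Nonempty (Gad H B (T i) (1 + ε) 1))
    (hact : ∀ (i : ι) (V : Type) (G : SimpleGraph V) (κ : U ↪ V) (r z : V),
      (∀ a b, Act H B a b → Act H G (κ a) (κ b)) → r ∉ Set.range κ → z ∉ Set.range κ →
      Act H G r z → (∀ t ∈ T (pr i), Act H G z (κ t)) → ∀ t ∈ T i, Act H G r (κ t)) :
    ∀ i, Nonempty (Gad H B (T i) (1 + ε) 0) := by
  have key : ∀ m : ℕ, ∃ τ : ℝ, 0 ≤ τ ∧ τ ≤ 1 ∧ τ ≤ max 0 (1 - m * ε) ∧
      ∀ i, Nonempty (Gad H B (T i) (1 + ε) τ) := by
    intro m
    induction m with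
    | zero => exact ⟨1, zero_le_one, le_refl _, by simp, h0⟩
    | succ m ih =>
      obtain ⟨τ, h1, h2, h3, h4⟩ := ih
      refine ⟨max 0 (1 + τ - (1 + ε)), le_max_left _ _, max_le zero_le_one (by linarith), ?_,
        fun i => gad_path (T i) (T (pr i)) (by linarith) (h4 (pr i)) (hact i)⟩
      apply max_le (le_max_left _ _)
      push_cast
      rcases le_total (1 - m * ε) 0 with h5 | h5
      · rw [max_eq_left h5] at h3
        have : 0 ≤ max 0 (1 - ((m : ℝ) + 1) * ε) := le_max_left _ _
        linarith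
      · rw [max_eq_right h5] at h3
        have : 1 - ((m : ℝ) + 1) * ε ≤ max 0 (1 - ((m : ℝ) + 1) * ε) := le_max_right _ _
        linarith
  obtain ⟨m, hm⟩ := exists_nat_gt (1 / ε)
  obtain ⟨τ, h1, _, h3, h4⟩ := key m
  have h5 : 1 < m * ε := by rwa [div_lt_iff₀ hε] at hm
  rw [max_eq_left (by linarith)] at h3
  have h6 : τ = 0 := le_antisymm h3 h1
  rw [h6] at h4
  exact h4

end Pool.Agent.HA60
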