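import Pool.Agent.HA60.P1

set_option autoImplicit false

/-!
Graphs with a triangle with degrees two and three, and graphs with a component `K_{2,3}`.
-/

namespace Pool.Agent.HA60

open SimpleGraph

variable {W : Type}

open Classical in
/-- The map which replaces `a` by `A` and `w` by `X`. -/
noncomputable def rep2 {V : Type} (κ : W → V) (a w : W) (A X : V) : W → V :=
  fun v => if v = a then A else if v = w then X else κ v

section Rep2

variable {V : Type} {κ : W ↪ V} {a w : W} {A X : V}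

theorem rep2_a : rep2 κ a w A X a = A := if_pos rfl

theorem rep2_w (h : w ≠ a) : rep2 κ a w A X w = X := by
  unfold rep2
  rw [if_neg h, if_pos rfl]

theorem rep2_o {v : W} (h1 : v ≠ a) (h2 : v ≠ w) : rep2 κ a w A X v = κ v := by
  unfold rep2
  rw [if_neg h1, if_neg h2]

/-- Completion of a copy of `H` in which `a` and `w` are replaced. -/
theorem rep2_act [Finite W] {H : SimpleGraph W} {G : SimpleGraph V}
    (hκ : ∀ c d, H.Adj c d → Act H G (κ c) (κ d)) (haw : w ≠ a) (hAX : A ≠ X)
    (hA : ∀ v, v ≠ a → v ≠ w → A ≠ κ v) (hX : ∀ v, v ≠ a → v ≠ w → X ≠ κ v)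
    {p r : W} (hpr : H.Adj p r)
    (h1 : ∀ d, H.Adj a d → d ≠ w → s(a, d) ≠ s(p, r) → Act H G A (κ d))
    (h2 : ∀ d, H.Adj w d → d ≠ a → s(w, d) ≠ s(p, r) → Act H G X (κ d))
    (h3 : H.Adj a w → s(a, w) ≠ s(p, r) → Act H G A X) :
    Act H G (rep2 κ a w A X p) (rep2 κ a w A X r) := by
  have hcase : ∀ v : W, v = a ∨ v = w ∨ (v ≠ a ∧ v ≠ w) := by
    intro v
    by_cases h : v = a
    · exact Or.inl h
    · by_cases h' : v = w
      · exact Or.inr (Or.inl h')
      · exact Or.inr (Or.inr ⟨h, h'⟩)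
  have hinj : Function.Injective (rep2 κ a w A X) := by
    intro v v' hvv
    rcases hcase v with rfl | rfl | ⟨c1, c2⟩ <;> rcases hcase v' with rfl | rfl | ⟨d1, d2⟩
    · rfl
    · rw [rep2_a, rep2_w haw] at hvv; exact absurd hvv hAX
    · rw [rep2_a, rep2_o d1 d2] at hvv; exact absurd hvv (hA v' d1 d2)
    · rw [rep2_a, rep2_w haw] at hvv; exact absurd hvv.symm hAX
    · rfl
    · rw [rep2_w haw, rep2_o d1 d2] at hvv; exact absurd hvv (hX v' d1 d2)
    · rw [rep2_a, rep2_o c1 c2] at hvv; exact absurd hvv.symm (hA v c1 c2)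
    · rw [rep2_w haw, rep2_o c1 c2] at hvv; exact absurd hvv.symm (hX v c1 c2)
    · rw [rep2_o c1 c2, rep2_o d1 d2] at hvv
      exact κ.injective hvv
  have hact := act_complete (G := G) ⟨rep2 κ a w A X, hinj⟩ hpr (by
    intro c d hcd hne
    change Act H G (rep2 κ a w A X c) (rep2 κ a w A X d)
    rcases hcase c with rfl | rfl | ⟨c1, c2⟩ <;> rcases hcase d with rfl | rfl | ⟨d1, d2⟩
    · exact absurd rfl hcd.ne
    · rw [rep2_a, rep2_w haw]
      exact h3 hcd hne
    · rw [rep2_a, rep2_o d1 d2]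
      exact h1 d hcd d2 hne
    · rw [rep2_a, rep2_w haw]
      exact act_symm (h3 hcd.symm (by rw [Sym2.eq_swap]; exact hne))
    · exact absurd rfl hcd.ne
    · rw [rep2_w haw, rep2_o d1 d2]
      exact h2 d hcd d1 hne
    · rw [rep2_a, rep2_o c1 c2]
      exact act_symm (h1 c hcd.symm c2 (by rw [Sym2.eq_swap]; exact hne))
    · rw [rep2_w haw, rep2_o c1 c2]
      exact act_symm (h2 c hcd.symm c1 (by rw [Sym2.eq_swap]; exact hne))
    · rw [rep2_o c1 c2, rep2_o d1 d2]
      exact hκ c d hcd)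
  exact hact

end Rep2

/-- The counting hypothesis for the base `H - ab`. -/
theorem base_count [Finite W] {H : SimpleGraph W} {a b : W} {M : ℝ}
    (hM : maxDens (H.deleteEdges {s(a, b)}) ≤ M) (S : Set W) :
    ((({e | e ∈ (H.deleteEdges {s(a, b)}).edgeSet ∧ ∀ v ∈ e, v ∈ S} : Set (Sym2 W)).ncard : ℕ) : ℝ)
      ≤ M * S.ncard :=
  le_trans (inside_le _ S) (mul_le_mul_of_nonneg_right hM (Nat.cast_nonneg _))

/-- A triangle `w a c` with `N(w) = {a, c}` and `N(a) = {w, c, a'}`. -/
theorem rho_le_of_triangle [Finite W] {H : SimpleGraph W} {w a c a' : W} (hwa : H.Adj w a)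
    (hwc : H.Adj w c) (hac : H.Adj a c) (haa : H.Adj a a') (hwa' : a' ≠ w)
    (hN : ∀ v, H.Adj w v → v = a ∨ v = c)
    (hNa : ∀ v, H.Adj a v → v = w ∨ v = c ∨ v = a') : rho H ≤ max (q H) 1 := by
  classical
  obtain ⟨a₀, b₀, hab, hq⟩ := q_mem ⟨w, a, hwa⟩
  apply le_of_forall_pos_le_add
  intro ε hε
  set B : SimpleGraph W := H.deleteEdges {s(a₀, b₀)} with hB
  have hBact : ∀ p r, H.Adj p r → Act H B p r := fun p r hpr => act_all hab hpr
  -- the diamond lemma
  have dia : ∀ (V : Type) (G : SimpleGraph V) (κ : W ↪ V),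
      (∀ p r, Act H B p r → Act H G (κ p) (κ r)) → ∀ A X : V, A ≠ X →
      (∀ v, v ≠ a → v ≠ w → A ≠ κ v) → (∀ v, v ≠ a → v ≠ w → X ≠ κ v) →
      (Act H G A (κ c) → Act H G A (κ a') → Act H G X (κ c) → Act H G A X) ∧
      (Act H G A X → Act H G A (κ c) → Act H G A (κ a') → Act H G X (κ c)) ∧
      (Act H G A X → Act H G A (κ c) → Act H G X (κ c) → Act H G A (κ a')) := by
    intro V G κ hκ A X hAX hA hX
    have hκ' : ∀ p r, H.Adj p r → Act H G (κ p) (κ r) := fun p r h => hκ p r (hBact p r h)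
    refine ⟨?_, ?_, ?_⟩
    · intro h1 h2 h3
      have := rep2_act (κ := κ) (a := a) (w := w) hκ' hwa.ne hAX hA hX hwa.symm
        (by
          intro d hd hdw _
          rcases hNa d hd with rfl | rfl | rfl
          · exact absurd rfl hdw
          · exact h1
          · exact h2)
        (by
          intro d hd hda _
          rcases hN d hd with rfl | rfl
          · exact absurd rfl hda
          · exact h3)
        (fun _ h => absurd rfl h)
      rwa [rep2_a, rep2_w hwa.ne] at this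
    · intro h1 h2 h3
      have := rep2_act (κ := κ) (a := a) (w := w) hκ' hwa.ne hAX hA hX hwc
        (by
          intro d hd hdw _
          rcases hNa d hd with rfl | rfl | rfl
          · exact absurd rfl hdw
          · exact h2
          · exact h3)
        (by
          intro d hd hda hne
          rcases hN d hd with rfl | rfl
          · exact absurd rfl hda
          · exact absurd rfl hne)
        (fun _ _ => h1)
      rwa [rep2_w hwa.ne, rep2_o hac.ne' hwc.ne'] at this
    · intro h1 h2 h3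
      have := rep2_act (κ := κ) (a := a) (w := w) hκ' hwa.ne hAX hA hX haa
        (by
          intro d hd hdw hne
          rcases hNa d hd with rfl | rfl | rfl
          · exact absurd rfl hdw
          · exact h2
          · exact absurd rfl hne)
        (by
          intro d hd hda _
          rcases hN d hd with rfl | rfl
          · exact absurd rfl hda
          · exact h3)
        (fun _ _ => h1)
      rwa [rep2_a, rep2_o haa.ne' hwa'] at this
  -- a new vertex joined to `a` is joined to `c` and to `a'`, and the same from `c`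
  have key : ∀ (V : Type) (G : SimpleGraph V) (κ : W ↪ V),
      (∀ p r, Act H B p r → Act H G (κ p) (κ r)) → ∀ z : V, z ∉ Set.range κ →
      (Act H G z (κ a) → Act H G z (κ c)) ∧ (Act H G z (κ c) → Act H G z (κ a)) ∧
      (Act H G z (κ a) → Act H G z (κ c) → Act H G z (κ a')) := by
    intro V G κ hκ z hz
    have hzr : ∀ v, z ≠ κ v := fun v h => hz ⟨v, h.symm⟩
    have hca : Act H G (κ a) (κ c) := hκ a c (hBact a c hac)
    have haa2 : Act H G (κ a) (κ a') := hκ a a' (hBact a a' haa)
    refine ⟨?_, ?_, ?_⟩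
    · intro h1
      exact (dia V G κ hκ (κ a) z (fun h => hzr a h.symm) (fun v h _ h2 => h (κ.injective h2).symm)
        (fun v _ _ => hzr v)).2.1 (act_symm h1) hca haa2
    · intro h1
      exact act_symm ((dia V G κ hκ (κ a) z (fun h => hzr a h.symm)
        (fun v h _ h2 => h (κ.injective h2).symm) (fun v _ _ => hzr v)).1 hca haa2 h1)
    · intro h1 h2
      exact (dia V G κ hκ z (κ a) (fun h => hzr a h) (fun v _ _ => hzr v)
        (fun v h _ h3 => h (κ.injective h3).symm)).2.2 h1 h2 hca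
  set T : Set W := {a, c, a'} with hT
  have hTa : ∀ (V : Type) (G : SimpleGraph V) (κ : W ↪ V) (z : V),
      Act H G z (κ a) → Act H G z (κ c) → Act H G z (κ a') → ∀ t ∈ T, Act H G z (κ t) := by
    intro V G κ z h1 h2 h3 t ht
    rcases ht with rfl | rfl | rfl
    · exact h1
    · exact h2
    · exact h3
  have h0 : Nonempty (Gad H B T (1 + ε) 1) := by
    have h := gad_star (H := H) (B := B) T {a} (1 + ε) (by
      intro V G κ r hκ hr hR
      have h1 : Act H G r (κ a) := hR a rfl
      have h2 := (key V G κ hκ r hr).1 h1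
      exact hTa V G κ r h1 h2 ((key V G κ hκ r hr).2.2 h1 h2))
    rw [Set.ncard_singleton, Nat.cast_one] at h
    exact h
  have hgad : ∀ _ : Unit, Nonempty (Gad H B T (1 + ε) 0) :=
    gad_iter (fun _ : Unit => T) id hε (fun _ => h0) (by
      intro _ V G κ r z hκ hr hz hrz hzT
      have hrr : ∀ v, r ≠ κ v := fun v h => hr ⟨v, h.symm⟩
      have hzr : ∀ v, z ≠ κ v := fun v h => hz ⟨v, h.symm⟩
      have h1 : Act H G z (κ c) := hzT c (by simp [hT])
      have h2 : Act H G z (κ a') := hzT a' (by simp [hT])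
      have h3 : Act H G r (κ c) := (dia V G κ hκ z r (act_ne hrz).symm (fun v _ _ => hzr v)
        (fun v _ _ => hrr v)).2.1 (act_symm hrz) h1 h2
      have h4 := (key V G κ hκ r hr).2.1 h3
      exact hTa V G κ r h4 h3 ((key V G κ hκ r hr).2.2 h4 h3))
  have hM : 0 ≤ max (q H) 1 + ε := by
    have := le_max_right (q H) 1
    linarith
  apply rho_le_of_gadgets (B := B) (θ := 1 + ε) hM (by
      have := le_max_right (q H) 1
      linarith) (by
      intro S
      apply base_count
      rw [← hq]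
      have := le_max_left (q H) 1
      linarith) (hgad ()) (hgad ())
  intro V G κ x y hκ hx hy hxy hxT hyT
  have hxr : ∀ v, x ≠ κ v := fun v h => hx ⟨v, h.symm⟩
  have hyr : ∀ v, y ≠ κ v := fun v h => hy ⟨v, h.symm⟩
  exact (dia V G κ hκ x y hxy (fun v _ _ => hxr v) (fun v _ _ => hyr v)).1
    (hxT c (by simp [hT])) (hxT a' (by simp [hT])) (hyT c (by simp [hT]))

/-! ### A component `K_{2,3}` -/

open Classical in
/-- The map which replaces five vertices. -/
noncomputable def rep5 {V : Type} (κ : W → V) (a b w₁ w₂ w₃ : W) (A B X₁ X₂ X₃ : V) : W → V :=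
  fun v => if v = a then A else if v = b then B else if v = w₁ then X₁ else
    if v = w₂ then X₂ else if v = w₃ then X₃ else κ v

/-- Five vertices which span a component `K_{2,3}`. -/
structure K23 (H : SimpleGraph W) (a b w₁ w₂ w₃ : W) : Prop where
  a1 : H.Adj a w₁
  a2 : H.Adj a w₂
  a3 : H.Adj a w₃
  b1 : H.Adj b w₁
  b2 : H.Adj b w₂
  b3 : H.Adj b w₃
  ab : a ≠ b
  w12 : w₁ ≠ w₂
  w13 : w₁ ≠ w₃
  w23 : w₂ ≠ w₃
  na : ∀ v, H.Adj a v → v = w₁ ∨ v = w₂ ∨ v = w₃
  nb : ∀ v, H.Adj b v → v = w₁ ∨ v = w₂ ∨ v = w₃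
  n1 : ∀ v, H.Adj w₁ v → v = a ∨ v = b
  n2 : ∀ v, H.Adj w₂ v → v = a ∨ v = b
  n3 : ∀ v, H.Adj w₃ v → v = a ∨ v = b

section Rep5

variable {V : Type} {κ : W ↪ V} {H : SimpleGraph W} {a b w₁ w₂ w₃ : W} {A B X₁ X₂ X₃ : V}

/-- Completion of a `K_{2,3}` next to the rest of `H`. -/
theorem k23_act [Finite W] {G : SimpleGraph V} (hK : K23 H a b w₁ w₂ w₃)
    (hκ : ∀ c d, H.Adj c d → Act H G (κ c) (κ d))
    (hAB : A ≠ B) (hX12 : X₁ ≠ X₂) (hX13 : X₁ ≠ X₃) (hX23 : X₂ ≠ X₃)
    (hBX3 : B ≠ X₃)
    (hA : ∀ v, v ≠ a → v ≠ b → v ≠ w₁ → v ≠ w₂ → v ≠ w₃ → A ≠ κ v)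
    (hB : ∀ v, v ≠ a → v ≠ b → v ≠ w₁ → v ≠ w₂ → v ≠ w₃ → B ≠ κ v)
    (h1 : ∀ v, v ≠ a → v ≠ b → v ≠ w₁ → v ≠ w₂ → v ≠ w₃ → X₁ ≠ κ v)
    (h2 : ∀ v, v ≠ a → v ≠ b → v ≠ w₁ → v ≠ w₂ → v ≠ w₃ → X₂ ≠ κ v)
    (h3 : ∀ v, v ≠ a → v ≠ b → v ≠ w₁ → v ≠ w₂ → v ≠ w₃ → X₃ ≠ κ v)
    (hA1 : Act H G A X₁) (hA2 : Act H G A X₂) (hA3 : Act H G A X₃)
    (hB1 : Act H G B X₁) (hB2 : Act H G B X₂) : Act H G B X₃ := by
  classical
  have nba : b ≠ a := hK.ab.symm
  have n1a : w₁ ≠ a := hK.a1.ne'
  have n2a : w₂ ≠ a := hK.a2.ne'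
  have n3a : w₃ ≠ a := hK.a3.ne'
  have n1b : w₁ ≠ b := hK.b1.ne'
  have n2b : w₂ ≠ b := hK.b2.ne'
  have n3b : w₃ ≠ b := hK.b3.ne'
  set F : W → V := rep5 κ a b w₁ w₂ w₃ A B X₁ X₂ X₃ with hF
  have Fa : F a = A := if_pos rfl
  have Fb : F b = B := by
    simp only [hF, rep5]
    rw [if_neg nba]
    simp
  have F1 : F w₁ = X₁ := by
    simp only [hF, rep5]
    rw [if_neg n1a, if_neg n1b]
    simp
  have F2 : F w₂ = X₂ := by
    simp only [hF, rep5]
    rw [if_neg n2a, if_neg n2b, if_neg hK.w12.symm]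
    simp
  have F3 : F w₃ = X₃ := by
    simp only [hF, rep5]
    rw [if_neg n3a, if_neg n3b, if_neg hK.w13.symm, if_neg hK.w23.symm]
    simp
  have F0 : ∀ v, v ≠ a → v ≠ b → v ≠ w₁ → v ≠ w₂ → v ≠ w₃ → F v = κ v := by
    intro v c1 c2 c3 c4 c5
    simp only [hF, rep5]
    rw [if_neg c1, if_neg c2, if_neg c3, if_neg c4, if_neg c5]
  have hcase : ∀ v : W, v = a ∨ v = b ∨ v = w₁ ∨ v = w₂ ∨ v = w₃ ∨
      (v ≠ a ∧ v ≠ b ∧ v ≠ w₁ ∧ v ≠ w₂ ∧ v ≠ w₃) := by
    intro v
    by_cases c1 : v = a
    · exact Or.inl c1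
    · by_cases c2 : v = b
      · exact Or.inr (Or.inl c2)
      · by_cases c3 : v = w₁
        · exact Or.inr (Or.inr (Or.inl c3))
        · by_cases c4 : v = w₂
          · exact Or.inr (Or.inr (Or.inr (Or.inl c4)))
          · by_cases c5 : v = w₃
            · exact Or.inr (Or.inr (Or.inr (Or.inr (Or.inl c5))))
            · exact Or.inr (Or.inr (Or.inr (Or.inr (Or.inr ⟨c1, c2, c3, c4, c5⟩))))
  have eA1 := act_ne hA1
  have eA2 := act_ne hA2
  have eA3 := act_ne hA3
  have eB1 := act_ne hB1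
  have eB2 := act_ne hB2
  have hinj : Function.Injective F := by
    intro v v' hvv
    rcases hcase v with rfl | rfl | rfl | rfl | rfl | ⟨c1, c2, c3, c4, c5⟩ <;>
      rcases hcase v' with rfl | rfl | rfl | rfl | rfl | ⟨d1, d2, d3, d4, d5⟩ <;>
      first
        | rfl
        | (exfalso
           first
            | rw [F0 v c1 c2 c3 c4 c5] at hvv
            | skip
           first
            | rw [F0 v' d1 d2 d3 d4 d5] at hvv
            | skip
           simp only [Fa, Fb, F1, F2, F3] at hvv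
           first
            | exact hAB hvv
            | exact hAB hvv.symm
            | exact eA1 hvv
            | exact eA1 hvv.symm
            | exact eA2 hvv
            | exact eA2 hvv.symm
            | exact eA3 hvv
            | exact eA3 hvv.symm
            | exact eB1 hvv
            | exact eB1 hvv.symm
            | exact eB2 hvv
            | exact eB2 hvv.symm
            | exact hBX3 hvv
            | exact hBX3 hvv.symm
            | exact hX12 hvv
            | exact hX12 hvv.symm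
            | exact hX13 hvv
            | exact hX13 hvv.symm
            | exact hX23 hvv
            | exact hX23 hvv.symm
            | exact hA v' d1 d2 d3 d4 d5 hvv
            | exact hB v' d1 d2 d3 d4 d5 hvv
            | exact h1 v' d1 d2 d3 d4 d5 hvv
            | exact h2 v' d1 d2 d3 d4 d5 hvv
            | exact h3 v' d1 d2 d3 d4 d5 hvv
            | exact hA v c1 c2 c3 c4 c5 hvv.symm
            | exact hB v c1 c2 c3 c4 c5 hvv.symm
            | exact h1 v c1 c2 c3 c4 c5 hvv.symm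
            | exact h2 v c1 c2 c3 c4 c5 hvv.symm
            | exact h3 v c1 c2 c3 c4 c5 hvv.symm)
        | (rw [F0 v c1 c2 c3 c4 c5, F0 v' d1 d2 d3 d4 d5] at hvv
           exact κ.injective hvv)
  -- the edges at the five vertices
  have hadj : ∀ c d, H.Adj c d → s(c, d) ≠ s(b, w₃) → Act H G (F c) (F d) := by
    have hside : ∀ d, H.Adj a d → Act H G (F a) (F d) := by
      intro d hd
      rw [Fa]
      rcases hK.na d hd with rfl | rfl | rfl
      · rw [F1]; exact hA1
      · rw [F2]; exact hA2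
      · rw [F3]; exact hA3
    have hside2 : ∀ d, H.Adj b d → s(b, d) ≠ s(b, w₃) → Act H G (F b) (F d) := by
      intro d hd hne
      rw [Fb]
      rcases hK.nb d hd with rfl | rfl | rfl
      · rw [F1]; exact hB1
      · rw [F2]; exact hB2
      · exact absurd rfl hne
    intro c d hcd hne
    by_cases c1 : c = a
    · rw [c1] at hcd ⊢
      exact hside d hcd
    · by_cases d1 : d = a
      · rw [d1] at hcd ⊢
        exact act_symm (hside c hcd.symm)
      · by_cases c2 : c = b
        · rw [c2] at hcd hne ⊢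
          exact hside2 d hcd hne
        · by_cases d2 : d = b
          · rw [d2] at hcd hne ⊢
            exact act_symm (hside2 c hcd.symm (by rw [Sym2.eq_swap]; exact hne))
          · have hw : ∀ p r, H.Adj p r → r ≠ a → r ≠ b → p ≠ w₁ ∧ p ≠ w₂ ∧ p ≠ w₃ := by
              intro p r hpr hra hrb
              refine ⟨?_, ?_, ?_⟩
              · rintro rfl
                rcases hK.n1 r hpr with h | h
                · exact hra h
                · exact hrb h
              · rintro rfl
                rcases hK.n2 r hpr with h | h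
                · exact hra h
                · exact hrb h
              · rintro rfl
                rcases hK.n3 r hpr with h | h
                · exact hra h
                · exact hrb h
            obtain ⟨c3, c4, c5⟩ := hw c d hcd d1 d2
            obtain ⟨d3, d4, d5⟩ := hw d c hcd.symm c1 c2
            rw [F0 c c1 c2 c3 c4 c5, F0 d d1 d2 d3 d4 d5]
            exact hκ c d hcd
  have hact := act_complete (G := G) ⟨F, hinj⟩ hK.b3 hadj
  change Act H G (F b) (F w₃) at hact
  rw [Fb, F3] at hact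
  exact hact

end Rep5

end Pool.Agent.HA60
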