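import Pool.Agent.HA60.P2

set_option autoImplicit false

/-!
The upper bound for graphs with a component `K_{2,3}`.
-/

namespace Pool.Agent.HA60

open SimpleGraph

variable {W : Type}

/-- A component `K_{2,3}`. -/
theorem rho_le_of_K23 [Finite W] {H : SimpleGraph W} {a b w₁ w₂ w₃ : W}
    (hK : K23 H a b w₁ w₂ w₃) : rho H ≤ max (q H) 1 := by
  classical
  obtain ⟨a₀, b₀, hab, hq⟩ := q_mem ⟨a, w₁, hK.a1⟩
  apply le_of_forall_pos_le_add
  intro ε hε
  set B : SimpleGraph W := H.deleteEdges {s(a₀, b₀)} with hB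
  have hBact : ∀ p r, H.Adj p r → Act H B p r := fun p r hpr => act_all hab hpr
  have facts : ∀ (V : Type) (G : SimpleGraph V) (κ : W ↪ V),
      (∀ p r, Act H B p r → Act H G (κ p) (κ r)) →
      (∀ r, r ∉ Set.range κ → Act H G r (κ a) → Act H G r (κ b)) ∧
      (∀ r, r ∉ Set.range κ → Act H G r (κ w₁) → Act H G r (κ w₂) ∧ Act H G r (κ w₃)) ∧
      (∀ r z, r ∉ Set.range κ → z ∉ Set.range κ → Act H G r z →
         (Act H G z (κ w₁) → Act H G z (κ w₂) → Act H G r (κ a) ∧ Act H G r (κ b)) ∧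
         (Act H G z (κ a) → Act H G z (κ b) →
           Act H G r (κ w₁) ∧ Act H G r (κ w₂) ∧ Act H G r (κ w₃))) ∧
      (∀ x y, x ∉ Set.range κ → y ∉ Set.range κ → x ≠ y → Act H G x (κ a) → Act H G x (κ b) →
        Act H G y (κ w₁) → Act H G x y) := by
    intro V G κ hκ
    have hκ' : ∀ p r, H.Adj p r → Act H G (κ p) (κ r) := fun p r h => hκ p r (hBact p r h)
    have ninj : ∀ {v v' : W}, v ≠ v' → κ v ≠ κ v' := fun h h' => h (κ.injective h')
    have va : ∀ v, v ≠ a → v ≠ b → v ≠ w₁ → v ≠ w₂ → v ≠ w₃ → κ a ≠ κ v :=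
      fun v c1 c2 c3 c4 c5 h => c1 (κ.injective h).symm
    have vb : ∀ v, v ≠ a → v ≠ b → v ≠ w₁ → v ≠ w₂ → v ≠ w₃ → κ b ≠ κ v :=
      fun v c1 c2 c3 c4 c5 h => c2 (κ.injective h).symm
    have v1 : ∀ v, v ≠ a → v ≠ b → v ≠ w₁ → v ≠ w₂ → v ≠ w₃ → κ w₁ ≠ κ v :=
      fun v c1 c2 c3 c4 c5 h => c3 (κ.injective h).symm
    have v2 : ∀ v, v ≠ a → v ≠ b → v ≠ w₁ → v ≠ w₂ → v ≠ w₃ → κ w₂ ≠ κ v :=
      fun v c1 c2 c3 c4 c5 h => c4 (κ.injective h).symm
    have v3 : ∀ v, v ≠ a → v ≠ b → v ≠ w₁ → v ≠ w₂ → v ≠ w₃ → κ w₃ ≠ κ v :=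
      fun v c1 c2 c3 c4 c5 h => c5 (κ.injective h).symm
    have vz : ∀ z, z ∉ Set.range κ →
        ∀ v, v ≠ a → v ≠ b → v ≠ w₁ → v ≠ w₂ → v ≠ w₃ → z ≠ κ v :=
      fun z hz v _ _ _ _ _ h => hz ⟨v, h.symm⟩
    have nz : ∀ {z : V} (v : W), z ∉ Set.range κ → κ v ≠ z := fun v hz h => hz ⟨v, h⟩
    have ka1 := hκ' _ _ hK.a1
    have ka2 := hκ' _ _ hK.a2
    have ka3 := hκ' _ _ hK.a3
    have kb1 := hκ' _ _ hK.b1
    have kb2 := hκ' _ _ hK.b2
    have kb3 := hκ' _ _ hK.b3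
    refine ⟨?_, ?_, ?_, ?_⟩
    · intro r hr h
      exact act_symm (k23_act hK hκ' (A := κ a) (B := κ b) (X₁ := κ w₁) (X₂ := κ w₂) (X₃ := r)
        (ninj hK.ab) (ninj hK.w12) (nz _ hr) (nz _ hr) (nz _ hr) va vb v1 v2 (vz r hr)
        ka1 ka2 (act_symm h) kb1 kb2)
    · intro r hr h
      constructor
      · exact act_symm (k23_act hK hκ' (A := κ w₁) (B := κ w₂) (X₁ := κ a) (X₂ := κ b) (X₃ := r)
          (ninj hK.w12) (ninj hK.ab) (nz _ hr) (nz _ hr) (nz _ hr) v1 v2 va vb (vz r hr)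
          (act_symm ka1) (act_symm kb1) (act_symm h) (act_symm ka2) (act_symm kb2))
      · exact act_symm (k23_act hK hκ' (A := κ w₁) (B := κ w₃) (X₁ := κ a) (X₂ := κ b) (X₃ := r)
          (ninj hK.w13) (ninj hK.ab) (nz _ hr) (nz _ hr) (nz _ hr) v1 v3 va vb (vz r hr)
          (act_symm ka1) (act_symm kb1) (act_symm h) (act_symm ka3) (act_symm kb3))
    · intro r z hr hz hrz
      constructor
      · intro h1 h2
        constructor
        · exact act_symm (k23_act hK hκ' (A := z) (B := κ a) (X₁ := κ w₁) (X₂ := κ w₂) (X₃ := r)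
            (nz _ hz).symm (ninj hK.w12) (nz _ hr) (nz _ hr) (nz _ hr) (vz z hz) va v1 v2
            (vz r hr) h1 h2 (act_symm hrz) ka1 ka2)
        · exact act_symm (k23_act hK hκ' (A := z) (B := κ b) (X₁ := κ w₁) (X₂ := κ w₂) (X₃ := r)
            (nz _ hz).symm (ninj hK.w12) (nz _ hr) (nz _ hr) (nz _ hr) (vz z hz) vb v1 v2
            (vz r hr) h1 h2 (act_symm hrz) kb1 kb2)
      · intro h1 h2
        refine ⟨?_, ?_, ?_⟩
        · exact act_symm (k23_act hK hκ' (A := z) (B := κ w₁) (X₁ := κ a) (X₂ := κ b) (X₃ := r)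
            (nz _ hz).symm (ninj hK.ab) (nz _ hr) (nz _ hr) (nz _ hr) (vz z hz) v1 va vb
            (vz r hr) h1 h2 (act_symm hrz) (act_symm ka1) (act_symm kb1))
        · exact act_symm (k23_act hK hκ' (A := z) (B := κ w₂) (X₁ := κ a) (X₂ := κ b) (X₃ := r)
            (nz _ hz).symm (ninj hK.ab) (nz _ hr) (nz _ hr) (nz _ hr) (vz z hz) v2 va vb
            (vz r hr) h1 h2 (act_symm hrz) (act_symm ka2) (act_symm kb2))
        · exact act_symm (k23_act hK hκ' (A := z) (B := κ w₃) (X₁ := κ a) (X₂ := κ b) (X₃ := r)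
            (nz _ hz).symm (ninj hK.ab) (nz _ hr) (nz _ hr) (nz _ hr) (vz z hz) v3 va vb
            (vz r hr) h1 h2 (act_symm hrz) (act_symm ka3) (act_symm kb3))
    · intro x y hx hy hxy h1 h2 h3
      exact k23_act hK hκ' (A := κ w₁) (B := x) (X₁ := κ a) (X₂ := κ b) (X₃ := y)
        (nz _ hx) (ninj hK.ab) (nz _ hy) (nz _ hy) hxy v1 (vz x hx) va vb (vz y hy)
        (act_symm ka1) (act_symm kb1) (act_symm h3) h1 h2
  let T : Bool → Set W := fun i => if i then {w₁, w₂, w₃} else {a, b}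
  have hTt : T true = {w₁, w₂, w₃} := rfl
  have hTf : T false = {a, b} := rfl
  have h0 : ∀ i, Nonempty (Gad H B (T i) (1 + ε) 1) := by
    intro i
    cases i
    · rw [hTf]
      have h := gad_star (H := H) (B := B) {a, b} {a} (1 + ε) (by
        intro V G κ r hκ hr hR t ht
        have h1 : Act H G r (κ a) := hR a rfl
        rcases ht with rfl | rfl
        · exact h1
        · exact (facts V G κ hκ).1 r hr h1)
      rw [Set.ncard_singleton, Nat.cast_one] at h
      exact h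
    · rw [hTt]
      have h := gad_star (H := H) (B := B) {w₁, w₂, w₃} {w₁} (1 + ε) (by
        intro V G κ r hκ hr hR t ht
        have h1 : Act H G r (κ w₁) := hR w₁ rfl
        rcases ht with rfl | rfl | rfl
        · exact h1
        · exact ((facts V G κ hκ).2.1 r hr h1).1
        · exact ((facts V G κ hκ).2.1 r hr h1).2)
      rw [Set.ncard_singleton, Nat.cast_one] at h
      exact h
  have hgad := gad_iter T not hε h0 (by
    intro i V G κ r z hκ hr hz hrz hzT
    cases i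
    · have hz1 : ∀ t ∈ ({w₁, w₂, w₃} : Set W), Act H G z (κ t) := hzT
      have h1 := ((facts V G κ hκ).2.2.1 r z hr hz hrz).1 (hz1 w₁ (by simp)) (hz1 w₂ (by simp))
      rw [hTf]
      intro t ht
      rcases ht with rfl | rfl
      · exact h1.1
      · exact h1.2
    · have hz1 : ∀ t ∈ ({a, b} : Set W), Act H G z (κ t) := hzT
      have h1 := ((facts V G κ hκ).2.2.1 r z hr hz hrz).2 (hz1 a (by simp)) (hz1 b (by simp))
      rw [hTt]
      intro t ht
      rcases ht with rfl | rfl | rfl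
      · exact h1.1
      · exact h1.2.1
      · exact h1.2.2)
  have hM : 0 ≤ max (q H) 1 + ε := by
    have := le_max_right (q H) 1
    linarith
  apply rho_le_of_gadgets (B := B) (θ := 1 + ε) hM (by
      have := le_max_right (q H) 1
      linarith) (by
      intro S
      apply base_count
      rw [← hq]
      have := le_max_left (q H) 1
      linarith) (hgad false) (hgad true)
  intro V G κ x y hκ hx hy hxy hxT hyT
  rw [hTf] at hxT
  rw [hTt] at hyT
  exact (facts V G κ hκ).2.2.2 x y hx hy hxy (hxT a (by simp)) (hxT b (by simp))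
    (hyT w₁ (by simp))

end Pool.Agent.HA60
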