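import Pool.Agent.HA60.P3

set_option autoImplicit false

/-!
Graphs with a vertex of degree one.
-/

namespace Pool.Agent.HA60

open SimpleGraph

variable {W : Type}

/-- Disjoint copies of the graph `G`, one for every `j : ι`. -/
def copies (ι : Type) (G : SimpleGraph W) : SimpleGraph (Σ _ : ι, W) where
  Adj := fun p r => p.1 = r.1 ∧ G.Adj p.2 r.2
  symm := ⟨fun _ _ h => ⟨h.1.symm, h.2.symm⟩⟩
  loopless := ⟨fun _ h => G.loopless.irrefl _ h.2⟩

theorem copies_count [Finite W] {ι : Type} [Finite ι] (G : SimpleGraph W)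
    (S : Set (Σ _ : ι, W)) :
    ((({e | e ∈ (copies ι G).edgeSet ∧ ∀ v ∈ e, v ∈ S} : Set (Sym2 (Σ _ : ι, W))).ncard : ℕ) : ℝ)
      ≤ maxDens G * S.ncard := by
  classical
  have := Fintype.ofFinite ι
  have hsub : ({e | e ∈ (copies ι G).edgeSet ∧ ∀ v ∈ e, v ∈ S} : Set (Sym2 (Σ _ : ι, W))) ⊆
      ⋃ j : ι, (Sym2.map (fun v : W => (⟨j, v⟩ : Σ _ : ι, W)) ''
        {e | e ∈ G.edgeSet ∧ ∀ v ∈ e, v ∈ {v : W | (⟨j, v⟩ : Σ _ : ι, W) ∈ S}}) := by
    rintro e ⟨he1, he2⟩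
    induction e using Sym2.ind with
    | _ z z' =>
      obtain ⟨j, v⟩ := z
      obtain ⟨j', v'⟩ := z'
      have h1 : j = j' := he1.1
      subst h1
      have h2 : G.Adj v v' := he1.2
      rw [Set.mem_iUnion]
      refine ⟨j, s(v, v'), ⟨h2, ?_⟩, by rw [Sym2.map_mk]⟩
      intro w hw
      rw [Sym2.mem_iff] at hw
      rcases hw with rfl | rfl
      · exact he2 _ (Sym2.mem_mk_left _ _)
      · exact he2 _ (Sym2.mem_mk_right _ _)
  have h1 : ({e | e ∈ (copies ι G).edgeSet ∧ ∀ v ∈ e, v ∈ S} : Set (Sym2 (Σ _ : ι, W))).ncard ≤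
      ∑ j : ι, ({e | e ∈ G.edgeSet ∧ ∀ v ∈ e, v ∈ {v : W | (⟨j, v⟩ : Σ _ : ι, W) ∈ S}} :
        Set (Sym2 W)).ncard := by
    refine le_trans (Set.ncard_le_ncard hsub (Set.toFinite _)) ?_
    refine le_trans (Set.ncard_iUnion_le_of_fintype _) ?_
    exact Finset.sum_le_sum (fun p _ => Set.ncard_image_le (Set.toFinite _))
  rw [ncard_sigma' S]
  push_cast
  rw [Finset.mul_sum]
  have h2 : ((({e | e ∈ (copies ι G).edgeSet ∧ ∀ v ∈ e, v ∈ S} :
      Set (Sym2 (Σ _ : ι, W))).ncard : ℕ) : ℝ) ≤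
      ∑ j : ι, ((({e | e ∈ G.edgeSet ∧ ∀ v ∈ e, v ∈ {v : W | (⟨j, v⟩ : Σ _ : ι, W) ∈ S}} :
        Set (Sym2 W)).ncard : ℕ) : ℝ) := by exact_mod_cast h1
  refine le_trans h2 ?_
  exact Finset.sum_le_sum (fun j _ => inside_le G {v : W | (⟨j, v⟩ : Σ _ : ι, W) ∈ S})

/-- A vertex of degree one. -/
theorem rho_le_of_leaf [Finite W] {H : SimpleGraph W} {w a : W} (hwa : H.Adj w a)
    (hN : ∀ v, H.Adj w v → v = a) : rho H ≤ q H := by
  classical
  obtain ⟨a₀, b₀, hab, hq⟩ := q_mem ⟨w, a, hwa⟩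
  set B : SimpleGraph (Σ _ : W, W) := copies W (H.deleteEdges {s(a₀, b₀)}) with hB
  have hBact : ∀ j p r, H.Adj p r → Act H B ⟨j, p⟩ ⟨j, r⟩ := by
    intro j p r hpr
    have hinj : Function.Injective (fun v : W => (⟨j, v⟩ : Σ _ : W, W)) :=
      fun v v' h => eq_of_heq (Sigma.mk.inj h).2
    exact act_map (G' := B) ⟨fun v : W => (⟨j, v⟩ : Σ _ : W, W), hinj⟩
      (fun c d hcd => ⟨rfl, hcd⟩) (act_all hab hpr)
  have h0 : Nonempty (Gad H B ∅ 0 0) := by
    have h := gad_star (H := H) (B := B) ∅ ∅ 0 (by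
      intro V G κ r _ _ _ t ht
      exact absurd ht (by simp))
    rw [Set.ncard_empty, Nat.cast_zero] at h
    exact h
  apply rho_le_of_gadgets (B := B) (θ := 0) (q_nonneg H) (q_nonneg H) (by
    intro S
    rw [hq]
    exact copies_count _ S) h0 h0
  intro V G κ x y hκ hx hy hxy _ _
  have hκ' : ∀ j p r, H.Adj p r → Act H G (κ ⟨j, p⟩) (κ ⟨j, r⟩) :=
    fun j p r h => hκ _ _ (hBact j p r h)
  have hkinj : ∀ {j j' : W} {v v' : W}, κ ⟨j, v⟩ = κ ⟨j', v'⟩ → j = j' ∧ v = v' := by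
    intro j j' v v' h
    have h1 := κ.injective h
    injection h1 with h2 h3
    subst h2
    exact ⟨rfl, h3⟩
  have f1 : ∀ (j : W) (z : V), (∀ v, v ≠ w → z ≠ κ ⟨j, v⟩) → Act H G z (κ ⟨j, a⟩) := by
    intro j z hz
    set F : W → V := fun v => if v = w then z else κ ⟨j, v⟩ with hF
    have Fw : F w = z := if_pos rfl
    have Fo : ∀ v, v ≠ w → F v = κ ⟨j, v⟩ := fun v h => if_neg h
    have hinj : Function.Injective F := by
      intro v v' hvv
      by_cases h1 : v = w <;> by_cases h2 : v' = w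
      · rw [h1, h2]
      · rw [h1, Fw, Fo v' h2] at hvv
        exact absurd hvv (hz v' h2)
      · rw [h2, Fw, Fo v h1] at hvv
        exact absurd hvv.symm (hz v h1)
      · rw [Fo v h1, Fo v' h2] at hvv
        exact (hkinj hvv).2
    have hact := act_complete (G := G) ⟨F, hinj⟩ hwa (by
      intro c d hcd hne
      change Act H G (F c) (F d)
      have hc : c ≠ w := by
        rintro rfl
        exact hne (by rw [hN d hcd])
      have hd : d ≠ w := by
        rintro rfl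
        exact hne (by rw [hN c hcd.symm, Sym2.eq_swap])
      rw [Fo c hc, Fo d hd]
      exact hκ' j c d hcd)
    change Act H G (F w) (F a) at hact
    rw [Fw, Fo a hwa.ne'] at hact
    exact hact
  set F : W → V := fun v => if v = a then x else if v = w then y else κ ⟨v, a⟩ with hF
  have Fa : F a = x := if_pos rfl
  have Fw : F w = y := by
    change (if w = a then x else if w = w then y else κ ⟨w, a⟩) = y
    rw [if_neg hwa.ne, if_pos rfl]
  have Fo : ∀ v, v ≠ a → v ≠ w → F v = κ ⟨v, a⟩ := by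
    intro v h1 h2
    simp only [hF]
    rw [if_neg h1, if_neg h2]
  have hcase : ∀ v : W, v = a ∨ v = w ∨ (v ≠ a ∧ v ≠ w) := by
    intro v
    by_cases h : v = a
    · exact Or.inl h
    · by_cases h' : v = w
      · exact Or.inr (Or.inl h')
      · exact Or.inr (Or.inr ⟨h, h'⟩)
  have hinj : Function.Injective F := by
    intro v v' hvv
    rcases hcase v with rfl | rfl | ⟨c1, c2⟩ <;> rcases hcase v' with rfl | rfl | ⟨d1, d2⟩
    · rfl
    · rw [Fa, Fw] at hvv; exact absurd hvv hxy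
    · rw [Fa, Fo v' d1 d2] at hvv; exact absurd ⟨_, hvv.symm⟩ hx
    · rw [Fa, Fw] at hvv; exact absurd hvv.symm hxy
    · rfl
    · rw [Fw, Fo v' d1 d2] at hvv; exact absurd ⟨_, hvv.symm⟩ hy
    · rw [Fa, Fo v c1 c2] at hvv; exact absurd ⟨_, hvv⟩ hx
    · rw [Fw, Fo v c1 c2] at hvv; exact absurd ⟨_, hvv⟩ hy
    · rw [Fo v c1 c2, Fo v' d1 d2] at hvv
      exact (hkinj hvv).1
  have hact := act_complete (G := G) ⟨F, hinj⟩ hwa.symm (by
    intro c d hcd hne
    change Act H G (F c) (F d)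
    rcases hcase c with rfl | rfl | ⟨c1, c2⟩ <;> rcases hcase d with rfl | rfl | ⟨d1, d2⟩
    · exact absurd rfl hcd.ne
    · exact absurd rfl hne
    · rw [Fa, Fo d d1 d2]
      exact f1 d x (fun v _ h => hx ⟨_, h.symm⟩)
    · exact absurd (Sym2.eq_swap) hne
    · exact absurd rfl hcd.ne
    · exact absurd (hN d hcd) d1
    · rw [Fa, Fo c c1 c2]
      exact act_symm (f1 c x (fun v _ h => hx ⟨_, h.symm⟩))
    · exact absurd (hN c hcd.symm) c1
    · rw [Fo c c1 c2, Fo d d1 d2]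
      exact f1 d (κ ⟨c, a⟩) (fun v _ h => hcd.ne (hkinj h).1))
  change Act H G (F a) (F w) at hact
  rw [Fa, Fw] at hact
  exact hact

end Pool.Agent.HA60
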