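import Pool.Agent.HA60.P4
import Pool.Agent.HA60.Cor

set_option autoImplicit false

/-!
All graphs with `q(H) < 10/9`.
-/

namespace Pool.Agent.HA60

open SimpleGraph

variable {W : Type}

/-- Two adjacent vertices of degree at most two. -/
theorem rho_le_of_two [Finite W] {H : SimpleGraph W} {x y : W} (hxy : H.Adj x y)
    (hx : deg H x ≤ 2) (hy : deg H y ≤ 2) : rho H ≤ max (q H) 1 := by
  have huniq : ∀ x y : W, H.Adj x y → deg H x ≤ 2 → ∀ u u', u ≠ y → u' ≠ y → H.Adj x u →
      H.Adj x u' → u = u' := by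
    intro x y hxy hx u u' hu hu' h1 h2
    by_contra hne
    have h3 : ({y, u, u'} : Set W) ⊆ H.neighborSet x := by
      rintro z (rfl | rfl | rfl)
      · exact hxy
      · exact h1
      · exact h2
    have h4 := Set.ncard_le_ncard h3 (Set.toFinite _)
    have h5 : ({y, u, u'} : Set W).ncard = 3 :=
      Set.ncard_eq_three.2 ⟨y, u, u', hu.symm, hu'.symm, hne, rfl⟩
    rw [h5] at h4
    exact absurd (le_trans h4 hx) (by norm_num)
  have hcard : ({x, y} : Set W).ncard = 2 := Set.ncard_pair hxy.ne
  have hS := sparse_small (H := H) (X := ({x, y} : Set W))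
    ⟨x, by simp, y, by simp, hxy⟩ (by
      rintro v (rfl | rfl) u u' hu hu' h1 h2
      · simp only [Set.mem_insert_iff, Set.mem_singleton_iff, not_or] at hu hu'
        exact huniq v y hxy hx u u' hu.2 hu'.2 h1 h2
      · simp only [Set.mem_insert_iff, Set.mem_singleton_iff, not_or] at hu hu'
        exact huniq v x hxy.symm hy u u' hu.1 hu'.1 h1 h2)
  have hlam : lamK ({x, y} : Set W).ncard = 1 := by
    rw [hcard]
    unfold lamK
    norm_num
  rw [hlam] at hS
  exact rho_le_of_sparse hS

theorem deg_eq_degree [Fintype W] (H : SimpleGraph W) [DecidableRel H.Adj] (v : W) :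
    deg H v = H.degree v := by
  classical
  unfold deg
  rw [Set.ncard_eq_toFinset_card', ← card_neighborFinset_eq_degree]
  congr 1

theorem arith_a {n2 n3 v E c s : ℕ} (hv : v = n2 + n3) (hv4 : 4 ≤ v)
    (h1 : 2 * n2 + s ≤ 2 * E) (h2 : 3 * n3 ≤ s) (h3 : 2 * n2 ≤ E) (h4 : E ≤ c + 2)
    (h5 : 9 * c < 10 * (v - 1)) :
    (n2 = 2 ∧ n3 = 2 ∧ E = 5) ∨ (n2 = 3 ∧ n3 = 2 ∧ E = 6) := by
  have hE : E ≤ 11 := by omega
  have hv9 : v ≤ 9 := by omega
  interval_cases E <;> interval_cases v <;> omega

theorem arith_b {n2 n3 v E c s : ℕ} (hv : v = n2 + n3) (hv4 : 4 ≤ v)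
    (h1 : 2 * n2 + s ≤ 2 * E) (h2 : 3 * n3 ≤ s) (h3 : 2 * n2 ≤ E - 1) (h3' : 0 < E)
    (h4 : E ≤ c + 1) (h5 : 9 * c < 10 * v) :
    (n2 = 2 ∧ n3 = 2 ∧ E = 5) ∨ (n2 = 3 ∧ n3 = 2 ∧ E = 6) := by
  have hE : E ≤ 9 := by omega
  have hv9 : v ≤ 9 := by omega
  interval_cases E <;> interval_cases v <;> omega

/-- The structure of the small graphs. -/
theorem small_graphs [Fintype W] (H : SimpleGraph W) [DecidableRel H.Adj] [DecidableEq W]
    {a₀ b₀ : W} (hab : H.Adj a₀ b₀) (hdeg : ∀ v, H.degree v ≠ 1)
    (hq : maxDens (H.deleteEdges {s(a₀, b₀)}) < 10 / 9)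
    (hno : ∀ u v, H.Adj u v → H.degree u = 2 → H.degree v ≠ 2) :
    (∃ w a c a', H.Adj w a ∧ H.Adj w c ∧ H.Adj a c ∧ H.Adj a a' ∧ a' ≠ w ∧
      (∀ v, H.Adj w v → v = a ∨ v = c) ∧ (∀ v, H.Adj a v → v = w ∨ v = c ∨ v = a')) ∨
    (∃ a b w₁ w₂ w₃, K23 H a b w₁ w₂ w₃) := by
  set D2 : Finset W := Finset.univ.filter (fun v => H.degree v = 2) with hD2
  set D3 : Finset W := Finset.univ.filter (fun v => 3 ≤ H.degree v) with hD3
  have m2 : ∀ v, v ∈ D2 ↔ H.degree v = 2 := fun v => by simp [hD2]
  have m3 : ∀ v, v ∈ D3 ↔ 3 ≤ H.degree v := fun v => by simp [hD3]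
  have hdisj : Disjoint D2 D3 := by
    rw [Finset.disjoint_left]
    intro v h1 h2
    rw [m2] at h1
    rw [m3] at h2
    omega
  have hmem : ∀ u v, H.Adj u v → u ∈ D2 ∪ D3 := by
    intro u v huv
    rw [Finset.mem_union, m2, m3]
    have h1 : 0 < H.degree u := (H.degree_pos_iff_exists_adj u).2 ⟨v, huv⟩
    have h2 := hdeg u
    omega
  have hnb : ∀ w, H.degree w = 2 → ∀ v, H.Adj w v → v ∈ D3 := by
    intro w hw v hv
    have h1 := hmem v w hv.symm
    rw [Finset.mem_union, m2] at h1
    rcases h1 with h1 | h1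
    · exact absurd h1 (hno w v hv hw)
    · exact h1
  have hcard : (D2 ∪ D3).card = D2.card + D3.card := Finset.card_union_of_disjoint hdisj
  -- a vertex of degree at least three
  obtain ⟨c₀, hc₀⟩ : ∃ c, c ∈ D3 := by
    have h1 := hmem a₀ b₀ hab
    rw [Finset.mem_union] at h1
    rcases h1 with h1 | h1
    · exact ⟨b₀, hnb a₀ ((m2 a₀).1 h1) b₀ hab⟩
    · exact ⟨a₀, h1⟩
  have hv4 : 4 ≤ (D2 ∪ D3).card := by
    have h1 : insert c₀ (H.neighborFinset c₀) ⊆ D2 ∪ D3 := by
      intro v hv
      rw [Finset.mem_insert, mem_neighborFinset] at hv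
      rcases hv with rfl | hv
      · exact Finset.mem_union_right _ hc₀
      · exact hmem v c₀ hv.symm
    have h2 := Finset.card_le_card h1
    rw [Finset.card_insert_of_notMem (by simp), card_neighborFinset_eq_degree] at h2
    have h3 := (m3 c₀).1 hc₀
    omega
  -- the handshake lemma
  have hhand : 2 * D2.card + ∑ v ∈ D3, H.degree v ≤ 2 * H.edgeFinset.card := by
    rw [← H.sum_degrees_eq_twice_card_edges]
    calc 2 * D2.card + ∑ v ∈ D3, H.degree v
        = ∑ v ∈ D2, H.degree v + ∑ v ∈ D3, H.degree v := by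
          rw [Finset.sum_congr rfl (fun v hv => (m2 v).1 hv)]
          simp [mul_comm]
      _ = ∑ v ∈ D2 ∪ D3, H.degree v := (Finset.sum_union hdisj).symm
      _ ≤ ∑ v, H.degree v := Finset.sum_le_sum_of_subset (Finset.subset_univ _)
  have hD3sum : 3 * D3.card ≤ ∑ v ∈ D3, H.degree v := by
    have h1 := Finset.card_nsmul_le_sum D3 (fun v => H.degree v) 3 (fun v hv => (m3 v).1 hv)
    simpa [mul_comm] using h1
  -- the edges at the vertices of degree two
  have hinc : ∀ E : Finset (Sym2 W), (∀ w ∈ D2, H.incidenceFinset w ⊆ E) →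
      2 * D2.card ≤ E.card := by
    intro E hE
    have h1 : (D2.biUnion (fun w => H.incidenceFinset w)).card = 2 * D2.card := by
      rw [Finset.card_biUnion]
      · rw [Finset.sum_congr rfl (fun v hv => by
          rw [card_incidenceFinset_eq_degree, (m2 v).1 hv])]
        simp [mul_comm]
      · intro u hu v hv huv
        change Disjoint (H.incidenceFinset u) (H.incidenceFinset v)
        rw [Finset.disjoint_left]
        intro e he1 he2
        rw [mem_incidenceFinset] at he1 he2
        have h2 : e = s(u, v) := by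
          have := (Sym2.mem_and_mem_iff huv).1 ⟨he1.2, he2.2⟩
          exact this
        rw [h2] at he1
        exact hno u v he1.1 ((m2 u).1 hu) ((m2 v).1 hv)
    rw [← h1]
    apply Finset.card_le_card
    intro e he
    rw [Finset.mem_biUnion] at he
    obtain ⟨w, hw, he⟩ := he
    exact hE w hw he
  have hincE : ∀ w, H.incidenceFinset w ⊆ H.edgeFinset := by
    intro w e he
    rw [mem_incidenceFinset] at he
    rw [mem_edgeFinset]
    exact he.1
  have he2 : 2 * D2.card ≤ H.edgeFinset.card := hinc _ (fun w _ => hincE w)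
  -- the density condition
  have hdens : ∀ S : Finset W, 0 < S.card → 9 * ({e | e ∈ (H.deleteEdges {s(a₀, b₀)}).edgeSet ∧
      ∀ v ∈ e, v ∈ (S : Set W)} : Set (Sym2 W)).ncard < 10 * S.card := by
    intro S hS
    have h1 := inside_le (H.deleteEdges {s(a₀, b₀)}) (S : Set W)
    rw [Set.ncard_coe_finset] at h1
    have h2 : (0 : ℝ) < S.card := by exact_mod_cast hS
    have h3 : maxDens (H.deleteEdges {s(a₀, b₀)}) * S.card < 10 / 9 * S.card :=
      mul_lt_mul_of_pos_right hq h2
    have h4 := lt_of_le_of_lt h1 h3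
    have h5 : (9 : ℝ) * (({e | e ∈ (H.deleteEdges {s(a₀, b₀)}).edgeSet ∧
      ∀ v ∈ e, v ∈ (S : Set W)} : Set (Sym2 W)).ncard : ℝ) < 10 * S.card := by linarith
    exact_mod_cast h5
  have hmain : (D2.card = 2 ∧ D3.card = 2 ∧ H.edgeFinset.card = 5) ∨
      (D2.card = 3 ∧ D3.card = 2 ∧ H.edgeFinset.card = 6) := by
    by_cases hα : ∃ w ∈ s(a₀, b₀), w ∈ D2
    · obtain ⟨w, hw, hw2⟩ := hα
      have h1 : H.edgeFinset.card ≤ ({e | e ∈ (H.deleteEdges {s(a₀, b₀)}).edgeSet ∧
          ∀ v ∈ e, v ∈ (((D2 ∪ D3).erase w : Finset W) : Set W)} : Set (Sym2 W)).ncard + 2 := by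
        have h2 : (H.edgeFinset : Set (Sym2 W)) ⊆ ({e | e ∈ (H.deleteEdges {s(a₀, b₀)}).edgeSet ∧
          ∀ v ∈ e, v ∈ (((D2 ∪ D3).erase w : Finset W) : Set W)} : Set (Sym2 W)) ∪
            (H.incidenceFinset w : Set (Sym2 W)) := by
          intro e he
          rw [coe_edgeFinset] at he
          by_cases hwe : w ∈ e
          · right
            rw [Finset.mem_coe, mem_incidenceFinset]
            exact ⟨he, hwe⟩
          · left
            refine ⟨?_, ?_⟩
            · rw [edgeSet_deleteEdges]
              refine ⟨he, ?_⟩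
              intro h
              rw [Set.mem_singleton_iff] at h
              rw [h] at hwe
              exact hwe hw
            · intro v hv
              rw [Finset.mem_coe, Finset.mem_erase]
              refine ⟨fun h => hwe (h ▸ hv), ?_⟩
              induction e using Sym2.ind with
              | _ p r =>
                rw [Sym2.mem_iff] at hv
                rcases hv with rfl | rfl
                · exact hmem v r he
                · exact hmem v p (show H.Adj p v from he).symm
        have h3 := Set.ncard_le_ncard h2 (Set.toFinite _)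
        rw [Set.ncard_coe_finset] at h3
        refine le_trans h3 (le_trans (Set.ncard_union_le _ _) ?_)
        rw [Set.ncard_coe_finset, card_incidenceFinset_eq_degree, (m2 w).1 hw2]
      have h2 : ((D2 ∪ D3).erase w).card = (D2 ∪ D3).card - 1 :=
        Finset.card_erase_of_mem (Finset.mem_union_left _ hw2)
      have h3 := hdens ((D2 ∪ D3).erase w) (by omega)
      rw [h2] at h3
      exact arith_a hcard hv4 hhand hD3sum he2 h1 h3
    · push Not at hα
      have ha : a₀ ∉ D2 := hα a₀ (Sym2.mem_mk_left _ _)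
      have hb : b₀ ∉ D2 := hα b₀ (Sym2.mem_mk_right _ _)
      have h0 : s(a₀, b₀) ∈ H.edgeFinset := by
        rw [mem_edgeFinset]
        exact hab
      have h1 : 2 * D2.card ≤ (H.edgeFinset.erase s(a₀, b₀)).card := by
        apply hinc
        intro w hw e he
        rw [Finset.mem_erase]
        refine ⟨?_, hincE w he⟩
        rintro rfl
        rw [mem_incidenceFinset] at he
        have h2 : w ∈ s(a₀, b₀) := he.2
        rw [Sym2.mem_iff] at h2
        rcases h2 with rfl | rfl
        · exact ha hw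
        · exact hb hw
      rw [Finset.card_erase_of_mem h0] at h1
      have hpos : 0 < H.edgeFinset.card := Finset.card_pos.2 ⟨_, h0⟩
      have h2 : H.edgeFinset.card ≤ ({e | e ∈ (H.deleteEdges {s(a₀, b₀)}).edgeSet ∧
          ∀ v ∈ e, v ∈ ((D2 ∪ D3 : Finset W) : Set W)} : Set (Sym2 W)).ncard + 1 := by
        have h2 : (H.edgeFinset : Set (Sym2 W)) ⊆ ({e | e ∈ (H.deleteEdges {s(a₀, b₀)}).edgeSet ∧
          ∀ v ∈ e, v ∈ ((D2 ∪ D3 : Finset W) : Set W)} : Set (Sym2 W)) ∪ {s(a₀, b₀)} := by
          intro e he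
          rw [coe_edgeFinset] at he
          by_cases hee : e = s(a₀, b₀)
          · right
            exact hee
          · left
            refine ⟨?_, ?_⟩
            · rw [edgeSet_deleteEdges]
              exact ⟨he, hee⟩
            · intro v hv
              rw [Finset.mem_coe]
              induction e using Sym2.ind with
              | _ p r =>
                rw [Sym2.mem_iff] at hv
                rcases hv with rfl | rfl
                · exact hmem v r he
                · exact hmem v p (show H.Adj p v from he).symm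
        have h3 := Set.ncard_le_ncard h2 (Set.toFinite _)
        rw [Set.ncard_coe_finset] at h3
        refine le_trans h3 (le_trans (Set.ncard_union_le _ _) ?_)
        rw [Set.ncard_singleton]
      have h3 := hdens (D2 ∪ D3) (by omega)
      exact arith_b hcard hv4 hhand hD3sum h1 hpos h2 h3
  rcases hmain with ⟨h2, h3, h5⟩ | ⟨h2, h3, h6⟩
  · left
    obtain ⟨w, w', hww, hw⟩ := Finset.card_eq_two.1 h2
    obtain ⟨a, b, hab', hab2⟩ := Finset.card_eq_two.1 h3
    have hall : ∀ u v, H.Adj u v → u = w ∨ u = w' ∨ u = a ∨ u = b := by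
      intro u v huv
      have h := hmem u v huv
      rw [hw, hab2] at h
      simp only [Finset.mem_union, Finset.mem_insert, Finset.mem_singleton] at h
      tauto
    have ha3 : 3 ≤ H.degree a := (m3 a).1 (by rw [hab2]; simp)
    have hNa : H.neighborFinset a = {w, b, w'} := by
      apply Finset.eq_of_subset_of_card_le
      · intro v hv
        rw [mem_neighborFinset] at hv
        simp only [Finset.mem_insert, Finset.mem_singleton]
        rcases hall v a hv.symm with h | h | h | h
        · exact Or.inl h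
        · exact Or.inr (Or.inr h)
        · exact absurd h hv.ne'
        · exact Or.inr (Or.inl h)
      · rw [card_neighborFinset_eq_degree]
        refine le_trans ?_ ha3
        exact Finset.card_le_three
    have hNa2 : ∀ v, H.Adj a v ↔ v = w ∨ v = b ∨ v = w' := by
      intro v
      rw [← mem_neighborFinset, hNa]
      simp
    have hb3 : 3 ≤ H.degree b := (m3 b).1 (by rw [hab2]; simp)
    have hNb : H.neighborFinset b = {w, a, w'} := by
      apply Finset.eq_of_subset_of_card_le
      · intro v hv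
        rw [mem_neighborFinset] at hv
        simp only [Finset.mem_insert, Finset.mem_singleton]
        rcases hall v b hv.symm with h | h | h | h
        · exact Or.inl h
        · exact Or.inr (Or.inr h)
        · exact Or.inr (Or.inl h)
        · exact absurd h hv.ne'
      · rw [card_neighborFinset_eq_degree]
        refine le_trans ?_ hb3
        exact Finset.card_le_three
    have hNb2 : ∀ v, H.Adj b v ↔ v = w ∨ v = a ∨ v = w' := by
      intro v
      rw [← mem_neighborFinset, hNb]
      simp
    refine ⟨w, a, b, w', ((hNa2 w).2 (Or.inl rfl)).symm, ((hNb2 w).2 (Or.inl rfl)).symm,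
      (hNa2 b).2 (Or.inr (Or.inl rfl)), (hNa2 w').2 (Or.inr (Or.inr rfl)), hww.symm, ?_,
      fun v hv => (hNa2 v).1 hv⟩
    intro v hv
    have h := hnb w ((m2 w).1 (by rw [hw]; simp)) v hv
    rw [hab2] at h
    simpa using h
  · right
    obtain ⟨w₁, w₂, w₃, h12, h13, h23, hw⟩ := Finset.card_eq_three.1 h2
    obtain ⟨a, b, hab', hab2⟩ := Finset.card_eq_two.1 h3
    rw [hab2, Finset.sum_pair hab', h2, h6] at hhand
    have ha3 : 3 ≤ H.degree a := (m3 a).1 (by rw [hab2]; simp)
    have hb3 : 3 ≤ H.degree b := (m3 b).1 (by rw [hab2]; simp)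
    have hNw : ∀ w ∈ D2, ∀ v, H.Adj w v ↔ v = a ∨ v = b := by
      intro w hw2
      have hw3 := (m2 w).1 hw2
      have h : H.neighborFinset w = {a, b} := by
        apply Finset.eq_of_subset_of_card_le
        · intro v hv
          rw [mem_neighborFinset] at hv
          rw [← hab2]
          exact hnb w hw3 v hv
        · rw [card_neighborFinset_eq_degree, hw3]
          exact Finset.card_le_two
      intro v
      rw [← mem_neighborFinset, h]
      simp
    have hN : ∀ c, H.degree c ≤ 3 → (∀ w ∈ D2, H.Adj c w) → ∀ v, H.Adj c v →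
        v = w₁ ∨ v = w₂ ∨ v = w₃ := by
      intro c hc hcw v hv
      have h : D2 = H.neighborFinset c := by
        apply Finset.eq_of_subset_of_card_le
        · intro v hv
          rw [mem_neighborFinset]
          exact hcw v hv
        · rw [card_neighborFinset_eq_degree, h2]
          exact hc
      rw [← mem_neighborFinset, ← h, hw] at hv
      simpa using hv
    have hw1 : w₁ ∈ D2 := by rw [hw]; simp
    have hw2 : w₂ ∈ D2 := by rw [hw]; simp
    have hw3 : w₃ ∈ D2 := by rw [hw]; simp
    have haw : ∀ w ∈ D2, H.Adj a w := fun w h => ((hNw w h a).2 (Or.inl rfl)).symm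
    have hbw : ∀ w ∈ D2, H.Adj b w := fun w h => ((hNw w h b).2 (Or.inr rfl)).symm
    exact ⟨a, b, w₁, w₂, w₃,
      { a1 := haw _ hw1, a2 := haw _ hw2, a3 := haw _ hw3
        b1 := hbw _ hw1, b2 := hbw _ hw2, b3 := hbw _ hw3
        ab := hab', w12 := h12, w13 := h13, w23 := h23
        na := hN a (by omega) haw
        nb := hN b (by omega) hbw
        n1 := fun v hv => (hNw _ hw1 v).1 hv
        n2 := fun v hv => (hNw _ hw2 v).1 hv
        n3 := fun v hv => (hNw _ hw3 v).1 hv }⟩

/-- The upper bound for all graphs with `q(H) < 10/9` and no vertex of degree one. -/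
theorem rho_le_of_small [Finite W] {H : SimpleGraph W} (hH : ∃ a b, H.Adj a b)
    (hdeg : ∀ v, deg H v ≠ 1) (hq : q H < 10 / 9) : rho H ≤ max (q H) 1 := by
  classical
  have := Fintype.ofFinite W
  by_cases hno : ∃ u v, H.Adj u v ∧ deg H u = 2 ∧ deg H v = 2
  · obtain ⟨u, v, huv, hu, hv⟩ := hno
    exact rho_le_of_two huv (by rw [hu]) (by rw [hv])
  · push Not at hno
    obtain ⟨a₀, b₀, hab, hq'⟩ := q_mem hH
    rcases small_graphs H hab (fun v => by rw [← deg_eq_degree]; exact hdeg v)
      (by rw [← hq']; exact hq)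
      (fun u v huv h1 h2 => hno u v huv (by rw [deg_eq_degree]; exact h1)
        (by rw [deg_eq_degree]; exact h2)) with
      ⟨w, a, c, a', h1, h2, h3, h4, h5, h6, h7⟩ | ⟨a, b, w₁, w₂, w₃, hK⟩
    · exact rho_le_of_triangle h1 h2 h3 h4 h5 h6 h7
    · exact rho_le_of_K23 hK

end Pool.Agent.HA60
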