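import Pool.Agent.HA60.Glue

set_option autoImplicit false

/-!
Gadgets over a general base graph `B` on `U`, and their gluing.
-/

namespace Pool.Agent.HA60

open SimpleGraph

variable {W U V : Type}

open Classical in
/-- A gadget: a graph with a base (a copy of `B`) and a root `r` which becomes adjacent to the
base vertices in `T`, such that every set `S` has at most `θ · #(new vertices) + (c if r ∈ S)`
edges outside the base. -/
structure Gad (H : SimpleGraph W) (B : SimpleGraph U) (T : Set U) (θ c : ℝ) where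
  Q : Type
  fin : Finite Q
  Γ : SimpleGraph Q
  r : Q
  β : U ↪ Q
  hr : ∀ a, β a ≠ r
  hB : ∀ a b, Γ.Adj (β a) (β b) ↔ B.Adj a b
  act : ∀ t ∈ T, Act H Γ r (β t)
  cnt : ∀ S : Set Q, ((exS Γ β S).ncard : ℝ) ≤ θ * ((newS r β S).ncard : ℝ) +
    (if r ∈ S then c else 0)

section Glue2

variable {H : SimpleGraph W} {B : SimpleGraph U} {θ : ℝ} {P V0 : Type} (pt : P → V0)
  {TT : P → Set U} {cc : P → ℝ} (g : ∀ p, Gad H B (TT p) θ (cc p))

/-- The new vertices of the gadget `p`. -/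
abbrev NV2 (p : P) : Type := {v : (g p).Q // v ≠ (g p).r ∧ v ∉ Set.range (g p).β}

/-- The vertex set of the glued graph. -/
abbrev Tot2 (V0 : Type) : Type := (V0 ⊕ U) ⊕ (Σ p : P, NV2 g p)

open Classical in
/-- The map of the gadget `p` into the glued graph, as a function. -/
noncomputable def psi2F (p : P) (v : (g p).Q) : Tot2 g V0 :=
  if h : v = (g p).r then Sum.inl (Sum.inl (pt p)) else
    if h2 : v ∈ Set.range (g p).β then Sum.inl (Sum.inr (Classical.choose h2)) else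
      Sum.inr ⟨p, ⟨v, h, h2⟩⟩

theorem psi2F_r (p : P) : psi2F pt g p (g p).r = Sum.inl (Sum.inl (pt p)) := by
  unfold psi2F
  rw [dif_pos rfl]

theorem psi2F_β (p : P) (a : U) : psi2F pt g p ((g p).β a) = Sum.inl (Sum.inr a) := by
  unfold psi2F
  have h2 : (g p).β a ∈ Set.range (g p).β := ⟨a, rfl⟩
  rw [dif_neg ((g p).hr a), dif_pos h2]
  have := Classical.choose_spec h2
  rw [(g p).β.injective this]

theorem psi2F_new (p : P) (v : (g p).Q) (h : v ≠ (g p).r) (h2 : v ∉ Set.range (g p).β) :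
    psi2F pt g p v = Sum.inr ⟨p, ⟨v, h, h2⟩⟩ := by
  unfold psi2F
  rw [dif_neg h, dif_neg h2]

theorem psi2F_cases (p : P) (v : (g p).Q) :
    (v = (g p).r) ∨ (∃ a, v = (g p).β a) ∨
      (∃ (h : v ≠ (g p).r) (h2 : v ∉ Set.range (g p).β), True) := by
  by_cases h : v = (g p).r
  · exact Or.inl h
  · by_cases h2 : v ∈ Set.range (g p).β
    · obtain ⟨a, ha⟩ := h2
      exact Or.inr (Or.inl ⟨a, ha.symm⟩)
    · exact Or.inr (Or.inr ⟨h, h2, trivial⟩)

theorem psi2F_inj (p : P) : Function.Injective (psi2F pt g p) := by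
  intro v v' hvv
  rcases psi2F_cases g p v with h | ⟨a, h⟩ | ⟨h1, h2, _⟩ <;>
    rcases psi2F_cases g p v' with h' | ⟨a', h'⟩ | ⟨h1', h2', _⟩
  · rw [h, h']
  · rw [h, h', psi2F_r, psi2F_β] at hvv
    exact absurd hvv (by simp)
  · rw [h, psi2F_r, psi2F_new pt g p v' h1' h2'] at hvv
    exact absurd hvv (by simp)
  · rw [h, h', psi2F_r, psi2F_β] at hvv
    exact absurd hvv (by simp)
  · rw [h, h', psi2F_β, psi2F_β] at hvv
    rw [h, h', Sum.inr.inj (Sum.inl.inj hvv)]
  · rw [h, psi2F_β, psi2F_new pt g p v' h1' h2'] at hvv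
    exact absurd hvv (by simp)
  · rw [h', psi2F_r, psi2F_new pt g p v h1 h2] at hvv
    exact absurd hvv (by simp)
  · rw [h', psi2F_β, psi2F_new pt g p v h1 h2] at hvv
    exact absurd hvv (by simp)
  · rw [psi2F_new pt g p v h1 h2, psi2F_new pt g p v' h1' h2'] at hvv
    have h5 := Sum.inr.inj hvv
    have h6 := eq_of_heq (Sigma.mk.inj h5).2
    exact congrArg Subtype.val h6

/-- The map of the gadget `p` into the glued graph. -/
noncomputable def psi2 (p : P) : (g p).Q ↪ Tot2 g V0 := ⟨psi2F pt g p, psi2F_inj pt g p⟩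

theorem psi2_r (p : P) : psi2 pt g p (g p).r = Sum.inl (Sum.inl (pt p)) := psi2F_r pt g p

theorem psi2_β (p : P) (a : U) : psi2 pt g p ((g p).β a) = Sum.inl (Sum.inr a) :=
  psi2F_β pt g p a

theorem psi2_new (p : P) (v : (g p).Q) (h : v ≠ (g p).r) (h2 : v ∉ Set.range (g p).β) :
    psi2 pt g p v = Sum.inr ⟨p, ⟨v, h, h2⟩⟩ := psi2F_new pt g p v h h2

variable (K : SimpleGraph (V0 ⊕ U))

/-- The glued graph: the core graph `K`, and for every `p` a gadget with root `pt p`. -/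
def glue2 : SimpleGraph (Tot2 g V0) where
  Adj := fun z z' => (∃ v v', K.Adj v v' ∧ Sum.inl v = z ∧ Sum.inl v' = z') ∨
    (∃ p v v', (g p).Γ.Adj v v' ∧ psi2 pt g p v = z ∧ psi2 pt g p v' = z')
  symm := ⟨by
    rintro z z' (⟨v, v', h, rfl, rfl⟩ | ⟨p, v, v', h, rfl, rfl⟩)
    · exact Or.inl ⟨v', v, h.symm, rfl, rfl⟩
    · exact Or.inr ⟨p, v', v, h.symm, rfl, rfl⟩⟩
  loopless := ⟨by
    rintro z (⟨v, v', h, h1, h2⟩ | ⟨p, v, v', h, h1, h2⟩)
    · exact h.ne (Sum.inl.inj (h1.trans h2.symm))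
    · exact h.ne ((psi2 pt g p).injective (h1.trans h2.symm))⟩

theorem glue2_core {v v' : V0 ⊕ U} (h : K.Adj v v') :
    (glue2 pt g K).Adj (Sum.inl v) (Sum.inl v') := Or.inl ⟨v, v', h, rfl, rfl⟩

/-- The base map of the glued graph. -/
def bt : U ↪ Tot2 g V0 := ⟨fun a => Sum.inl (Sum.inr a), fun _ _ h => Sum.inr.inj (Sum.inl.inj h)⟩

theorem glue2_base_iff (hK : ∀ a b, K.Adj (Sum.inr a) (Sum.inr b) ↔ B.Adj a b) (a b : U) :
    (glue2 pt g K).Adj (bt g a) (bt g b) ↔ B.Adj a b := by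
  constructor
  · rintro (⟨v, v', h, h1, h2⟩ | ⟨p, v, v', h, h1, h2⟩)
    · have h3 : v = Sum.inr a := Sum.inl.inj h1
      have h4 : v' = Sum.inr b := Sum.inl.inj h2
      rw [h3, h4] at h
      exact (hK a b).1 h
    · have h1' : psi2 pt g p v = psi2 pt g p ((g p).β a) := by rw [psi2_β]; exact h1
      have h2' : psi2 pt g p v' = psi2 pt g p ((g p).β b) := by rw [psi2_β]; exact h2
      have h3 := (psi2 pt g p).injective h1'
      have h4 := (psi2 pt g p).injective h2'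
      rw [h3, h4] at h
      exact ((g p).hB a b).1 h
  · intro h
    exact glue2_core pt g K ((hK a b).2 h)

/-- The roots become adjacent to their targets. -/
theorem glue2_root (p : P) {t : U} (ht : t ∈ TT p) :
    Act H (glue2 pt g K) (Sum.inl (Sum.inl (pt p))) (bt g t) := by
  have h := act_map (G' := glue2 pt g K) (psi2 pt g p)
    (fun a b hab => Or.inr ⟨p, a, b, hab, rfl, rfl⟩) ((g p).act t ht)
  rw [psi2_r, psi2_β] at h
  exact h

/-- The activations of the base. -/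
theorem glue2_base_act (hK : ∀ a b, K.Adj (Sum.inr a) (Sum.inr b) ↔ B.Adj a b) {a b : U}
    (h : Act H B a b) : Act H (glue2 pt g K) (bt g a) (bt g b) :=
  act_map (G' := glue2 pt g K) (bt g)
    (fun a b hab => (glue2_base_iff pt g K hK a b).2 hab) h

theorem glue2_finite [Finite V0] [Finite U] [Finite P] : Finite (Tot2 g V0) := by
  have : ∀ p, Finite (g p).Q := fun p => (g p).fin
  have : ∀ p, Finite (NV2 g p) := fun p => inferInstance
  exact inferInstance

/-- The number of vertices of a set in the glued graph. -/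
theorem glue2_verts [Finite V0] [Finite U] [Fintype P] (S : Set (Tot2 g V0)) :
    S.ncard = (Sum.inl ⁻¹' S : Set (V0 ⊕ U)).ncard +
      ∑ p, (newS (g p).r (g p).β (psi2 pt g p ⁻¹' S)).ncard := by
  have hfin : ∀ p, Finite (NV2 g p) := fun p => by
    have := (g p).fin
    exact inferInstance
  rw [ncard_sum', ncard_sigma']
  congr 1
  apply Finset.sum_congr rfl
  intro p _
  rw [← Set.ncard_image_of_injective _ (Subtype.val_injective)]
  congr 1
  ext v
  simp only [Set.mem_image, Set.mem_preimage, Subtype.exists, exists_and_right, exists_eq_right,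
    newS, Set.mem_setOf_eq]
  constructor
  · rintro ⟨h1, h2⟩
    refine ⟨?_, h1⟩
    rw [psi2_new pt g p v h1.1 h1.2]
    exact h2
  · rintro ⟨h1, h2⟩
    refine ⟨h2, ?_⟩
    rw [psi2_new pt g p v h2.1 h2.2] at h1
    exact h1

/-- The number of edges outside the base in the glued graph. -/
theorem glue2_edges [Finite V0] [Finite U] [Fintype P] (S : Set (Tot2 g V0)) :
    (exS (glue2 pt g K) (bt g) S).ncard ≤
      (exS K (⟨Sum.inr, Sum.inr_injective⟩ : U ↪ V0 ⊕ U) (Sum.inl ⁻¹' S)).ncard +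
      ∑ p, (exS (g p).Γ (g p).β (psi2 pt g p ⁻¹' S)).ncard := by
  have hfin : ∀ p, Finite (g p).Q := fun p => (g p).fin
  have hfinT : Finite (Tot2 g V0) := glue2_finite g
  have hsub : exS (glue2 pt g K) (bt g) S ⊆
      (Sym2.map Sum.inl ''
        (exS K (⟨Sum.inr, Sum.inr_injective⟩ : U ↪ V0 ⊕ U) (Sum.inl ⁻¹' S))) ∪
      ⋃ p, (Sym2.map (psi2 pt g p) '' (exS (g p).Γ (g p).β (psi2 pt g p ⁻¹' S))) := by
    intro e he
    obtain ⟨he1, he2, he3⟩ := he
    induction e using Sym2.ind with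
    | _ z z' =>
      have hz : z ∈ S := he2 z (Sym2.mem_mk_left _ _)
      have hz' : z' ∈ S := he2 z' (Sym2.mem_mk_right _ _)
      obtain ⟨w0, hw0, hw1⟩ := he3
      rcases he1 with ⟨v, v', h, rfl, rfl⟩ | ⟨p, v, v', h, rfl, rfl⟩
      · left
        refine ⟨s(v, v'), ⟨h, ?_, ?_⟩, by rw [Sym2.map_mk]⟩
        · intro w hw
          rw [Sym2.mem_iff] at hw
          rcases hw with rfl | rfl
          · exact hz
          · exact hz'
        · rw [Sym2.mem_iff] at hw0
          rcases hw0 with rfl | rfl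
          · refine ⟨v, Sym2.mem_mk_left _ _, ?_⟩
            rintro ⟨a, ha⟩
            exact hw1 ⟨a, congrArg Sum.inl ha⟩
          · refine ⟨v', Sym2.mem_mk_right _ _, ?_⟩
            rintro ⟨a, ha⟩
            exact hw1 ⟨a, congrArg Sum.inl ha⟩
      · right
        rw [Set.mem_iUnion]
        refine ⟨p, s(v, v'), ⟨h, ?_, ?_⟩, by rw [Sym2.map_mk]⟩
        · intro w hw
          rw [Sym2.mem_iff] at hw
          rcases hw with rfl | rfl
          · exact hz
          · exact hz'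
        · rw [Sym2.mem_iff] at hw0
          rcases hw0 with rfl | rfl
          · refine ⟨v, Sym2.mem_mk_left _ _, ?_⟩
            rintro ⟨a, ha⟩
            apply hw1
            refine ⟨a, ?_⟩
            rw [← ha, psi2_β]
            rfl
          · refine ⟨v', Sym2.mem_mk_right _ _, ?_⟩
            rintro ⟨a, ha⟩
            apply hw1
            refine ⟨a, ?_⟩
            rw [← ha, psi2_β]
            rfl
  calc (exS (glue2 pt g K) (bt g) S).ncard ≤ _ := Set.ncard_le_ncard hsub (Set.toFinite _)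
    _ ≤ (Sym2.map Sum.inl ''
        (exS K (⟨Sum.inr, Sum.inr_injective⟩ : U ↪ V0 ⊕ U) (Sum.inl ⁻¹' S))).ncard +
        (⋃ p, (Sym2.map (psi2 pt g p) ''
          (exS (g p).Γ (g p).β (psi2 pt g p ⁻¹' S)))).ncard := Set.ncard_union_le _ _
    _ ≤ _ := by
        apply Nat.add_le_add
        · exact Set.ncard_image_le (Set.toFinite _)
        · refine le_trans (Set.ncard_iUnion_le_of_fintype _) ?_
          exact Finset.sum_le_sum (fun p _ => Set.ncard_image_le (Set.toFinite _))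

open Classical in
theorem glue2_sum [Fintype P] (S : Set (Tot2 g V0)) :
    ((∑ p, (exS (g p).Γ (g p).β (psi2 pt g p ⁻¹' S)).ncard : ℕ) : ℝ) ≤
      θ * ((∑ p, (newS (g p).r (g p).β (psi2 pt g p ⁻¹' S)).ncard : ℕ) : ℝ) +
      ∑ p, (if Sum.inl (Sum.inl (pt p)) ∈ S then cc p else 0) := by
  push_cast
  rw [Finset.mul_sum, ← Finset.sum_add_distrib]
  apply Finset.sum_le_sum
  intro p _
  have h2 := (g p).cnt (psi2 pt g p ⁻¹' S)
  have h3 : (g p).r ∈ psi2 pt g p ⁻¹' S ↔ Sum.inl (Sum.inl (pt p)) ∈ S := by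
    rw [Set.mem_preimage, psi2_r]
  simp only [h3] at h2
  exact h2

open Classical in
/-- Building a gadget from a core graph and gadgets. -/
theorem gad_build [Finite V0] [Finite U] [Fintype P]
    (hK : ∀ a b, K.Adj (Sum.inr a) (Sum.inr b) ↔ B.Adj a b) (v0 : V0) (T : Set U) (c : ℝ)
    (hact : ∀ t ∈ T, Act H (glue2 pt g K) (Sum.inl (Sum.inl v0)) (bt g t))
    (hcnt : ∀ S0 : Set (V0 ⊕ U),
      ((exS K (⟨Sum.inr, Sum.inr_injective⟩ : U ↪ V0 ⊕ U) S0).ncard : ℝ) +
        ∑ p, (if Sum.inl (pt p) ∈ S0 then cc p else 0) ≤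
      θ * (({v : V0 | Sum.inl v ∈ S0 ∧ v ≠ v0} : Set V0).ncard : ℝ) +
        (if Sum.inl v0 ∈ S0 then c else 0)) :
    Nonempty (Gad H B T θ c) := by
  refine ⟨{ Q := Tot2 g V0, fin := glue2_finite g, Γ := glue2 pt g K,
            r := Sum.inl (Sum.inl v0), β := bt g, hr := fun a => by simp [bt],
            hB := glue2_base_iff pt g K hK, act := hact, cnt := ?_ }⟩
  intro S
  have h1 := glue2_edges pt g K S
  have h2 := glue2_sum pt g S
  have h3 := hcnt (Sum.inl ⁻¹' S)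
  have h4 := glue2_verts pt g (newS (Sum.inl (Sum.inl v0)) (bt g) S)
  have hv1 : (Sum.inl ⁻¹' (newS (Sum.inl (Sum.inl v0)) (bt g) S) : Set (V0 ⊕ U)).ncard =
      ({v : V0 | Sum.inl v ∈ (Sum.inl ⁻¹' S : Set (V0 ⊕ U)) ∧ v ≠ v0} : Set V0).ncard := by
    rw [← Set.ncard_image_of_injective _ (Sum.inl_injective (α := V0) (β := U))]
    congr 1
    ext z
    simp only [newS, Set.mem_preimage, Set.mem_setOf_eq, Set.mem_image]
    constructor
    · rintro ⟨h5, h6, h7⟩
      rcases z with v | a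
      · exact ⟨v, ⟨h5, fun h => h6 (by rw [h])⟩, rfl⟩
      · exact absurd ⟨a, rfl⟩ h7
    · rintro ⟨v, ⟨h5, h6⟩, rfl⟩
      refine ⟨h5, fun h => h6 (Sum.inl.inj (Sum.inl.inj h)), ?_⟩
      rintro ⟨a, ha⟩
      exact absurd ha (by simp [bt])
  have hv3 : ∀ p, newS (g p).r (g p).β (psi2 pt g p ⁻¹' (newS (Sum.inl (Sum.inl v0)) (bt g) S)) =
      newS (g p).r (g p).β (psi2 pt g p ⁻¹' S) := by
    intro p
    ext v
    constructor
    · rintro ⟨h1, h2, h3⟩
      exact ⟨h1.1, h2, h3⟩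
    · rintro ⟨h1, h2, h3⟩
      refine ⟨⟨h1, ?_, ?_⟩, h2, h3⟩
      · rw [psi2_new pt g p v h2 h3]
        simp
      · rw [psi2_new pt g p v h2 h3]
        rintro ⟨a, ha⟩
        exact absurd ha (by simp [bt])
  rw [hv1] at h4
  simp only [hv3] at h4
  rw [h4]
  have h1' : ((exS (glue2 pt g K) (bt g) S).ncard : ℝ) ≤
      ((exS K (⟨Sum.inr, Sum.inr_injective⟩ : U ↪ V0 ⊕ U) (Sum.inl ⁻¹' S)).ncard : ℝ) +
      ((∑ p, (exS (g p).Γ (g p).β (psi2 pt g p ⁻¹' S)).ncard : ℕ) : ℝ) := by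
    exact_mod_cast h1
  have h5 : ∀ p, (Sum.inl (pt p) ∈ (Sum.inl ⁻¹' S : Set (V0 ⊕ U))) =
      (Sum.inl (Sum.inl (pt p)) ∈ S) := fun p => rfl
  have h6 : (Sum.inl v0 ∈ (Sum.inl ⁻¹' S : Set (V0 ⊕ U))) = (Sum.inl (Sum.inl v0) ∈ S) := rfl
  simp only [h5, h6] at h3
  push_cast at h1' h2 ⊢
  rw [mul_add]
  linarith

end Glue2

end Pool.Agent.HA60
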