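import Pool.Agent.HA60.Defs

set_option autoImplicit false

namespace Pool.Agent.HA60

/-- `f` is a retraction of `H` onto `X ∪ Y`, where `X` and `Y` are disjoint, and `f` maps all
vertices outside `Y` into `X`. -/
structure Retr {W : Type} (H : SimpleGraph W) (X Y : Set W) (f : W → W) : Prop where
  hom : ∀ a b, H.Adj a b → H.Adj (f a) (f b)
  fX : ∀ v ∈ X, f v = v
  fY : ∀ v ∈ Y, f v = v
  toX : ∀ v, v ∉ Y → f v ∈ X
  disj : ∀ v ∈ X, v ∉ Y

end Pool.Agent.HA60
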