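import Pool.Agent.HA60.R1
import Pool.Agent.HA60.RetrDefs

set_option autoImplicit false

/-!
The activation argument for a retraction `f` of `H` onto `X ∪ Y`.
-/

namespace Pool.Agent.HA60

open SimpleGraph

variable {W V : Type}

/-- The base: the original copy of `H` and the twins `(x, β, v)` of `x`. -/
abbrev BU (W : Type) : Type := W ⊕ (W × (Bool × W))

/-- The activated pairs between base vertices. -/
structure BaseAct (H : SimpleGraph W) (X : Set W) (G : SimpleGraph V) (κ : BU W ↪ V) : Prop where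
  f0 : ∀ a b, H.Adj a b → Act H G (κ (Sum.inl a)) (κ (Sum.inl b))
  f1 : ∀ x ∈ X, ∀ i b, H.Adj x b → Act H G (κ (Sum.inr (x, i))) (κ (Sum.inl b))
  f2 : ∀ x ∈ X, ∀ x' ∈ X, H.Adj x x' → ∀ i i',
    Act H G (κ (Sum.inr (x, i))) (κ (Sum.inr (x', i')))

/-- `z` is joined to all the neighbours which `x` should have. -/
def Good (H : SimpleGraph W) (X Y : Set W) (G : SimpleGraph V) (κ : BU W ↪ V) (x : W) (z : V) :
    Prop :=
  (∀ y ∈ Y, H.Adj x y → Act H G z (κ (Sum.inl y))) ∧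
    (∀ x' ∈ X, H.Adj x x' → ∀ i, Act H G z (κ (Sum.inr (x', i))))

/-- `z` may be used as a vertex of the class `x`. -/
def PG (H : SimpleGraph W) (X Y : Set W) (G : SimpleGraph V) (κ : BU W ↪ V) (x : W) (z : V) :
    Prop :=
  (∃ i, z = κ (Sum.inr (x, i))) ∨ (z ∉ Set.range κ ∧ Good H X Y G κ x z)

section Ctx

variable [Finite W] {H : SimpleGraph W} {X Y : Set W} {f : W → W} {G : SimpleGraph V}
  {κ : BU W ↪ V}

theorem good_base (hb : BaseAct H X G κ) {x : W} (hx : x ∈ X) (i : Bool × W) :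
    Good H X Y G κ x (κ (Sum.inr (x, i))) :=
  ⟨fun y _ hxy => hb.f1 x hx i y hxy, fun x' hx' hxx i' => hb.f2 x hx x' hx' hxx i i'⟩

theorem pg_good (hb : BaseAct H X G κ) {x : W} (hx : x ∈ X) {z : V}
    (h : PG H X Y G κ x z) : Good H X Y G κ x z := by
  rcases h with ⟨i, rfl⟩ | ⟨_, h⟩
  · exact good_base hb hx i
  · exact h

/-- Two good new vertices of adjacent classes become adjacent. -/
theorem good_good (hR : Retr H X Y f) (hb : BaseAct H X G κ) {x x' : W} (hx : x ∈ X)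
    (hx' : x' ∈ X) (hxx : H.Adj x x') {z z' : V} (hz : z ∉ Set.range κ) (hz' : z' ∉ Set.range κ)
    (hne : z ≠ z') (h : Good H X Y G κ x z) (h' : Good H X Y G κ x' z') : Act H G z z' := by
  classical
  let F : W → V := fun v => if v = x then z else if v = x' then z' else
    if v ∈ Y then κ (Sum.inl v) else κ (Sum.inr (f v, (false, v)))
  have F1 : F x = z := if_pos rfl
  have F2 : F x' = z' := by
    change (if x' = x then z else if x' = x' then z' else _) = z'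
    rw [if_neg hxx.ne', if_pos rfl]
  have F3 : ∀ v, v ≠ x → v ≠ x' → v ∈ Y → F v = κ (Sum.inl v) := by
    intro v h1 h2 h3
    change (if v = x then z else if v = x' then z' else
      if v ∈ Y then κ (Sum.inl v) else κ (Sum.inr (f v, (false, v)))) = _
    rw [if_neg h1, if_neg h2, if_pos h3]
  have F4 : ∀ v, v ≠ x → v ≠ x' → v ∉ Y → F v = κ (Sum.inr (f v, (false, v))) := by
    intro v h1 h2 h3
    change (if v = x then z else if v = x' then z' else
      if v ∈ Y then κ (Sum.inl v) else κ (Sum.inr (f v, (false, v)))) = _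
    rw [if_neg h1, if_neg h2, if_neg h3]
  have hcase : ∀ v, v = x ∨ v = x' ∨ (v ≠ x ∧ v ≠ x' ∧ v ∈ Y) ∨ (v ≠ x ∧ v ≠ x' ∧ v ∉ Y) := by
    intro v
    by_cases h1 : v = x
    · exact Or.inl h1
    · by_cases h2 : v = x'
      · exact Or.inr (Or.inl h2)
      · by_cases h3 : v ∈ Y
        · exact Or.inr (Or.inr (Or.inl ⟨h1, h2, h3⟩))
        · exact Or.inr (Or.inr (Or.inr ⟨h1, h2, h3⟩))
  have hinj : Function.Injective F := by
    intro v v' hvv
    rcases hcase v with rfl | rfl | ⟨a1, a2, a3⟩ | ⟨a1, a2, a3⟩ <;>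
      rcases hcase v' with rfl | rfl | ⟨b1, b2, b3⟩ | ⟨b1, b2, b3⟩
    · rfl
    · rw [F1, F2] at hvv; exact absurd hvv hne
    · rw [F1, F3 v' b1 b2 b3] at hvv; exact absurd ⟨_, hvv.symm⟩ hz
    · rw [F1, F4 v' b1 b2 b3] at hvv; exact absurd ⟨_, hvv.symm⟩ hz
    · rw [F1, F2] at hvv; exact absurd hvv.symm hne
    · rfl
    · rw [F2, F3 v' b1 b2 b3] at hvv; exact absurd ⟨_, hvv.symm⟩ hz'
    · rw [F2, F4 v' b1 b2 b3] at hvv; exact absurd ⟨_, hvv.symm⟩ hz'
    · rw [F1, F3 v a1 a2 a3] at hvv; exact absurd ⟨_, hvv⟩ hz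
    · rw [F2, F3 v a1 a2 a3] at hvv; exact absurd ⟨_, hvv⟩ hz'
    · rw [F3 v a1 a2 a3, F3 v' b1 b2 b3] at hvv
      exact Sum.inl.inj (κ.injective hvv)
    · rw [F3 v a1 a2 a3, F4 v' b1 b2 b3] at hvv
      exact absurd (κ.injective hvv) (by simp)
    · rw [F1, F4 v a1 a2 a3] at hvv; exact absurd ⟨_, hvv⟩ hz
    · rw [F2, F4 v a1 a2 a3] at hvv; exact absurd ⟨_, hvv⟩ hz'
    · rw [F4 v a1 a2 a3, F3 v' b1 b2 b3] at hvv
      exact absurd (κ.injective hvv) (by simp)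
    · rw [F4 v a1 a2 a3, F4 v' b1 b2 b3] at hvv
      have h9 := Sum.inr.inj (κ.injective hvv)
      exact (Prod.mk.inj (Prod.mk.inj h9).2).2
  -- adjacency of a good vertex with the other vertices
  have hgood : ∀ (p : W) (w : V), p ∈ X → Good H X Y G κ p w → ∀ d, d ≠ x → d ≠ x' →
      H.Adj p d → Act H G w (F d) := by
    intro p w hp hw d d1 d2 hpd
    by_cases hd : d ∈ Y
    · rw [F3 d d1 d2 hd]
      exact hw.1 d hd hpd
    · rw [F4 d d1 d2 hd]
      apply hw.2 (f d) (hR.toX d hd)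
      have := hR.hom p d hpd
      rwa [hR.fX p hp] at this
  have hact := act_complete (G := G) ⟨F, hinj⟩ hxx (by
    intro c d hcd hne2
    change Act H G (F c) (F d)
    have hrest : ∀ c d, H.Adj c d → c ≠ x → c ≠ x' → d ≠ x → d ≠ x' → Act H G (F c) (F d) := by
      intro c d hcd c1 c2 d1 d2
      by_cases hc : c ∈ Y
      · rw [F3 c c1 c2 hc]
        by_cases hd : d ∈ Y
        · rw [F3 d d1 d2 hd]
          exact hb.f0 c d hcd
        · rw [F4 d d1 d2 hd]
          apply act_symm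
          apply hb.f1 _ (hR.toX d hd)
          have := hR.hom d c hcd.symm
          rwa [hR.fY c hc] at this
      · rw [F4 c c1 c2 hc]
        by_cases hd : d ∈ Y
        · rw [F3 d d1 d2 hd]
          apply hb.f1 _ (hR.toX c hc)
          have := hR.hom c d hcd
          rwa [hR.fY d hd] at this
        · rw [F4 d d1 d2 hd]
          exact hb.f2 _ (hR.toX c hc) _ (hR.toX d hd) (hR.hom c d hcd) _ _
    by_cases c1 : c = x
    · by_cases d2 : d = x'
      · exact absurd (by rw [c1, d2]) hne2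
      · rw [c1, F1]
        rw [c1] at hcd
        exact hgood x z hx h d hcd.ne' d2 hcd
    · by_cases c2 : c = x'
      · by_cases d1 : d = x
        · exact absurd (by rw [c2, d1]; exact Sym2.eq_swap) hne2
        · rw [c2, F2]
          rw [c2] at hcd
          exact hgood x' z' hx' h' d d1 hcd.ne' hcd
      · by_cases d1 : d = x
        · rw [d1, F1]
          rw [d1] at hcd
          exact act_symm (hgood x z hx h c c1 c2 hcd.symm)
        · by_cases d2 : d = x'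
          · rw [d2, F2]
            rw [d2] at hcd
            exact act_symm (hgood x' z' hx' h' c c1 c2 hcd.symm)
          · exact hrest c d hcd c1 c2 d1 d2)
  change Act H G (F x) (F x') at hact
  rw [F1, F2] at hact
  exact hact

theorem pg_pg (hR : Retr H X Y f) (hb : BaseAct H X G κ) {x x' : W} (hx : x ∈ X)
    (hx' : x' ∈ X) (hxx : H.Adj x x') {z z' : V} (hne : z ≠ z')
    (h : PG H X Y G κ x z) (h' : PG H X Y G κ x' z') : Act H G z z' := by
  rcases h' with ⟨i', rfl⟩ | ⟨h1', h2'⟩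
  · exact (pg_good hb hx h).2 x' hx' hxx i'
  · rcases h with ⟨i, rfl⟩ | ⟨h1, h2⟩
    · exact act_symm (h2'.2 x hx hxx.symm i)
    · exact good_good hR hb hx hx' hxx h1 h1' hne h2 h2'

/-- The placement lemma. -/
theorem place (hR : Retr H X Y f) (hb : BaseAct H X G κ) (F : W → V)
    (hF : Function.Injective F) {x b₁ : W} (hxb : H.Adj x b₁)
    (hFY : ∀ y ∈ Y, y ≠ x → F y = κ (Sum.inl y))
    (hFX : ∀ v, v ∉ Y → v ≠ x → PG H X Y G κ (f v) (F v))
    (hFx : ∀ b, H.Adj x b → b ≠ b₁ → Act H G (F x) (F b)) : Act H G (F x) (F b₁) := by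
  have hact := act_complete (G := G) ⟨F, hF⟩ hxb (by
    intro c d hcd hne2
    change Act H G (F c) (F d)
    by_cases c1 : c = x
    · rw [c1] at hcd ⊢
      apply hFx d hcd
      rintro rfl
      exact hne2 (by rw [c1])
    · by_cases d1 : d = x
      · rw [d1] at hcd ⊢
        apply act_symm
        apply hFx c hcd.symm
        rintro rfl
        exact hne2 (by rw [d1]; exact Sym2.eq_swap)
      · by_cases hc : c ∈ Y
        · by_cases hd : d ∈ Y
          · rw [hFY c hc c1, hFY d hd d1]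
            exact hb.f0 c d hcd
          · rw [hFY c hc c1]
            apply act_symm
            apply (pg_good hb (hR.toX d hd) (hFX d hd d1)).1 c hc
            have := hR.hom d c hcd.symm
            rwa [hR.fY c hc] at this
        · by_cases hd : d ∈ Y
          · rw [hFY d hd d1]
            apply (pg_good hb (hR.toX c hc) (hFX c hc c1)).1 d hd
            have := hR.hom c d hcd
            rwa [hR.fY d hd] at this
          · exact pg_pg hR hb (hR.toX c hc) (hR.toX d hd) (hR.hom c d hcd)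
              (fun h => hcd.ne (hF h)) (hFX c hc c1) (hFX d hd d1))
  exact hact

/-- A new vertex `r` which is joined to the right vertices becomes good. -/
theorem root_good (hR : Retr H X Y f) (hb : BaseAct H X G κ) {x b₀ : W} (hx : x ∈ X)
    (hb₀ : H.Adj x b₀) {r : V} (hr : r ∉ Set.range κ) (u : W → V)
    (hu1 : ∀ b, H.Adj x b → b ∉ Y → b ≠ b₀ → PG H X Y G κ (f b) (u b) ∧ Act H G r (u b))
    (hu2 : ∀ b b', H.Adj x b → b ∉ Y → b ≠ b₀ → H.Adj x b' → b' ∉ Y → b' ≠ b₀ →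
      u b = u b' → b = b')
    (hu3 : ∀ b, H.Adj x b → b ∉ Y → b ≠ b₀ → ∀ v s, u b = κ (Sum.inr (f v, (s, v))) → b = v)
    (hu4 : ∀ b, H.Adj x b → b ∉ Y → b ≠ b₀ → ∀ v, u b ≠ κ (Sum.inl v))
    (hy : ∀ y ∈ Y, H.Adj x y → y ≠ b₀ → Act H G r (κ (Sum.inl y))) :
    Good H X Y G κ x r := by
  classical
  -- the placements
  have key : ∀ (b₁ : W) (t : V) (s : Bool), H.Adj x b₁ → (b₁ ∈ Y → t = κ (Sum.inl b₁)) →
      (b₁ ∉ Y → PG H X Y G κ (f b₁) t) → t ≠ r →
      (∀ v ∈ Y, v ≠ b₁ → t ≠ κ (Sum.inl v)) →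
      (∀ v, v ≠ b₁ → t ≠ κ (Sum.inr (f v, (s, v)))) →
      (∀ b, H.Adj x b → b ∉ Y → b ≠ b₀ → t ≠ u b) →
      (b₁ ≠ b₀ → (b₀ ∈ Y → Act H G r (κ (Sum.inl b₀))) ∧
        (b₀ ∉ Y → Act H G r (κ (Sum.inr (f b₀, (s, b₀)))))) → Act H G r t := by
    intro b₁ t s hxb ht1 ht2 htr ht3 ht4 ht5 hstep
    have hrx : x ∉ Y := hR.disj x hx
    let F : W → V := fun v => if v = x then r else if v = b₁ then t else
      if v ∈ Y then κ (Sum.inl v) else if H.Adj x v ∧ v ≠ b₀ then u v else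
        κ (Sum.inr (f v, (s, v)))
    have hFdef : ∀ v, F v = if v = x then r else if v = b₁ then t else
      if v ∈ Y then κ (Sum.inl v) else if H.Adj x v ∧ v ≠ b₀ then u v else
        κ (Sum.inr (f v, (s, v))) := fun v => rfl
    have F1 : F x = r := by rw [hFdef, if_pos rfl]
    have F2 : F b₁ = t := by rw [hFdef, if_neg hxb.ne', if_pos rfl]
    have F3 : ∀ v, v ≠ x → v ≠ b₁ → v ∈ Y → F v = κ (Sum.inl v) := by
      intro v h1 h2 h3
      rw [hFdef, if_neg h1, if_neg h2, if_pos h3]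
    have F4 : ∀ v, v ≠ x → v ≠ b₁ → v ∉ Y → (H.Adj x v ∧ v ≠ b₀) → F v = u v := by
      intro v h1 h2 h3 h4
      rw [hFdef, if_neg h1, if_neg h2, if_neg h3, if_pos h4]
    have F5 : ∀ v, v ≠ x → v ≠ b₁ → v ∉ Y → ¬ (H.Adj x v ∧ v ≠ b₀) →
        F v = κ (Sum.inr (f v, (s, v))) := by
      intro v h1 h2 h3 h4
      rw [hFdef, if_neg h1, if_neg h2, if_neg h3, if_neg h4]
    have hur : ∀ b, H.Adj x b → b ∉ Y → b ≠ b₀ → u b ≠ r :=
      fun b h1 h2 h3 => (act_ne (hu1 b h1 h2 h3).2).symm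
    have hcase : ∀ v, v = x ∨ v = b₁ ∨ (v ≠ x ∧ v ≠ b₁ ∧ v ∈ Y) ∨
        (v ≠ x ∧ v ≠ b₁ ∧ v ∉ Y ∧ (H.Adj x v ∧ v ≠ b₀)) ∨
        (v ≠ x ∧ v ≠ b₁ ∧ v ∉ Y ∧ ¬ (H.Adj x v ∧ v ≠ b₀)) := by
      intro v
      by_cases h1 : v = x
      · exact Or.inl h1
      · by_cases h2 : v = b₁
        · exact Or.inr (Or.inl h2)
        · by_cases h3 : v ∈ Y
          · exact Or.inr (Or.inr (Or.inl ⟨h1, h2, h3⟩))
          · by_cases h4 : H.Adj x v ∧ v ≠ b₀
            · exact Or.inr (Or.inr (Or.inr (Or.inl ⟨h1, h2, h3, h4⟩)))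
            · exact Or.inr (Or.inr (Or.inr (Or.inr ⟨h1, h2, h3, h4⟩)))
    have hinj : Function.Injective F := by
      intro v v' hvv
      rcases hcase v with rfl | rfl | ⟨a1, a2, a3⟩ | ⟨a1, a2, a3, a4⟩ | ⟨a1, a2, a3, a4⟩ <;>
        rcases hcase v' with rfl | rfl | ⟨b1, b2, b3⟩ | ⟨b1, b2, b3, b4⟩ | ⟨b1, b2, b3, b4⟩
      · rfl
      · rw [F1, F2] at hvv; exact absurd hvv.symm htr
      · rw [F1, F3 v' b1 b2 b3] at hvv; exact absurd ⟨_, hvv.symm⟩ hr
      · rw [F1, F4 v' b1 b2 b3 b4] at hvv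
        exact absurd hvv.symm (hur v' b4.1 b3 b4.2)
      · rw [F1, F5 v' b1 b2 b3 b4] at hvv; exact absurd ⟨_, hvv.symm⟩ hr
      · rw [F1, F2] at hvv; exact absurd hvv htr
      · rfl
      · rw [F2, F3 v' b1 b2 b3] at hvv; exact absurd hvv (ht3 v' b3 b2)
      · rw [F2, F4 v' b1 b2 b3 b4] at hvv; exact absurd hvv (ht5 v' b4.1 b3 b4.2)
      · rw [F2, F5 v' b1 b2 b3 b4] at hvv; exact absurd hvv (ht4 v' b2)
      · rw [F1, F3 v a1 a2 a3] at hvv; exact absurd ⟨_, hvv⟩ hr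
      · rw [F2, F3 v a1 a2 a3] at hvv; exact absurd hvv.symm (ht3 v a3 a2)
      · rw [F3 v a1 a2 a3, F3 v' b1 b2 b3] at hvv
        exact Sum.inl.inj (κ.injective hvv)
      · rw [F3 v a1 a2 a3, F4 v' b1 b2 b3 b4] at hvv
        exact absurd hvv.symm (hu4 v' b4.1 b3 b4.2 v)
      · rw [F3 v a1 a2 a3, F5 v' b1 b2 b3 b4] at hvv
        exact absurd (κ.injective hvv) (by simp)
      · rw [F1, F4 v a1 a2 a3 a4] at hvv; exact absurd hvv (hur v a4.1 a3 a4.2)
      · rw [F2, F4 v a1 a2 a3 a4] at hvv; exact absurd hvv.symm (ht5 v a4.1 a3 a4.2)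
      · rw [F4 v a1 a2 a3 a4, F3 v' b1 b2 b3] at hvv
        exact absurd hvv (hu4 v a4.1 a3 a4.2 v')
      · rw [F4 v a1 a2 a3 a4, F4 v' b1 b2 b3 b4] at hvv
        exact hu2 v v' a4.1 a3 a4.2 b4.1 b3 b4.2 hvv
      · rw [F4 v a1 a2 a3 a4, F5 v' b1 b2 b3 b4] at hvv
        exact hu3 v a4.1 a3 a4.2 v' s hvv
      · rw [F1, F5 v a1 a2 a3 a4] at hvv; exact absurd ⟨_, hvv⟩ hr
      · rw [F2, F5 v a1 a2 a3 a4] at hvv; exact absurd hvv.symm (ht4 v a2)
      · rw [F5 v a1 a2 a3 a4, F3 v' b1 b2 b3] at hvv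
        exact absurd (κ.injective hvv) (by simp)
      · rw [F5 v a1 a2 a3 a4, F4 v' b1 b2 b3 b4] at hvv
        exact (hu3 v' b4.1 b3 b4.2 v s hvv.symm).symm
      · rw [F5 v a1 a2 a3 a4, F5 v' b1 b2 b3 b4] at hvv
        have h9 := Sum.inr.inj (κ.injective hvv)
        exact (Prod.mk.inj (Prod.mk.inj h9).2).2
    have hfin := place hR hb F hinj hxb (by
      intro y hyY hyx
      by_cases h2 : y = b₁
      · rw [h2, F2]
        exact ht1 (h2 ▸ hyY)
      · exact F3 y hyx h2 hyY) (by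
      intro v hv hvx
      by_cases h2 : v = b₁
      · rw [h2, F2]
        exact ht2 (h2 ▸ hv)
      · by_cases h4 : H.Adj x v ∧ v ≠ b₀
        · rw [F4 v hvx h2 hv h4]
          exact (hu1 v h4.1 hv h4.2).1
        · rw [F5 v hvx h2 hv h4]
          exact Or.inl ⟨_, rfl⟩) (by
      intro b hxb' hb1
      rw [F1]
      by_cases hbY : b ∈ Y
      · rw [F3 b hxb'.ne' hb1 hbY]
        by_cases hb0 : b = b₀
        · rw [hb0] at hb1 hbY ⊢
          exact (hstep (Ne.symm hb1)).1 hbY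
        · exact hy b hbY hxb' hb0
      · by_cases hb0 : b = b₀
        · rw [F5 b hxb'.ne' hb1 hbY (fun h => h.2 hb0)]
          rw [hb0] at hb1 hbY ⊢
          exact (hstep (Ne.symm hb1)).2 hbY
        · rw [F4 b hxb'.ne' hb1 hbY ⟨hxb', hb0⟩]
          exact (hu1 b hxb' hbY hb0).2)
    rw [F1, F2] at hfin
    exact hfin
  -- targets in the classes
  have key2 : ∀ (b₁ : W), H.Adj x b₁ → b₁ ∉ Y →
      (b₁ ≠ b₀ → (b₀ ∈ Y → Act H G r (κ (Sum.inl b₀))) ∧
        (b₀ ∉ Y → ∀ i, Act H G r (κ (Sum.inr (f b₀, i))))) →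
      ∀ i, Act H G r (κ (Sum.inr (f b₁, i))) := by
    rintro b₁ hxb hbY hstep ⟨s, v⟩
    by_cases hex : ∃ b, H.Adj x b ∧ b ∉ Y ∧ b ≠ b₀ ∧ κ (Sum.inr (f b₁, (s, v))) = u b
    · obtain ⟨b, h1, h2, h3, h4⟩ := hex
      rw [h4]
      exact (hu1 b h1 h2 h3).2
    · apply key b₁ _ (!s) hxb (fun h => absurd h hbY) (fun _ => Or.inl ⟨_, rfl⟩)
        (fun h => hr ⟨_, h⟩)
      · intro v' _ _ h
        exact absurd (κ.injective h) (by simp)
      · intro v' _ h
        have h9 := Sum.inr.inj (κ.injective h)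
        have h10 := (Prod.mk.inj (Prod.mk.inj h9).2).1
        cases s <;> simp at h10
      · intro b h1 h2 h3 h4
        exact hex ⟨b, h1, h2, h3, h4⟩
      · intro h
        exact ⟨(hstep h).1, fun h2 => (hstep h).2 h2 _⟩
  have hs1 : b₀ ∈ Y → Act H G r (κ (Sum.inl b₀)) := by
    intro h
    apply key b₀ _ false hb₀ (fun _ => rfl) (fun h2 => absurd h h2) (fun h2 => hr ⟨_, h2⟩)
    · intro v _ hv h2
      exact hv (Sum.inl.inj (κ.injective h2)).symm
    · intro v _ h2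
      exact absurd (κ.injective h2) (by simp)
    · intro b h1 h2 h3 h4
      exact hu4 b h1 h2 h3 b₀ h4.symm
    · intro h2
      exact absurd rfl h2
  have hs2 : b₀ ∉ Y → ∀ i, Act H G r (κ (Sum.inr (f b₀, i))) := fun h =>
    key2 b₀ hb₀ h (fun h2 => absurd rfl h2)
  refine ⟨?_, ?_⟩
  · intro y hyY hxy
    by_cases h : y = b₀
    · rw [h] at hyY ⊢
      exact hs1 hyY
    · exact hy y hyY hxy h
  · intro x' hx' hxx i
    have h1 : x' ∉ Y := hR.disj x' hx'
    have h2 := key2 x' hxx h1 (fun _ => ⟨hs1, hs2⟩) i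
    rwa [hR.fX x' hx'] at h2

end Ctx

end Pool.Agent.HA60
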