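import Pool.Agent.HA60.R2

set_option autoImplicit false

/-!
The base graph with the twins, and the recursion for the gadgets.
-/

namespace Pool.Agent.HA60

open SimpleGraph

variable {W U V : Type}

/-! ### The base graph -/

/-- The base graph: `H - ab`, and for `x ∈ X` the twins `(x, i)` joined to all neighbours of `x`
except `b₀ x`. -/
def baseG (H : SimpleGraph W) (a b : W) (X : Set W) (b₀ : W → W) : SimpleGraph (BU W) where
  Adj := fun p r => match p, r with
    | Sum.inl c, Sum.inl d => (H.deleteEdges {s(a, b)}).Adj c d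
    | Sum.inl c, Sum.inr xi => xi.1 ∈ X ∧ H.Adj xi.1 c ∧ c ≠ b₀ xi.1
    | Sum.inr xi, Sum.inl c => xi.1 ∈ X ∧ H.Adj xi.1 c ∧ c ≠ b₀ xi.1
    | Sum.inr _, Sum.inr _ => False
  symm := ⟨by
    rintro (c | xi) (d | xj) h
    · exact (show (H.deleteEdges {s(a, b)}).Adj c d from h).symm
    · exact h
    · exact h
    · exact h⟩
  loopless := ⟨by
    rintro (c | xi) h
    · exact (H.deleteEdges {s(a, b)}).loopless.irrefl c h
    · exact h⟩

section Base

variable [Finite W] {H : SimpleGraph W} {a b : W} {X Y : Set W} {b₀ : W → W}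

theorem baseG_f0 (hab : H.Adj a b) {c d : W} (hcd : H.Adj c d) :
    Act H (baseG H a b X b₀) (Sum.inl c) (Sum.inl d) :=
  act_map (G' := baseG H a b X b₀) (⟨Sum.inl, Sum.inl_injective⟩ : W ↪ BU W)
    (fun _ _ h => h) (act_all hab hcd)

theorem baseG_f1 (hab : H.Adj a b) (hb₀ : ∀ x c, H.Adj x c → H.Adj x (b₀ x)) {x : W}
    (hx : x ∈ X) (i : Bool × W) {c : W} (hxc : H.Adj x c) :
    Act H (baseG H a b X b₀) (Sum.inr (x, i)) (Sum.inl c) := by
  classical
  by_cases hc : c = b₀ x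
  · let F : W → BU W := fun v => if v = x then Sum.inr (x, i) else Sum.inl v
    have F1 : F x = Sum.inr (x, i) := if_pos rfl
    have F2 : ∀ v, v ≠ x → F v = Sum.inl v := fun v hv => if_neg hv
    have hinj : Function.Injective F := by
      intro v v' hvv
      by_cases h1 : v = x <;> by_cases h2 : v' = x
      · rw [h1, h2]
      · rw [h1, F1, F2 v' h2] at hvv; exact absurd hvv (by simp)
      · rw [h2, F1, F2 v h1] at hvv; exact absurd hvv (by simp)
      · rw [F2 v h1, F2 v' h2] at hvv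
        exact Sum.inl.inj hvv
    have hact := act_complete (G := baseG H a b X b₀) ⟨F, hinj⟩ (hb₀ x c hxc) (by
      intro p r hpr hne
      change Act H _ (F p) (F r)
      by_cases h1 : p = x
      · have h2 : r ≠ x := fun h2 => hpr.ne (h1.trans h2.symm)
        rw [h1, F1, F2 r h2]
        rw [h1] at hpr hne
        apply act_of_adj
        refine ⟨hx, hpr, ?_⟩
        rintro rfl
        exact hne rfl
      · by_cases h2 : r = x
        · rw [h2, F1, F2 p h1]
          rw [h2] at hpr hne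
          apply act_of_adj
          refine ⟨hx, hpr.symm, ?_⟩
          rintro rfl
          exact hne Sym2.eq_swap
        · rw [F2 p h1, F2 r h2]
          exact baseG_f0 hab hpr)
    change Act H _ (F x) (F (b₀ x)) at hact
    rw [F1, F2 (b₀ x) (hb₀ x c hxc).ne', ← hc] at hact
    exact hact
  · exact act_of_adj ⟨hx, hxc, hc⟩

theorem baseG_f2 (hab : H.Adj a b) (hb₀ : ∀ x c, H.Adj x c → H.Adj x (b₀ x)) {x x' : W}
    (hx : x ∈ X) (hx' : x' ∈ X) (hxx : H.Adj x x') (i i' : Bool × W) :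
    Act H (baseG H a b X b₀) (Sum.inr (x, i)) (Sum.inr (x', i')) := by
  classical
  let F : W → BU W := fun v => if v = x then Sum.inr (x, i) else
    if v = x' then Sum.inr (x', i') else Sum.inl v
  have F1 : F x = Sum.inr (x, i) := if_pos rfl
  have F2 : F x' = Sum.inr (x', i') := by
    change (if x' = x then _ else if x' = x' then _ else _) = _
    rw [if_neg hxx.ne', if_pos rfl]
  have F3 : ∀ v, v ≠ x → v ≠ x' → F v = Sum.inl v := by
    intro v h1 h2
    change (if v = x then _ else if v = x' then _ else _) = _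
    rw [if_neg h1, if_neg h2]
  have hne' : (Sum.inr (x, i) : BU W) ≠ Sum.inr (x', i') := by
    intro h
    exact hxx.ne (Prod.mk.inj (Sum.inr.inj h)).1
  have hinj : Function.Injective F := by
    intro v v' hvv
    by_cases h1 : v = x
    · by_cases h2 : v' = x
      · rw [h1, h2]
      · by_cases h3 : v' = x'
        · rw [h1, h3, F1, F2] at hvv; exact absurd hvv hne'
        · rw [h1, F1, F3 v' h2 h3] at hvv; exact absurd hvv (by simp)
    · by_cases h1' : v = x'
      · by_cases h2 : v' = x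
        · rw [h1', h2, F1, F2] at hvv; exact absurd hvv.symm hne'
        · by_cases h3 : v' = x'
          · rw [h1', h3]
          · rw [h1', F2, F3 v' h2 h3] at hvv; exact absurd hvv (by simp)
      · by_cases h2 : v' = x
        · rw [h2, F1, F3 v h1 h1'] at hvv; exact absurd hvv (by simp)
        · by_cases h3 : v' = x'
          · rw [h3, F2, F3 v h1 h1'] at hvv; exact absurd hvv (by simp)
          · rw [F3 v h1 h1', F3 v' h2 h3] at hvv
            exact Sum.inl.inj hvv
  have hact := act_complete (G := baseG H a b X b₀) ⟨F, hinj⟩ hxx (by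
    intro p r hpr hne
    change Act H _ (F p) (F r)
    by_cases h1 : p = x
    · have h2 : r ≠ x := fun h2 => hpr.ne (h1.trans h2.symm)
      have h3 : r ≠ x' := by
        rintro rfl
        exact hne (by rw [h1])
      rw [h1, F1, F3 r h2 h3]
      rw [h1] at hpr
      exact baseG_f1 hab hb₀ hx i hpr
    · by_cases h1' : p = x'
      · have h2 : r ≠ x' := fun h2 => hpr.ne (h1'.trans h2.symm)
        have h3 : r ≠ x := by
          rintro rfl
          exact hne (by rw [h1']; exact Sym2.eq_swap)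
        rw [h1', F2, F3 r h3 h2]
        rw [h1'] at hpr
        exact baseG_f1 hab hb₀ hx' i' hpr
      · rw [F3 p h1 h1']
        by_cases h2 : r = x
        · rw [h2, F1]
          rw [h2] at hpr
          exact act_symm (baseG_f1 hab hb₀ hx i hpr.symm)
        · by_cases h3 : r = x'
          · rw [h3, F2]
            rw [h3] at hpr
            exact act_symm (baseG_f1 hab hb₀ hx' i' hpr.symm)
          · rw [F3 r h2 h3]
            exact baseG_f0 hab hpr)
  change Act H _ (F x) (F x') at hact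
  rw [F1, F2] at hact
  exact hact

/-- The number of edges of the base graph inside a set. -/
theorem baseG_count {M : ℝ} {k : ℕ} (hM : maxDens (H.deleteEdges {s(a, b)}) ≤ M)
    (hk : (k : ℝ) ≤ M) (hX : ∀ x ∈ X, ({c | H.Adj x c ∧ c ≠ b₀ x} : Set W).ncard ≤ k)
    (S : Set (BU W)) :
    ((({e | e ∈ (baseG H a b X b₀).edgeSet ∧ ∀ v ∈ e, v ∈ S} : Set (Sym2 (BU W))).ncard : ℕ) : ℝ)
      ≤ M * S.ncard := by
  classical
  have := Fintype.ofFinite W
  have hsub : ({e | e ∈ (baseG H a b X b₀).edgeSet ∧ ∀ v ∈ e, v ∈ S} : Set (Sym2 (BU W))) ⊆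
      (Sym2.map Sum.inl '' {e | e ∈ (H.deleteEdges {s(a, b)}).edgeSet ∧
        ∀ v ∈ e, v ∈ (Sum.inl ⁻¹' S : Set W)}) ∪
      ⋃ p : W × (Bool × W), (if Sum.inr p ∈ S ∧ p.1 ∈ X then
        (fun c => s((Sum.inr p : BU W), Sum.inl c)) '' {c | H.Adj p.1 c ∧ c ≠ b₀ p.1} else ∅) := by
    rintro e ⟨h1, h2⟩
    induction e using Sym2.ind with
    | _ p r =>
      have hp : p ∈ S := h2 p (Sym2.mem_mk_left _ _)
      have hr : r ∈ S := h2 r (Sym2.mem_mk_right _ _)
      have hadj : (baseG H a b X b₀).Adj p r := h1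
      rcases p with c | p <;> rcases r with d | r
      · left
        refine ⟨s(c, d), ⟨hadj, ?_⟩, by rw [Sym2.map_mk]⟩
        intro w hw
        rw [Sym2.mem_iff] at hw
        rcases hw with rfl | rfl
        · exact hp
        · exact hr
      · right
        have h3 : r.1 ∈ X ∧ H.Adj r.1 c ∧ c ≠ b₀ r.1 := hadj
        rw [Set.mem_iUnion]
        refine ⟨r, ?_⟩
        rw [if_pos ⟨hr, h3.1⟩]
        exact ⟨c, h3.2, Sym2.eq_swap⟩
      · right
        have h3 : p.1 ∈ X ∧ H.Adj p.1 d ∧ d ≠ b₀ p.1 := hadj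
        rw [Set.mem_iUnion]
        refine ⟨p, ?_⟩
        rw [if_pos ⟨hp, h3.1⟩]
        exact ⟨d, h3.2, rfl⟩
      · exact absurd hadj (fun h => h)
  have h1 := Set.ncard_le_ncard hsub (Set.toFinite _)
  have h2 := le_trans h1 (Set.ncard_union_le _ _)
  have h3 : (Sym2.map (Sum.inl : W → BU W) '' {e | e ∈ (H.deleteEdges {s(a, b)}).edgeSet ∧
      ∀ v ∈ e, v ∈ (Sum.inl ⁻¹' S : Set W)}).ncard ≤
      ({e | e ∈ (H.deleteEdges {s(a, b)}).edgeSet ∧
        ∀ v ∈ e, v ∈ (Sum.inl ⁻¹' S : Set W)} : Set (Sym2 W)).ncard :=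
    Set.ncard_image_le (Set.toFinite _)
  have h4 : (⋃ p : W × (Bool × W), (if Sum.inr p ∈ S ∧ p.1 ∈ X then
        (fun c => s((Sum.inr p : BU W), Sum.inl c)) '' {c | H.Adj p.1 c ∧ c ≠ b₀ p.1} else ∅ :
        Set (Sym2 (BU W)))).ncard ≤ ∑ p : W × (Bool × W), if Sum.inr p ∈ S then k else 0 := by
    refine le_trans (Set.ncard_iUnion_le_of_fintype _) ?_
    apply Finset.sum_le_sum
    intro p _
    by_cases hp : Sum.inr p ∈ S ∧ p.1 ∈ X
    · rw [if_pos hp, if_pos hp.1]
      exact le_trans (Set.ncard_image_le (Set.toFinite _)) (hX p.1 hp.2)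
    · rw [if_neg hp, Set.ncard_empty]
      exact Nat.zero_le _
  have h5 : (∑ p : W × (Bool × W), if (Sum.inr p : BU W) ∈ S then k else 0) =
      (Sum.inr ⁻¹' S : Set (W × (Bool × W))).ncard * k := by
    rw [Finset.sum_ite, Finset.sum_const_zero, add_zero, Finset.sum_const, smul_eq_mul]
    congr 1
    rw [Set.ncard_eq_toFinset_card']
    congr 1
    ext p
    simp
  have h6 := inside_le (H.deleteEdges {s(a, b)}) (Sum.inl ⁻¹' S : Set W)
  have h7 := ncard_sum' S
  have h8 : ((({e | e ∈ (baseG H a b X b₀).edgeSet ∧ ∀ v ∈ e, v ∈ S} :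
      Set (Sym2 (BU W))).ncard : ℕ) : ℝ) ≤
      ((({e | e ∈ (H.deleteEdges {s(a, b)}).edgeSet ∧
        ∀ v ∈ e, v ∈ (Sum.inl ⁻¹' S : Set W)} : Set (Sym2 W)).ncard : ℕ) : ℝ) +
      ((Sum.inr ⁻¹' S : Set (W × (Bool × W))).ncard : ℝ) * (k : ℝ) := by
    have : ({e | e ∈ (baseG H a b X b₀).edgeSet ∧ ∀ v ∈ e, v ∈ S} : Set (Sym2 (BU W))).ncard ≤
      ({e | e ∈ (H.deleteEdges {s(a, b)}).edgeSet ∧
        ∀ v ∈ e, v ∈ (Sum.inl ⁻¹' S : Set W)} : Set (Sym2 W)).ncard +
      (Sum.inr ⁻¹' S : Set (W × (Bool × W))).ncard * k := by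
      rw [← h5]
      exact le_trans h2 (Nat.add_le_add h3 h4)
    exact_mod_cast this
  rw [h7]
  push_cast
  have h9 : maxDens (H.deleteEdges {s(a, b)}) * ((Sum.inl ⁻¹' S : Set W).ncard : ℝ) ≤
      M * ((Sum.inl ⁻¹' S : Set W).ncard : ℝ) :=
    mul_le_mul_of_nonneg_right hM (Nat.cast_nonneg _)
  have h10 : ((Sum.inr ⁻¹' S : Set (W × (Bool × W))).ncard : ℝ) * (k : ℝ) ≤
      ((Sum.inr ⁻¹' S : Set (W × (Bool × W))).ncard : ℝ) * M :=
    mul_le_mul_of_nonneg_left hk (Nat.cast_nonneg _)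
  have h11 : M * (((Sum.inl ⁻¹' S : Set W).ncard : ℝ) +
      ((Sum.inr ⁻¹' S : Set (W × (Bool × W))).ncard : ℝ)) =
      M * ((Sum.inl ⁻¹' S : Set W).ncard : ℝ) +
      ((Sum.inr ⁻¹' S : Set (W × (Bool × W))).ncard : ℝ) * M := by ring
  rw [h11]
  linarith

end Base

/-! ### The core graph of a gadget -/

section Core

variable {V0 : Type}

/-- The root `v0` is joined to all other core vertices and to the base vertices in `R`. -/
def coreG (B : SimpleGraph U) (v0 : V0) (R : Set U) : SimpleGraph (V0 ⊕ U) where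
  Adj := fun p r => match p, r with
    | Sum.inl v, Sum.inl v' => (v = v0 ∧ v' ≠ v0) ∨ (v' = v0 ∧ v ≠ v0)
    | Sum.inl v, Sum.inr t => v = v0 ∧ t ∈ R
    | Sum.inr t, Sum.inl v => v = v0 ∧ t ∈ R
    | Sum.inr t, Sum.inr t' => B.Adj t t'
  symm := ⟨by
    rintro (v | t) (v' | t') h
    · exact Or.symm h
    · exact h
    · exact h
    · exact (show B.Adj t t' from h).symm⟩
  loopless := ⟨by
    rintro (v | t) h
    · rcases h with ⟨h1, h2⟩ | ⟨h1, h2⟩ <;> exact h2 h1
    · exact B.loopless.irrefl t h⟩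

open Classical in
theorem coreG_count [Finite V0] [Finite U] (B : SimpleGraph U) (v0 : V0) (R : Set U)
    (S0 : Set (V0 ⊕ U)) :
    (exS (coreG B v0 R) (⟨Sum.inr, Sum.inr_injective⟩ : U ↪ V0 ⊕ U) S0).ncard ≤
      if Sum.inl v0 ∈ S0 then ({v : V0 | Sum.inl v ∈ S0 ∧ v ≠ v0} : Set V0).ncard + R.ncard
      else 0 := by
  by_cases hv : (Sum.inl v0 : V0 ⊕ U) ∈ S0
  · rw [if_pos hv]
    have hsub : exS (coreG B v0 R) (⟨Sum.inr, Sum.inr_injective⟩ : U ↪ V0 ⊕ U) S0 ⊆
        ((fun v => s((Sum.inl v0 : V0 ⊕ U), Sum.inl v)) '' {v : V0 | Sum.inl v ∈ S0 ∧ v ≠ v0}) ∪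
        ((fun t => s((Sum.inl v0 : V0 ⊕ U), Sum.inr t)) '' R) := by
      rintro e ⟨h1, h2, w, hw, hw2⟩
      induction e using Sym2.ind with
      | _ p r =>
        have hp : p ∈ S0 := h2 p (Sym2.mem_mk_left _ _)
        have hr : r ∈ S0 := h2 r (Sym2.mem_mk_right _ _)
        have hadj : (coreG B v0 R).Adj p r := h1
        rcases p with v | t <;> rcases r with v' | t'
        · left
          rcases hadj with ⟨h3, h4⟩ | ⟨h3, h4⟩
          · exact ⟨v', ⟨hr, h4⟩, by rw [h3]⟩
          · exact ⟨v, ⟨hp, h4⟩, by rw [h3]; exact Sym2.eq_swap⟩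
        · right
          obtain ⟨h3, h4⟩ : v = v0 ∧ t' ∈ R := hadj
          exact ⟨t', h4, by rw [h3]⟩
        · right
          obtain ⟨h3, h4⟩ : v' = v0 ∧ t ∈ R := hadj
          exact ⟨t, h4, by rw [h3]; exact Sym2.eq_swap⟩
        · exfalso
          rw [Sym2.mem_iff] at hw
          rcases hw with rfl | rfl
          · exact hw2 ⟨t, rfl⟩
          · exact hw2 ⟨t', rfl⟩
    refine le_trans (Set.ncard_le_ncard hsub (Set.toFinite _)) ?_
    refine le_trans (Set.ncard_union_le _ _) ?_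
    exact Nat.add_le_add (Set.ncard_image_le (Set.toFinite _))
      (Set.ncard_image_le (Set.toFinite _))
  · rw [if_neg hv]
    have h0 : exS (coreG B v0 R) (⟨Sum.inr, Sum.inr_injective⟩ : U ↪ V0 ⊕ U) S0 = ∅ := by
      ext e
      simp only [Set.mem_empty_iff_false, iff_false]
      rintro ⟨h1, h2, w, hw, hw2⟩
      induction e using Sym2.ind with
      | _ p r =>
        have hp : p ∈ S0 := h2 p (Sym2.mem_mk_left _ _)
        have hr : r ∈ S0 := h2 r (Sym2.mem_mk_right _ _)
        have hadj : (coreG B v0 R).Adj p r := h1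
        rcases p with v | t <;> rcases r with v' | t'
        · rcases hadj with ⟨h3, h4⟩ | ⟨h3, h4⟩
          · exact hv (h3 ▸ hp)
          · exact hv (h3 ▸ hr)
        · obtain ⟨h3, h4⟩ : v = v0 ∧ t' ∈ R := hadj
          exact hv (h3 ▸ hp)
        · obtain ⟨h3, h4⟩ : v' = v0 ∧ t ∈ R := hadj
          exact hv (h3 ▸ hr)
        · rw [Sym2.mem_iff] at hw
          rcases hw with rfl | rfl
          · exact hw2 ⟨t, rfl⟩
          · exact hw2 ⟨t', rfl⟩
    rw [h0, Set.ncard_empty]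

end Core

end Pool.Agent.HA60
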