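import Pool.Agent.HA60.R3

set_option autoImplicit false

/-!
The recursion for the gadgets.
-/

namespace Pool.Agent.HA60

open SimpleGraph

variable {W : Type}

/-- The targets of a gadget of class `x`. -/
def TX (H : SimpleGraph W) (X Y : Set W) (x : W) : Set (BU W) :=
  {t | (∃ y ∈ Y, H.Adj x y ∧ t = Sum.inl y) ∨
    (∃ x' ∈ X, H.Adj x x' ∧ ∃ i : Bool × W, t = Sum.inr (x', i))}

/-- The constant neighbours of `x` other than `b₀ x`. -/
def aS (H : SimpleGraph W) (Y : Set W) (b₀ : W → W) (x : W) : Set W :=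
  {y | y ∈ Y ∧ H.Adj x y ∧ y ≠ b₀ x}

/-- The other neighbours of `x`, without `b₀ x`. -/
def nS (H : SimpleGraph W) (Y : Set W) (b₀ : W → W) (x : W) : Set W :=
  {c | c ∉ Y ∧ H.Adj x c ∧ c ≠ b₀ x}

theorem aS_nS [Finite W] (H : SimpleGraph W) (Y : Set W) (b₀ : W → W) (x : W) :
    (aS H Y b₀ x).ncard + (nS H Y b₀ x).ncard =
      ({c | H.Adj x c ∧ c ≠ b₀ x} : Set W).ncard := by
  rw [← Set.ncard_union_eq _ (Set.toFinite _) (Set.toFinite _)]
  · congr 1
    ext c
    simp only [aS, nS, Set.mem_union, Set.mem_setOf_eq]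
    tauto
  · rw [Set.disjoint_left]
    rintro c ⟨h1, _⟩ ⟨h2, _⟩
    exact h2 h1

theorem good_of_targets {V : Type} {H : SimpleGraph W} {X Y : Set W} {G : SimpleGraph V}
    {κ : BU W ↪ V} {x : W} {z : V} (h : ∀ t ∈ TX H X Y x, Act H G z (κ t)) :
    Good H X Y G κ x z :=
  ⟨fun y hy hxy => h _ (Or.inl ⟨y, hy, hxy, rfl⟩),
    fun x' hx' hxx i => h _ (Or.inr ⟨x', hx', hxx, i, rfl⟩)⟩

theorem targets_of_good {V : Type} {H : SimpleGraph W} {X Y : Set W} {G : SimpleGraph V}
    {κ : BU W ↪ V} {x : W} {z : V} (h : Good H X Y G κ x z) :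
    ∀ t ∈ TX H X Y x, Act H G z (κ t) := by
  rintro t (⟨y, hy, hxy, rfl⟩ | ⟨x', hx', hxx, i, rfl⟩)
  · exact h.1 y hy hxy
  · exact h.2 x' hx' hxx i

section Rec

variable [Finite W] {H : SimpleGraph W} {a b : W} {X Y : Set W} {f : W → W} {b₀ : W → W}

/-- The activations of the base in a glued graph. -/
theorem glue2_baseAct {P V0 : Type} {θ : ℝ} (hab : H.Adj a b)
    (hb₀ : ∀ x c, H.Adj x c → H.Adj x (b₀ x)) (pt : P → V0)
    {TT : P → Set (BU W)} {cc : P → ℝ} (g : ∀ p, Gad H (baseG H a b X b₀) (TT p) θ (cc p))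
    (K : SimpleGraph (V0 ⊕ BU W))
    (hK : ∀ p r, K.Adj (Sum.inr p) (Sum.inr r) ↔ (baseG H a b X b₀).Adj p r) :
    BaseAct H X (glue2 pt g K) (bt g) :=
  ⟨fun _ _ hcd => glue2_base_act pt g K hK (baseG_f0 hab hcd),
    fun _ hx i _ hxc => glue2_base_act pt g K hK (baseG_f1 hab hb₀ hx i hxc),
    fun _ hx _ hx' hxx i i' => glue2_base_act pt g K hK (baseG_f2 hab hb₀ hx hx' hxx i i')⟩

/-- The gadget whose root is joined to base vertices only. -/
theorem gad_first (hab : H.Adj a b) (hb₀ : ∀ x c, H.Adj x c → H.Adj x (b₀ x))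
    (hR : Retr H X Y f) (θ : ℝ) {x : W} (hx : x ∈ X) (hxn : ∃ c, H.Adj x c) :
    Nonempty (Gad H (baseG H a b X b₀) (TX H X Y x) θ
      ((aS H Y b₀ x).ncard + (nS H Y b₀ x).ncard * 1)) := by
  classical
  have := Fintype.ofFinite W
  let R : Set (BU W) := (Sum.inl '' aS H Y b₀ x) ∪
    ((fun c => Sum.inr (f c, (false, c))) '' nS H Y b₀ x)
  have hRcard : R.ncard ≤ (aS H Y b₀ x).ncard + (nS H Y b₀ x).ncard := by
    refine le_trans (Set.ncard_union_le _ _) ?_
    exact Nat.add_le_add (Set.ncard_image_le (Set.toFinite _))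
      (Set.ncard_image_le (Set.toFinite _))
  let TT : Empty → Set (BU W) := fun p => p.elim
  let cc : Empty → ℝ := fun p => p.elim
  let g : ∀ p, Gad H (baseG H a b X b₀) (TT p) θ (cc p) := fun p => p.elim
  let pt : Empty → Unit := fun p => p.elim
  have hK : ∀ p r, (coreG (baseG H a b X b₀) () R).Adj (Sum.inr p) (Sum.inr r) ↔
      (baseG H a b X b₀).Adj p r := fun p r => Iff.rfl
  apply gad_build pt g (coreG (baseG H a b X b₀) () R) hK ()
  · apply targets_of_good
    have hbA := glue2_baseAct hab hb₀ pt g (coreG (baseG H a b X b₀) () R) hK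
    obtain ⟨c0, hc0⟩ := hxn
    apply root_good hR hbA hx (hb₀ x c0 hc0) (u := fun c => bt g (Sum.inr (f c, (false, c))))
    · rintro ⟨t, ht⟩
      exact absurd ht (by simp [bt])
    · intro c h1 h2 h3
      refine ⟨Or.inl ⟨_, rfl⟩, ?_⟩
      apply act_of_adj
      apply glue2_core
      exact ⟨rfl, Or.inr ⟨c, ⟨h2, h1, h3⟩, rfl⟩⟩
    · intro c c' _ _ _ _ _ _ h
      have h9 := Sum.inr.inj ((bt g).injective h)
      exact (Prod.mk.inj (Prod.mk.inj h9).2).2
    · intro c _ _ _ v s h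
      have h9 := Sum.inr.inj ((bt g).injective h)
      exact (Prod.mk.inj (Prod.mk.inj h9).2).2
    · intro c _ _ _ v h
      exact absurd ((bt g).injective h) (by simp)
    · intro y h1 h2 h3
      apply act_of_adj
      apply glue2_core
      exact ⟨rfl, Or.inl ⟨y, ⟨h1, h2, h3⟩, rfl⟩⟩
  · intro S0
    have h1 := coreG_count (baseG H a b X b₀) () R S0
    have h0 : ({v : Unit | (Sum.inl v : Unit ⊕ BU W) ∈ S0 ∧ v ≠ ()} : Set Unit) = ∅ := by
      ext v
      simp
    rw [h0] at h1 ⊢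
    rw [Set.ncard_empty] at h1 ⊢
    by_cases hv : (Sum.inl () : Unit ⊕ BU W) ∈ S0
    · rw [if_pos hv] at h1 ⊢
      have h2 : ((exS (coreG (baseG H a b X b₀) () R)
          (⟨Sum.inr, Sum.inr_injective⟩ : BU W ↪ Unit ⊕ BU W) S0).ncard : ℝ) ≤
          ((aS H Y b₀ x).ncard : ℝ) + (nS H Y b₀ x).ncard := by
        have : (exS (coreG (baseG H a b X b₀) () R)
          (⟨Sum.inr, Sum.inr_injective⟩ : BU W ↪ Unit ⊕ BU W) S0).ncard ≤
          (aS H Y b₀ x).ncard + (nS H Y b₀ x).ncard := by omega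
        exact_mod_cast this
      simp only [Finset.univ_eq_empty, Finset.sum_empty, Nat.cast_zero, mul_zero, mul_one]
      linarith
    · rw [if_neg hv] at h1 ⊢
      have h2 : (exS (coreG (baseG H a b X b₀) () R)
          (⟨Sum.inr, Sum.inr_injective⟩ : BU W ↪ Unit ⊕ BU W) S0).ncard = 0 := by omega
      rw [h2]
      simp

/-- The recursion. -/
theorem gad_next (hab : H.Adj a b) (hb₀ : ∀ x c, H.Adj x c → H.Adj x (b₀ x))
    (hR : Retr H X Y f) {θ τ τ' : ℝ} (hτ' : 0 ≤ τ')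
    (hg : ∀ x ∈ X, (∃ x' ∈ X, H.Adj x x') → Nonempty (Gad H (baseG H a b X b₀) (TX H X Y x) θ
      ((aS H Y b₀ x).ncard + (nS H Y b₀ x).ncard * τ)))
    (hle : ∀ x ∈ X, (∃ x' ∈ X, H.Adj x x') →
      ((aS H Y b₀ x).ncard : ℝ) + (nS H Y b₀ x).ncard * τ ≤ θ ∧
      1 + (((aS H Y b₀ x).ncard : ℝ) + (nS H Y b₀ x).ncard * τ) ≤ θ + τ')
    {x : W} (hx : x ∈ X) (hxn : ∃ x' ∈ X, H.Adj x x') :
    Nonempty (Gad H (baseG H a b X b₀) (TX H X Y x) θ
      ((aS H Y b₀ x).ncard + (nS H Y b₀ x).ncard * τ')) := by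
  classical
  have := Fintype.ofFinite W
  let P : Type := nS H Y b₀ x
  have hfinP : Finite P := inferInstance
  have := Fintype.ofFinite P
  have hcl : ∀ p : P, f p ∈ X ∧ ∃ x' ∈ X, H.Adj (f p) x' := by
    intro p
    obtain ⟨h1, h2, h3⟩ := p.2
    refine ⟨hR.toX p h1, x, hx, ?_⟩
    have := hR.hom (p : W) x h2.symm
    rwa [hR.fX x hx] at this
  let TT : P → Set (BU W) := fun p => TX H X Y (f p)
  let cc : P → ℝ := fun p => (aS H Y b₀ (f p)).ncard + (nS H Y b₀ (f p)).ncard * τ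
  let g : ∀ p, Gad H (baseG H a b X b₀) (TT p) θ (cc p) := fun p =>
    Classical.choice (hg (f p) (hcl p).1 (hcl p).2)
  let pt : P → Option P := fun p => some p
  let R : Set (BU W) := Sum.inl '' aS H Y b₀ x
  have hRcard : R.ncard ≤ (aS H Y b₀ x).ncard := Set.ncard_image_le (Set.toFinite _)
  have hK : ∀ p r, (coreG (baseG H a b X b₀) (none : Option P) R).Adj (Sum.inr p) (Sum.inr r) ↔
      (baseG H a b X b₀).Adj p r := fun p r => Iff.rfl
  apply gad_build pt g (coreG (baseG H a b X b₀) (none : Option P) R) hK none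
  · apply targets_of_good
    have hbA := glue2_baseAct hab hb₀ pt g (coreG (baseG H a b X b₀) (none : Option P) R) hK
    obtain ⟨c0, _, hc0⟩ := hxn
    let u : W → Tot2 g (Option P) := fun c =>
      if h : c ∈ nS H Y b₀ x then Sum.inl (Sum.inl (some ⟨c, h⟩)) else Sum.inl (Sum.inl none)
    have hu : ∀ c (h : c ∈ nS H Y b₀ x), u c = Sum.inl (Sum.inl (some ⟨c, h⟩)) :=
      fun c h => dif_pos h
    apply root_good hR hbA hx (hb₀ x c0 hc0) (u := u)
    · rintro ⟨t, ht⟩
      exact absurd ht (by simp [bt])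
    · intro c h1 h2 h3
      have hc : c ∈ nS H Y b₀ x := ⟨h2, h1, h3⟩
      rw [hu c hc]
      refine ⟨Or.inr ⟨?_, ?_⟩, ?_⟩
      · rintro ⟨t, ht⟩
        exact absurd ht (by simp [bt])
      · apply good_of_targets
        intro t ht
        exact glue2_root pt g (coreG (baseG H a b X b₀) (none : Option P) R) (⟨c, hc⟩ : P) ht
      · apply act_of_adj
        apply glue2_core
        exact Or.inl ⟨rfl, by simp⟩
    · intro c c' h1 h2 h3 h1' h2' h3' h
      have hc : c ∈ nS H Y b₀ x := ⟨h2, h1, h3⟩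
      have hc' : c' ∈ nS H Y b₀ x := ⟨h2', h1', h3'⟩
      rw [hu c hc, hu c' hc'] at h
      have h9 := Option.some.inj (Sum.inl.inj (Sum.inl.inj h))
      exact congrArg Subtype.val h9
    · intro c h1 h2 h3 v s h
      rw [hu c ⟨h2, h1, h3⟩] at h
      exact absurd h (by simp [bt])
    · intro c h1 h2 h3 v h
      rw [hu c ⟨h2, h1, h3⟩] at h
      exact absurd h (by simp [bt])
    · intro y h1 h2 h3
      apply act_of_adj
      apply glue2_core
      exact ⟨rfl, ⟨y, ⟨h1, h2, h3⟩, rfl⟩⟩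
  · intro S0
    have h1 := coreG_count (baseG H a b X b₀) (none : Option P) R S0
    have hm : (({v : Option P | (Sum.inl v : Option P ⊕ BU W) ∈ S0 ∧ v ≠ none} :
        Set (Option P)).ncard : ℝ) =
        ∑ p : P, (if (Sum.inl (pt p) : Option P ⊕ BU W) ∈ S0 then (1 : ℝ) else 0) := by
      have h2 : ({v : Option P | (Sum.inl v : Option P ⊕ BU W) ∈ S0 ∧ v ≠ none} :
          Set (Option P)) = some '' {p : P | (Sum.inl (pt p) : Option P ⊕ BU W) ∈ S0} := by
        ext v
        rcases v with _ | p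
        · simp
        · simp [pt]
      rw [h2, Set.ncard_image_of_injective _ (Option.some_injective P),
        Set.ncard_eq_toFinset_card', Finset.sum_ite, Finset.sum_const_zero, add_zero,
        Finset.sum_const, nsmul_eq_mul, mul_one]
      congr 2
      ext p
      simp
    by_cases hv : (Sum.inl none : Option P ⊕ BU W) ∈ S0
    · rw [if_pos hv] at h1 ⊢
      have h2 : ((exS (coreG (baseG H a b X b₀) (none : Option P) R)
          (⟨Sum.inr, Sum.inr_injective⟩ : BU W ↪ Option P ⊕ BU W) S0).ncard : ℝ) ≤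
          (({v : Option P | (Sum.inl v : Option P ⊕ BU W) ∈ S0 ∧ v ≠ none} :
            Set (Option P)).ncard : ℝ) + (aS H Y b₀ x).ncard := by
        have : (exS (coreG (baseG H a b X b₀) (none : Option P) R)
          (⟨Sum.inr, Sum.inr_injective⟩ : BU W ↪ Option P ⊕ BU W) S0).ncard ≤
          ({v : Option P | (Sum.inl v : Option P ⊕ BU W) ∈ S0 ∧ v ≠ none} :
            Set (Option P)).ncard + (aS H Y b₀ x).ncard := by omega
        exact_mod_cast this
      rw [hm] at h2 ⊢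
      have h3 : (∑ p : P, (if (Sum.inl (pt p) : Option P ⊕ BU W) ∈ S0 then (1 : ℝ) else 0)) +
          (∑ p : P, (if (Sum.inl (pt p) : Option P ⊕ BU W) ∈ S0 then cc p else 0)) ≤
          θ * (∑ p : P, (if (Sum.inl (pt p) : Option P ⊕ BU W) ∈ S0 then (1 : ℝ) else 0)) +
          ∑ _p : P, τ' := by
        rw [Finset.mul_sum, ← Finset.sum_add_distrib, ← Finset.sum_add_distrib]
        apply Finset.sum_le_sum
        intro p _
        have h4 := (hle (f p) (hcl p).1 (hcl p).2).2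
        by_cases hp : (Sum.inl (pt p) : Option P ⊕ BU W) ∈ S0
        · rw [if_pos hp, if_pos hp, mul_one]
          exact h4
        · rw [if_neg hp, if_neg hp]
          simpa using hτ'
      have h5 : (∑ _p : P, τ') = (nS H Y b₀ x).ncard * τ' := by
        rw [Finset.sum_const, nsmul_eq_mul, Finset.card_univ, ← Nat.card_eq_fintype_card,
          Nat.card_coe_set_eq]
      rw [h5] at h3
      linarith
    · rw [if_neg hv] at h1 ⊢
      have h2 : (exS (coreG (baseG H a b X b₀) (none : Option P) R)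
          (⟨Sum.inr, Sum.inr_injective⟩ : BU W ↪ Option P ⊕ BU W) S0).ncard = 0 := by omega
      rw [h2, hm]
      have h3 : (∑ p : P, (if (Sum.inl (pt p) : Option P ⊕ BU W) ∈ S0 then cc p else 0)) ≤
          θ * (∑ p : P, (if (Sum.inl (pt p) : Option P ⊕ BU W) ∈ S0 then (1 : ℝ) else 0)) := by
        rw [Finset.mul_sum]
        apply Finset.sum_le_sum
        intro p _
        have h4 := (hle (f p) (hcl p).1 (hcl p).2).1
        by_cases hp : (Sum.inl (pt p) : Option P ⊕ BU W) ∈ S0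
        · rw [if_pos hp, if_pos hp, mul_one]
          exact h4
        · rw [if_neg hp, if_neg hp]
          simp
      push_cast
      linarith

/-- The arithmetic of the recursion. -/
theorem next_arith {A N τ ε k : ℝ} (hτ0 : 0 ≤ τ) (hτ1 : τ ≤ 1) (hε : 0 ≤ ε) (hk : 1 ≤ k)
    (hA : 0 ≤ A) (hN : 0 ≤ N) (hAN : A + N ≤ k) (hcase : 1 ≤ N ∨ (A = 0 ∧ N = 0)) :
    A + N * τ ≤ k + ε ∧ 1 + (A + N * τ) ≤ k + ε + max 0 (τ - ε) := by
  have h1 : N * τ ≤ N * 1 := mul_le_mul_of_nonneg_left hτ1 hN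
  have h2 : τ - ε ≤ max 0 (τ - ε) := le_max_right _ _
  have h3 : 0 ≤ max 0 (τ - ε) := le_max_left _ _
  refine ⟨by linarith, ?_⟩
  rcases hcase with h | ⟨h, h'⟩
  · have h4 : 0 ≤ (N - 1) * (1 - τ) := mul_nonneg (by linarith) (by linarith)
    nlinarith
  · rw [h, h']
    linarith

/-- Gadgets with an arbitrarily small defect parameter. -/
theorem gad_rec (hab : H.Adj a b) (hb₀ : ∀ x c, H.Adj x c → H.Adj x (b₀ x))
    (hbY : ∀ x, (∃ y ∈ Y, H.Adj x y) → b₀ x ∈ Y)
    (hR : Retr H X Y f) {ε : ℝ} (hε : 0 < ε) {k : ℕ} (hk : 1 ≤ k)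
    (hX : ∀ x ∈ X, ({c | H.Adj x c ∧ c ≠ b₀ x} : Set W).ncard ≤ k) :
    ∀ x ∈ X, (∃ x' ∈ X, H.Adj x x') → Nonempty (Gad H (baseG H a b X b₀) (TX H X Y x)
      ((k : ℝ) + ε) ((aS H Y b₀ x).ncard + (nS H Y b₀ x).ncard * (0 : ℝ))) := by
  have key : ∀ m : ℕ, ∃ τ : ℝ, 0 ≤ τ ∧ τ ≤ 1 ∧ τ ≤ max 0 (1 - m * ε) ∧
      ∀ x ∈ X, (∃ x' ∈ X, H.Adj x x') → Nonempty (Gad H (baseG H a b X b₀) (TX H X Y x)
      ((k : ℝ) + ε) ((aS H Y b₀ x).ncard + (nS H Y b₀ x).ncard * τ)) := by
    intro m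
    induction m with
    | zero =>
      refine ⟨1, zero_le_one, le_refl _, by simp, ?_⟩
      rintro x hx ⟨x', hx', hxx⟩
      exact gad_first hab hb₀ hR _ hx ⟨x', hxx⟩
    | succ m ih =>
      obtain ⟨τ, h1, h2, h3, h4⟩ := ih
      refine ⟨max 0 (τ - ε), le_max_left _ _, max_le zero_le_one (by linarith), ?_, ?_⟩
      · apply max_le (le_max_left _ _)
        push_cast
        rcases le_total (1 - m * ε) 0 with h5 | h5
        · rw [max_eq_left h5] at h3
          have : 0 ≤ max 0 (1 - ((m : ℝ) + 1) * ε) := le_max_left _ _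
          linarith
        · rw [max_eq_right h5] at h3
          have : 1 - ((m : ℝ) + 1) * ε ≤ max 0 (1 - ((m : ℝ) + 1) * ε) := le_max_right _ _
          linarith
      · intro x hx hxn
        apply gad_next hab hb₀ hR (le_max_left _ _) h4 _ hx hxn
        rintro z hz ⟨z', hz', hzz⟩
        have hcard := aS_nS H Y b₀ z
        have hle := hX z hz
        have hkR : (1 : ℝ) ≤ k := by exact_mod_cast hk
        have hsum : ((aS H Y b₀ z).ncard : ℝ) + (nS H Y b₀ z).ncard ≤ k := by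
          have : (aS H Y b₀ z).ncard + (nS H Y b₀ z).ncard ≤ k := by omega
          exact_mod_cast this
        apply next_arith h1 h2 hε.le hkR (Nat.cast_nonneg _) (Nat.cast_nonneg _) hsum
        by_cases hzY : ∃ y ∈ Y, H.Adj z y
        · left
          have h7 : z' ∈ nS H Y b₀ z :=
            ⟨hR.disj z' hz', hzz, fun h => hR.disj z' hz' (h ▸ hbY z hzY)⟩
          have h8 : 0 < (nS H Y b₀ z).ncard := (Set.ncard_pos (Set.toFinite _)).2 ⟨z', h7⟩
          exact_mod_cast h8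
        · have hA0 : aS H Y b₀ z = ∅ := by
            ext y
            simp only [Set.mem_empty_iff_false, iff_false]
            rintro ⟨h7, h8, _⟩
            exact hzY ⟨y, h7, h8⟩
          rcases Nat.eq_zero_or_pos (nS H Y b₀ z).ncard with h0 | h0
          · right
            rw [hA0, h0]
            simp
          · left
            exact_mod_cast h0
  obtain ⟨m, hm⟩ := exists_nat_gt (1 / ε)
  obtain ⟨τ, h1, _, h3, h4⟩ := key m
  have h5 : 1 < m * ε := by rwa [div_lt_iff₀ hε] at hm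
  rw [max_eq_left (by linarith)] at h3
  have h6 : τ = 0 := le_antisymm h3 h1
  rw [h6] at h4
  exact h4

end Rec

end Pool.Agent.HA60
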