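import Pool.Agent.HA60.R4
import Pool.Agent.HA60.Cor

set_option autoImplicit false

/-!
The upper bound for graphs with a retraction.
-/

namespace Pool.Agent.HA60

open SimpleGraph

variable {W U : Type}

/-- Only base edges. -/
def plainG (V0 : Type) (B : SimpleGraph U) : SimpleGraph (V0 ⊕ U) where
  Adj := fun p r => match p, r with
    | Sum.inr t, Sum.inr t' => B.Adj t t'
    | _, _ => False
  symm := ⟨by
    rintro (v | t) (v' | t') h
    · exact h
    · exact h
    · exact h
    · exact (show B.Adj t t' from h).symm⟩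
  loopless := ⟨by
    rintro (v | t) h
    · exact h
    · exact B.loopless.irrefl t h⟩

theorem plainG_ex (V0 : Type) (B : SimpleGraph U) (S : Set (V0 ⊕ U)) :
    exS (plainG V0 B) (⟨Sum.inr, Sum.inr_injective⟩ : U ↪ V0 ⊕ U) S = ∅ := by
  ext e
  simp only [Set.mem_empty_iff_false, iff_false]
  rintro ⟨h1, _, w, hw, hw2⟩
  induction e using Sym2.ind with
  | _ p r =>
    have hadj : (plainG V0 B).Adj p r := h1
    rcases p with v | t <;> rcases r with v' | t'
    · exact hadj
    · exact hadj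
    · exact hadj
    · rw [Sym2.mem_iff] at hw
      rcases hw with rfl | rfl
      · exact hw2 ⟨t, rfl⟩
      · exact hw2 ⟨t', rfl⟩

/-- The upper bound. -/
theorem rho_le_of_retr [Finite W] {H : SimpleGraph W} {X Y : Set W} {f : W → W}
    (hR : Retr H X Y f) {d : ℕ} (hd : 2 ≤ d) (hdeg : ∀ x ∈ X, deg H x ≤ d) {x₁ x₂ : W}
    (hx₁ : x₁ ∈ X) (hx₂ : x₂ ∈ X) (hxx : H.Adj x₁ x₂)
    (h₁ : ∀ y ∈ Y, ∀ y' ∈ Y, H.Adj x₁ y → H.Adj x₁ y' → y = y')
    (h₂ : ∀ y ∈ Y, ∀ y' ∈ Y, H.Adj x₂ y → H.Adj x₂ y' → y = y') :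
    rho H ≤ max (q H) ((d : ℝ) - 1) := by
  classical
  obtain ⟨a, b, hab, hq⟩ := q_mem ⟨x₁, x₂, hxx⟩
  apply le_of_forall_pos_le_add
  intro ε hε
  obtain ⟨k, rfl⟩ : ∃ k, d = k + 1 := ⟨d - 1, by omega⟩
  have hk : 1 ≤ k := by omega
  let b₀ : W → W := fun x => if h : ∃ y ∈ Y, H.Adj x y then Classical.choose h else
    if h' : ∃ c, H.Adj x c then Classical.choose h' else x
  have hb₀Y : ∀ x, (h : ∃ y ∈ Y, H.Adj x y) → b₀ x ∈ Y ∧ H.Adj x (b₀ x) := by
    intro x h
    have h2 : b₀ x = Classical.choose h := dif_pos h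
    rw [h2]
    exact Classical.choose_spec h
  have hb₀ : ∀ x c, H.Adj x c → H.Adj x (b₀ x) := by
    intro x c hxc
    by_cases h : ∃ y ∈ Y, H.Adj x y
    · exact (hb₀Y x h).2
    · have h' : ∃ c, H.Adj x c := ⟨c, hxc⟩
      have h2 : b₀ x = Classical.choose h' := by
        change (if h : ∃ y ∈ Y, H.Adj x y then Classical.choose h else
          if h' : ∃ c, H.Adj x c then Classical.choose h' else x) = _
        rw [dif_neg h, dif_pos h']
      rw [h2]
      exact Classical.choose_spec h'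
  have hX : ∀ x ∈ X, ({c | H.Adj x c ∧ c ≠ b₀ x} : Set W).ncard ≤ k := by
    intro x hx
    by_cases hn : ∃ c, H.Adj x c
    · obtain ⟨c, hc⟩ := hn
      have h3 : ({c | H.Adj x c ∧ c ≠ b₀ x} : Set W) = H.neighborSet x \ {b₀ x} := by
        ext c
        simp
      have h4 := Set.ncard_sdiff_singleton_add_one (s := H.neighborSet x) (a := b₀ x)
        (hb₀ x c hc) (Set.toFinite _)
      have h5 := hdeg x hx
      unfold deg at h5
      rw [h3]
      omega
    · have h3 : ({c | H.Adj x c ∧ c ≠ b₀ x} : Set W) = ∅ := by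
        ext c
        simp only [Set.mem_setOf_eq, Set.mem_empty_iff_false, iff_false]
        rintro ⟨h4, _⟩
        exact hn ⟨c, h4⟩
      rw [h3, Set.ncard_empty]
      exact Nat.zero_le _
  have hrec := gad_rec hab hb₀ (fun x h => (hb₀Y x h).1) hR hε hk hX
  have hA0 : ∀ x, (∀ y ∈ Y, ∀ y' ∈ Y, H.Adj x y → H.Adj x y' → y = y') →
      aS H Y b₀ x = ∅ := by
    intro x hx
    ext y
    simp only [Set.mem_empty_iff_false, iff_false]
    rintro ⟨h3, h4, h5⟩
    have h6 := hb₀Y x ⟨y, h3, h4⟩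
    exact h5 (hx y h3 _ h6.1 h4 h6.2)
  let cl : Bool → W := fun p => if p then x₂ else x₁
  have hcl : ∀ p, Nonempty (Gad H (baseG H a b X b₀) (TX H X Y (cl p)) ((k : ℝ) + ε) 0) := by
    intro p
    cases p
    · have h3 := hrec x₁ hx₁ ⟨x₂, hx₂, hxx⟩
      rw [hA0 x₁ h₁, Set.ncard_empty, Nat.cast_zero, mul_zero, add_zero] at h3
      exact h3
    · have h3 := hrec x₂ hx₂ ⟨x₁, hx₁, hxx.symm⟩
      rw [hA0 x₂ h₂, Set.ncard_empty, Nat.cast_zero, mul_zero, add_zero] at h3
      exact h3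
  let TT : Bool → Set (BU W) := fun p => TX H X Y (cl p)
  let cc : Bool → ℝ := fun _ => 0
  let g : ∀ p, Gad H (baseG H a b X b₀) (TT p) ((k : ℝ) + ε) (cc p) := fun p =>
    Classical.choice (hcl p)
  let pt : Bool → Bool := fun p => p
  let K : SimpleGraph (Bool ⊕ BU W) := plainG Bool (baseG H a b X b₀)
  have hK : ∀ p r, K.Adj (Sum.inr p) (Sum.inr r) ↔ (baseG H a b X b₀).Adj p r :=
    fun p r => Iff.rfl
  have hbA := glue2_baseAct hab hb₀ pt g K hK
  have hfinT : Finite (Tot2 g Bool) := glue2_finite g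
  let x : Tot2 g Bool := Sum.inl (Sum.inl false)
  let y : Tot2 g Bool := Sum.inl (Sum.inl true)
  have hxr : x ∉ Set.range (bt (V0 := Bool) g) := by
    rintro ⟨t, ht⟩
    exact absurd ht (by simp [bt, x])
  have hyr : y ∉ Set.range (bt (V0 := Bool) g) := by
    rintro ⟨t, ht⟩
    exact absurd ht (by simp [bt, y])
  have hxy : x ≠ y := by simp [x, y]
  have hgx : Good H X Y (glue2 pt g K) (bt g) x₁ x :=
    good_of_targets (fun t ht => glue2_root pt g K false ht)
  have hgy : Good H X Y (glue2 pt g K) (bt g) x₂ y :=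
    good_of_targets (fun t ht => glue2_root pt g K true ht)
  have hact : Act H (glue2 pt g K) x y :=
    good_good hR hbA hx₁ hx₂ hxx hxr hyr hxy hgx hgy
  -- the roots are not adjacent
  have hroot : ∀ (p : Bool) (v : (g p).Q) (w : Bool),
      psi2 pt g p v = Sum.inl (Sum.inl w) → v = (g p).r ∧ p = w := by
    intro p v w hvw
    rcases psi2F_cases g p v with h3 | ⟨c, h3⟩ | ⟨h3, h4, _⟩
    · refine ⟨h3, ?_⟩
      rw [h3, psi2_r] at hvw
      exact Sum.inl.inj (Sum.inl.inj hvw)
    · rw [h3, psi2_β] at hvw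
      exact absurd hvw (by simp)
    · rw [psi2_new pt g p v h3 h4] at hvw
      exact absurd hvw (by simp)
  have hnot : ¬ (glue2 pt g K).Adj x y := by
    rintro (⟨v, v', h, h3, h4⟩ | ⟨p, v, v', h, h3, h4⟩)
    · have h5 : v = Sum.inl false := Sum.inl.inj h3
      have h6 : v' = Sum.inl true := Sum.inl.inj h4
      rw [h5, h6] at h
      exact h
    · have h5 := hroot p v false h3
      have h6 := hroot p v' true h4
      exact absurd (h5.2.symm.trans h6.2) (by simp)
  refine le_trans (rho_le hact hnot) ?_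
  set M : ℝ := max (q H) (((k + 1 : ℕ) : ℝ) - 1) with hM
  have hMq : q H ≤ M := le_max_left _ _
  have hMk : (k : ℝ) ≤ M := by
    have h3 : (((k + 1 : ℕ) : ℝ) - 1) ≤ M := le_max_right _ _
    push_cast at h3
    linarith
  have hM0 : 0 ≤ M := le_trans (q_nonneg H) hMq
  apply Dval_le
  · linarith
  intro F hF1 hF2
  have hxF : x ∈ F.verts := F.edge_vert hF1
  have hyF : y ∈ F.verts := F.edge_vert hF1.symm
  have hsub : F.edgeSet ⊆ ({s(x, y)} ∪ (Sym2.map (bt g) ''
      {e | e ∈ (baseG H a b X b₀).edgeSet ∧ ∀ v ∈ e, v ∈ (bt g ⁻¹' F.verts)})) ∪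
      exS (glue2 pt g K) (bt g) F.verts := by
    intro e he
    induction e using Sym2.ind with
    | _ z z' =>
      have hadj : F.Adj z z' := he
      have hz := F.edge_vert hadj
      have hz' := F.edge_vert hadj.symm
      rcases F.adj_sub hadj with h3 | h3
      · by_cases hcase : ∀ v ∈ s(z, z'), v ∈ Set.range (bt (V0 := Bool) g)
        · left; right
          obtain ⟨t, ht⟩ := hcase z (Sym2.mem_mk_left _ _)
          obtain ⟨t', ht'⟩ := hcase z' (Sym2.mem_mk_right _ _)
          refine ⟨s(t, t'), ⟨?_, ?_⟩, by rw [Sym2.map_mk, ht, ht']⟩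
          · change (baseG H a b X b₀).Adj t t'
            rw [← glue2_base_iff pt g K hK, ht, ht']
            exact h3
          · intro w hw
            rw [Sym2.mem_iff] at hw
            rcases hw with rfl | rfl
            · change bt g w ∈ F.verts
              rw [ht]; exact hz
            · change bt g w ∈ F.verts
              rw [ht']; exact hz'
        · right
          push Not at hcase
          refine ⟨h3, ?_, hcase⟩
          intro w hw
          rw [Sym2.mem_iff] at hw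
          rcases hw with rfl | rfl
          · exact hz
          · exact hz'
      · left; left
        rw [edge_adj] at h3
        rw [Set.mem_singleton_iff, Sym2.eq_iff]
        exact h3.1
  have hcard : F.edgeSet.ncard ≤ 1 +
      ({e | e ∈ (baseG H a b X b₀).edgeSet ∧ ∀ v ∈ e, v ∈ (bt g ⁻¹' F.verts)} :
        Set (Sym2 (BU W))).ncard + (exS (glue2 pt g K) (bt g) F.verts).ncard := by
    refine le_trans (Set.ncard_le_ncard hsub (Set.toFinite _)) ?_
    refine le_trans (Set.ncard_union_le _ _) ?_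
    apply Nat.add_le_add_right
    refine le_trans (Set.ncard_union_le _ _) ?_
    apply Nat.add_le_add
    · rw [Set.ncard_singleton]
    · exact Set.ncard_image_le (Set.toFinite _)
  have hbase := baseG_count (a := a) (b := b) (X := X) (b₀ := b₀) (M := M) (k := k)
    (by rw [← hq]; exact hMq) hMk hX (bt g ⁻¹' F.verts)
  have hedges := glue2_edges pt g K F.verts
  rw [plainG_ex, Set.ncard_empty, zero_add] at hedges
  have hsum := glue2_sum pt g F.verts
  have hzero : (∑ p, (if (Sum.inl (Sum.inl (pt p)) : Tot2 g Bool) ∈ F.verts then cc p else 0))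
      = 0 := by
    apply Finset.sum_eq_zero
    intro p _
    simp [cc]
  rw [hzero, add_zero] at hsum
  have hverts := glue2_verts pt g F.verts
  have hcore : (Sum.inl ⁻¹' F.verts : Set (Bool ⊕ BU W)).ncard =
      2 + (bt g ⁻¹' F.verts : Set (BU W)).ncard := by
    rw [ncard_sum']
    congr 1
    have h3 : (Sum.inl ⁻¹' (Sum.inl ⁻¹' F.verts : Set (Bool ⊕ BU W)) : Set Bool) = Set.univ := by
      ext v
      simp only [Set.mem_preimage, Set.mem_univ, iff_true]
      cases v
      · exact hxF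
      · exact hyF
    rw [h3, Set.ncard_univ]
    simp
  rw [hcore] at hverts
  set nN : ℕ := ∑ p, (newS (g p).r (g p).β (psi2 pt g p ⁻¹' F.verts)).ncard with hnN
  set nB : ℕ := (bt g ⁻¹' F.verts : Set (BU W)).ncard with hnB
  have he1 : (F.edgeSet.ncard : ℝ) ≤ 1 +
      ((({e | e ∈ (baseG H a b X b₀).edgeSet ∧ ∀ v ∈ e, v ∈ (bt g ⁻¹' F.verts)} :
        Set (Sym2 (BU W))).ncard : ℕ) : ℝ) +
      ((exS (glue2 pt g K) (bt g) F.verts).ncard : ℝ) := by
    exact_mod_cast hcard
  have he2 : ((exS (glue2 pt g K) (bt g) F.verts).ncard : ℝ) ≤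
      ((∑ p, (exS (g p).Γ (g p).β (psi2 pt g p ⁻¹' F.verts)).ncard : ℕ) : ℝ) := by
    exact_mod_cast hedges
  have hv : (F.verts.ncard : ℝ) = 2 + nB + nN := by exact_mod_cast hverts
  rw [hv]
  have h3 : ((k : ℝ) + ε) * (nN : ℝ) ≤ (M + ε) * (nN : ℝ) :=
    mul_le_mul_of_nonneg_right (by linarith) (Nat.cast_nonneg _)
  have h4 : M * (nB : ℝ) ≤ (M + ε) * (nB : ℝ) :=
    mul_le_mul_of_nonneg_right (by linarith) (Nat.cast_nonneg _)
  have h5 : (M + ε) * (2 + (nB : ℝ) + nN - 2) = (M + ε) * (nB : ℝ) + (M + ε) * (nN : ℝ) := by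
    ring
  rw [h5]
  linarith

end Pool.Agent.HA60
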