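import Pool.Agent.HA60.Step

set_option autoImplicit false

namespace Pool.Agent.HA60

open SimpleGraph

variable {W : Type}

/-- The upper bound of the general theorem. -/
theorem rho_le_of_sparse [Finite W] {H : SimpleGraph W} {X : Set W} {θ : ℝ}
    (hS : SparsePart H X θ) : rho H ≤ max (q H) θ := by
  classical
  obtain ⟨a1, ha1, b1, hb1, hab1⟩ := hS.edge
  obtain ⟨a, b, hab, hq⟩ := q_mem ⟨a1, b1, hab1⟩
  apply le_of_forall_pos_le_add
  intro ε hε
  set B : SimpleGraph W := H.deleteEdges {s(a, b)} with hB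
  have hBact : ∀ c d, H.Adj c d → Act H B c d := fun c d hcd => act_all hab hcd
  have hgad := gad_all hBact hS hε
  obtain ⟨V, hV, A, x, y, hact, hnA, hD⟩ := exists_near (H := H.induce X)
    ⟨⟨a1, ha1⟩, ⟨b1, hb1⟩, hab1⟩ hε
  have hDθ : Dval A x y ≤ θ + ε := by
    have := hS.rho_le
    linarith
  have hxy : x ≠ y := act_ne hact
  have := Fintype.ofFinite V
  let R : Type := {i : X // ∃ t, t ∉ X ∧ H.Adj i t}
  have hfinR : Finite R := inferInstance
  let P : Type := V × R
  have hfinP : Finite P := inferInstance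
  have := Fintype.ofFinite P
  let pt : P → V := fun p => p.1
  let tt : P → W := fun p => Classical.choose p.2.2
  have htt : ∀ p : P, tt p ∉ X ∧ H.Adj p.2.1 (tt p) := fun p => Classical.choose_spec p.2.2
  let g : ∀ p : P, GData H B (θ + ε) 0 (tt p) := fun p =>
    Classical.choice (hgad p.2.1 p.2.1.2 (tt p) (htt p).1 (htt p).2)
  have hfinQ : ∀ p, Finite (g p).Q := fun p => (g p).fin
  have hfinN : ∀ p, Finite (NV tt g p) := fun p => inferInstance
  have hfinT : Finite (Tot (V0 := V) tt g) := inferInstance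
  -- the pair is activated
  have hsim : ∀ t, ∀ v v' : V, (stage (H.induce X) A t).Adj v v' →
      Act H (glue pt tt g A) (Sum.inl v) (Sum.inl v') := by
    intro t
    induction t with
    | zero => exact fun v v' h => act_of_adj (glue_inl pt tt g A h)
    | succ t ih =>
      rintro v v' (h | ⟨f, c₀, d₀, hcd₀, rfl, rfl, hf⟩)
      · exact ih v v' h
      · obtain ⟨F, hF1, hF2, hF3⟩ := glue_copy pt tt g A hBact f
          (c₀ := (c₀ : W)) (d₀ := (d₀ : W)) hcd₀
          (fun c d hcd hne => ih _ _ (hf c d hcd (fun he => hne (by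
            rw [Sym2.eq_iff] at he
            rcases he with ⟨rfl, rfl⟩ | ⟨rfl, rfl⟩
            · rfl
            · exact Sym2.eq_swap))))
          (fun c d hd hcd _ => by
            have hroot := glue_root pt tt g A (f c, ⟨c, d, hd, hcd⟩)
            have h2 := htt (f c, ⟨c, d, hd, hcd⟩)
            have h3 : tt (f c, ⟨c, d, hd, hcd⟩) = d :=
              hS.unique c c.2 _ d h2.1 hd h2.2 hcd
            rw [h3] at hroot
            exact hroot)
        rw [hF1 c₀, hF1 d₀] at hF3
        exact hF3
  obtain ⟨t, ht⟩ := hact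
  have hact' := hsim t x y ht
  -- edges between region vertices
  have hinl : ∀ v v' : V, (glue pt tt g A).Adj (Sum.inl v) (Sum.inl v') → A.Adj v v' := by
    rintro v v' (⟨u, u', h, h1, h2⟩ | ⟨c, d, h, h1, h2⟩ | ⟨p, u, u', h, h1, h2⟩)
    · rw [← Sum.inl.inj h1, ← Sum.inl.inj h2]
      exact h
    · exact absurd h1 (by simp)
    · exfalso
      have key : ∀ (w : (g p).Q) (z : V), psi pt tt g p w = Sum.inl z → w = (g p).r := by
        intro w z hz
        rcases psiF_cases tt g p w with h3 | ⟨c, h3⟩ | ⟨h3, h4, _⟩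
        · exact h3
        · rw [h3, psi_β] at hz
          exact absurd hz (by simp)
        · rw [psi_new pt tt g p w h3 h4] at hz
          exact absurd hz (by simp)
      rw [key u v h1, key u' v' h2] at h
      exact h.ne rfl
  have hnot : ¬ (glue pt tt g A).Adj (Sum.inl x) (Sum.inl y) := fun h => hnA (hinl x y h)
  refine le_trans (rho_le hact' hnot) ?_
  have hM1 : q H ≤ max (q H) θ + ε := by
    have := le_max_left (q H) θ
    linarith
  have hM2 : θ + ε ≤ max (q H) θ + ε := by
    have := le_max_right (q H) θ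
    linarith
  apply Dval_le
  · have := q_nonneg H
    linarith
  intro F hF1 hF2
  set M : ℝ := max (q H) θ + ε with hM
  -- the part in the region
  let FV : (A ⊔ edge x y).Subgraph :=
    { verts := {v | (Sum.inl v : Tot (V0 := V) tt g) ∈ F.verts}
      Adj := fun v v' => F.Adj (Sum.inl v) (Sum.inl v')
      adj_sub := by
        intro v v' h
        rcases F.adj_sub h with h1 | h1
        · exact Or.inl (hinl v v' h1)
        · right
          rw [edge_adj] at h1 ⊢
          refine ⟨?_, fun h2 => h1.2 (by rw [h2])⟩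
          rcases h1.1 with ⟨h2, h3⟩ | ⟨h2, h3⟩
          · exact Or.inl ⟨Sum.inl.inj h2, Sum.inl.inj h3⟩
          · exact Or.inr ⟨Sum.inl.inj h2, Sum.inl.inj h3⟩
      edge_vert := fun h => F.edge_vert h
      symm := ⟨fun v v' h => h.symm⟩ }
  have hFVadj : FV.Adj x y := hF1
  have hxF : x ∈ FV.verts := F.edge_vert hF1
  have hyF : y ∈ FV.verts := F.edge_vert hF1.symm
  have hedge := glue_edges pt tt g F.verts F.edgeSet FV.edgeSet
    {e | e ∈ B.edgeSet ∧ ∀ v ∈ e, v ∈ {c | (Sum.inr (Sum.inl c) : Tot (V0 := V) tt g) ∈ F.verts}}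
    (by
      intro z z' he
      have hadj : F.Adj z z' := he
      have hz := F.edge_vert hadj
      have hz' := F.edge_vert hadj.symm
      refine ⟨hz, hz', ?_⟩
      rcases F.adj_sub hadj with h1 | h1
      · rcases h1 with ⟨u, u', h, h3, h4⟩ | ⟨c, d, h, h3, h4⟩ | ⟨p, u, u', h, h3, h4⟩
        · left
          refine ⟨u, u', ?_, h3, h4⟩
          change F.Adj (Sum.inl u) (Sum.inl u')
          rw [h3, h4]
          exact hadj
        · right; left
          refine ⟨c, d, ⟨h, ?_⟩, h3, h4⟩
          intro w hw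
          rw [Sym2.mem_iff] at hw
          rcases hw with rfl | rfl
          · change Sum.inr (Sum.inl w) ∈ F.verts
            rw [h3]; exact hz
          · change Sum.inr (Sum.inl w) ∈ F.verts
            rw [h4]; exact hz'
        · by_cases hcase : u ∈ Set.range (g p).β ∧ u' ∈ Set.range (g p).β
          · obtain ⟨⟨c, hc⟩, ⟨d, hd⟩⟩ := hcase
            right; left
            rw [← hc, psi_β] at h3
            rw [← hd, psi_β] at h4
            refine ⟨c, d, ⟨?_, ?_⟩, h3, h4⟩
            · change B.Adj c d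
              rw [← (g p).hB, hc, hd]
              exact h
            · intro w hw
              rw [Sym2.mem_iff] at hw
              rcases hw with rfl | rfl
              · change Sum.inr (Sum.inl w) ∈ F.verts
                rw [h3]; exact hz
              · change Sum.inr (Sum.inl w) ∈ F.verts
                rw [h4]; exact hz'
          · right; right
            refine ⟨p, u, u', h, h3, h4, ?_⟩
            by_contra hcon
            push Not at hcon
            exact hcase hcon
      · left
        have h2 := h1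
        rw [edge_adj] at h2
        rcases h2.1 with ⟨h3, h4⟩ | ⟨h3, h4⟩
        · refine ⟨x, y, hFVadj, h3.symm, h4.symm⟩
        · refine ⟨y, x, hFVadj.symm, h3.symm, h4.symm⟩)
  have hverts := glue_verts pt tt g F.verts
  have hgad2 : ((∑ p, (exS (g p).Γ (g p).β (psi pt tt g p ⁻¹' F.verts)).ncard : ℕ) : ℝ) ≤
      (θ + ε) *
        ((∑ p, (newS (g p).r (g p).β (psi pt tt g p ⁻¹' F.verts)).ncard : ℕ) : ℝ) := by
    push_cast
    rw [Finset.mul_sum]
    apply Finset.sum_le_sum
    intro p _
    have h2 := (g p).cnt (psi pt tt g p ⁻¹' F.verts)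
    simpa using h2
  have hbase : ((({e | e ∈ B.edgeSet ∧ ∀ v ∈ e, v ∈ {c | (Sum.inr (Sum.inl c) :
      Tot (V0 := V) tt g) ∈ F.verts}} : Set (Sym2 W)).ncard : ℕ) : ℝ) ≤
      q H * (({c | (Sum.inr (Sum.inl c) : Tot (V0 := V) tt g) ∈ F.verts} : Set W).ncard : ℝ) := by
    have h1 := inside_le B {c | (Sum.inr (Sum.inl c) : Tot (V0 := V) tt g) ∈ F.verts}
    rw [← hq] at h1
    exact h1
  have hregion : (FV.edgeSet.ncard : ℝ) - 1 ≤ M * ((FV.verts.ncard : ℝ) - 2) := by
    have hM0 : 0 ≤ M := by
      have := q_nonneg H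
      linarith
    rcases Nat.lt_or_ge FV.verts.ncard 3 with h3 | h3
    · have hsub : ({x, y} : Set V) ⊆ FV.verts := by
        rintro z (rfl | rfl)
        · exact hxF
        · exact hyF
      have h2 : 2 ≤ FV.verts.ncard := by
        rw [← Set.ncard_pair hxy]
        exact Set.ncard_le_ncard hsub (Set.toFinite _)
      have heq : ({x, y} : Set V) = FV.verts := by
        apply Set.eq_of_subset_of_ncard_le hsub _ (Set.toFinite _)
        rw [Set.ncard_pair hxy]
        omega
      have hE : FV.edgeSet ⊆ {s(x, y)} := by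
        intro e he
        induction e using Sym2.ind with
        | _ u v =>
          have hadj : FV.Adj u v := he
          have hu : u ∈ FV.verts := FV.edge_vert hadj
          have hv : v ∈ FV.verts := FV.edge_vert hadj.symm
          have hne : u ≠ v := (FV.adj_sub hadj).ne
          rw [← heq] at hu hv
          rw [Set.mem_singleton_iff, Sym2.eq_iff]
          simp only [Set.mem_insert_iff, Set.mem_singleton_iff] at hu hv
          rcases hu with rfl | rfl <;> rcases hv with rfl | rfl
          · exact absurd rfl hne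
          · exact Or.inl ⟨rfl, rfl⟩
          · exact Or.inr ⟨rfl, rfl⟩
          · exact absurd rfl hne
      have h4 : FV.edgeSet.ncard ≤ 1 := by
        refine le_trans (Set.ncard_le_ncard hE (Set.toFinite _)) ?_
        rw [Set.ncard_singleton]
      have h5 : (FV.edgeSet.ncard : ℝ) ≤ 1 := by exact_mod_cast h4
      have h6 : (2 : ℝ) ≤ FV.verts.ncard := by exact_mod_cast h2
      have h7 : 0 ≤ M * ((FV.verts.ncard : ℝ) - 2) := mul_nonneg hM0 (by linarith)
      linarith
    · have h4 := le_Dval FV hFVadj h3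
      have h5 : (3 : ℝ) ≤ FV.verts.ncard := by exact_mod_cast h3
      rw [div_le_iff₀ (by linarith)] at h4
      refine le_trans h4 ?_
      apply mul_le_mul_of_nonneg_right _ (by linarith)
      linarith
  have he' : (F.edgeSet.ncard : ℝ) ≤ (FV.edgeSet.ncard : ℝ) +
      ((({e | e ∈ B.edgeSet ∧ ∀ v ∈ e, v ∈ {c | (Sum.inr (Sum.inl c) :
      Tot (V0 := V) tt g) ∈ F.verts}} : Set (Sym2 W)).ncard : ℕ) : ℝ) +
      ((∑ p, (exS (g p).Γ (g p).β (psi pt tt g p ⁻¹' F.verts)).ncard : ℕ) : ℝ) := by
    exact_mod_cast hedge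
  have hv' : (F.verts.ncard : ℝ) = (FV.verts.ncard : ℝ) +
      (({c | (Sum.inr (Sum.inl c) : Tot (V0 := V) tt g) ∈ F.verts} : Set W).ncard : ℝ) +
      ((∑ p, (newS (g p).r (g p).β (psi pt tt g p ⁻¹' F.verts)).ncard : ℕ) : ℝ) := by
    exact_mod_cast hverts
  rw [hv']
  set nV : ℝ := (FV.verts.ncard : ℝ)
  set nB : ℝ := (({c | (Sum.inr (Sum.inl c) : Tot (V0 := V) tt g) ∈ F.verts} :
    Set W).ncard : ℝ) with hnB
  set nN : ℝ := ((∑ p, (newS (g p).r (g p).β (psi pt tt g p ⁻¹' F.verts)).ncard : ℕ) : ℝ)
    with hnN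
  have h1 : q H * nB ≤ M * nB := mul_le_mul_of_nonneg_right hM1 (Nat.cast_nonneg _)
  have h2 : (θ + ε) * nN ≤ M * nN := mul_le_mul_of_nonneg_right hM2 (Nat.cast_nonneg _)
  have h3 : M * (nV + nB + nN - 2) = M * (nV - 2) + M * nB + M * nN := by ring
  rw [h3]
  linarith

end Pool.Agent.HA60
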