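import Pool.Agent.HA60.Glue

set_option autoImplicit false

namespace Pool.Agent.HA60

open SimpleGraph

variable {W : Type}

/-- The arithmetic of the recursion. -/
theorem step_arith {θ ε c i o m n : ℝ} (hε : 0 ≤ ε) (hc1 : c ≤ 1)
    (hn : 1 ≤ n) (hi : i ≤ θ * (n - 1)) (hio : i + o ≤ θ * (n - 1) + 2) (hm : m + 1 ≤ o)
    (hm0 : m = 0 ∨ (1 ≤ m ∧ 2 ≤ n)) :
    i + m * c ≤ (θ + ε) * (n - 1) + max 0 (c - ε) := by
  rcases hm0 with h | ⟨h1, h2⟩
  · rw [h]
    have h3 : 0 ≤ max 0 (c - ε) := le_max_left _ _
    have h4 : 0 ≤ ε * (n - 1) := mul_nonneg hε (by linarith)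
    nlinarith
  · have h3 : c - ε ≤ max 0 (c - ε) := le_max_right _ _
    have h4 : ε * 1 ≤ ε * (n - 1) := mul_le_mul_of_nonneg_left (by linarith) hε
    have h5 : 0 ≤ (1 - c) * (m - 1) := mul_nonneg (by linarith) (by linarith)
    nlinarith

/-- The gadget which consists of a single edge from the root to the base vertex `t`. -/
theorem gad_zero [Finite W] (H B : SimpleGraph W) (θ : ℝ) (t : W) :
    Nonempty (GData H B θ 1 t) := by
  classical
  let Γ : SimpleGraph (Option W) :=
    { Adj := fun p r => match p, r with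
        | none, none => False
        | none, some b => b = t
        | some a, none => a = t
        | some a, some b => B.Adj a b
      symm := ⟨by
        rintro (_ | a) (_ | b) h
        · exact h
        · exact h
        · exact h
        · exact (show B.Adj a b from h).symm⟩
      loopless := ⟨by
        rintro (_ | a) h
        · exact h
        · exact B.loopless.irrefl a h⟩ }
  refine ⟨{ Q := Option W, fin := inferInstance, Γ := Γ, r := none,
            β := Function.Embedding.some, hr := fun a => by simp, hB := fun a b => Iff.rfl,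
            act := act_of_adj (rfl : t = t), cnt := ?_ }⟩
  intro S
  have hsub : exS Γ Function.Embedding.some S ⊆ {s(none, some t)} := by
    intro e he
    obtain ⟨h1, h2, v, hv, hv2⟩ := he
    induction e using Sym2.ind with
    | _ p r =>
      have hadj : Γ.Adj p r := h1
      rw [Set.mem_singleton_iff]
      rcases p with _ | a <;> rcases r with _ | b
      · exact absurd hadj (fun h => h)
      · have : b = t := hadj
        rw [this]
      · have : a = t := hadj
        rw [this, Sym2.eq_swap]
      · exfalso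
        rw [Sym2.mem_iff] at hv
        rcases hv with rfl | rfl
        · exact hv2 ⟨a, rfl⟩
        · exact hv2 ⟨b, rfl⟩
  have hnew : newS (none : Option W) Function.Embedding.some S = ∅ := by
    ext v
    simp only [newS, Set.mem_setOf_eq, Set.mem_empty_iff_false, iff_false]
    rintro ⟨_, h2, h3⟩
    rcases v with _ | a
    · exact h2 rfl
    · exact h3 ⟨a, rfl⟩
  rw [hnew, Set.ncard_empty]
  by_cases hr : (none : Option W) ∈ S
  · rw [if_pos hr]
    have h1 : (exS Γ Function.Embedding.some S).ncard ≤ 1 := by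
      refine le_trans (Set.ncard_le_ncard hsub (Set.toFinite _)) ?_
      rw [Set.ncard_singleton]
    have h2 : ((exS Γ Function.Embedding.some S).ncard : ℝ) ≤ 1 := by exact_mod_cast h1
    simpa using h2
  · rw [if_neg hr]
    have h1 : exS Γ Function.Embedding.some S = ∅ := by
      ext e
      simp only [Set.mem_empty_iff_false, iff_false]
      intro he
      have h3 := hsub he
      rw [Set.mem_singleton_iff] at h3
      apply hr
      apply he.2.1
      rw [h3]
      exact Sym2.mem_mk_left _ _
    rw [h1]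
    simp

/-- The recursion: attach a copy of `H[X]` at the root, and gadgets at its other attaching
vertices. -/
theorem gad_step [Finite W] {H B : SimpleGraph W} {X : Set W} {θ ε c : ℝ}
    (hBact : ∀ a b, H.Adj a b → Act H B a b)
    (hS : SparsePart H X θ) (hε : 0 ≤ ε) (hc0 : 0 ≤ c) (hc1 : c ≤ 1)
    (hg : ∀ i ∈ X, ∀ t, t ∉ X → H.Adj i t → Nonempty (GData H B (θ + ε) c t))
    {j t : W} (hj : j ∈ X) (ht : t ∉ X) (hjt : H.Adj j t) :
    Nonempty (GData H B (θ + ε) (max 0 (c - ε)) t) := by
  classical
  let P : Type := {i : X // (i : W) ≠ j ∧ ∃ t, t ∉ X ∧ H.Adj i t}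
  have hfinP : Finite P := inferInstance
  have := Fintype.ofFinite P
  let pt : P → X := fun p => p.1
  let tt : P → W := fun p => Classical.choose p.2.2
  have htt : ∀ p : P, tt p ∉ X ∧ H.Adj p.1 (tt p) := fun p => Classical.choose_spec p.2.2
  let g : ∀ p : P, GData H B (θ + ε) c (tt p) := fun p =>
    Classical.choice (hg p.1 p.1.2 (tt p) (htt p).1 (htt p).2)
  let G0 : SimpleGraph X := H.induce X
  have hfinQ : ∀ p, Finite (g p).Q := fun p => (g p).fin
  have hfinN : ∀ p, Finite (NV tt g p) := fun p => inferInstance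
  have hfinT : Finite (Tot (V0 := X) tt g) := inferInstance
  let β : W ↪ Tot (V0 := X) tt g :=
    ⟨fun a => Sum.inr (Sum.inl a), fun a b hab => Sum.inl.inj (Sum.inr.inj hab)⟩
  let r : Tot (V0 := X) tt g := Sum.inl ⟨j, hj⟩
  refine ⟨{ Q := Tot (V0 := X) tt g, fin := hfinT, Γ := glue pt tt g G0, r := r, β := β,
            hr := fun a => by simp [β, r], hB := glue_base_iff pt tt g G0,
            act := ?_, cnt := ?_ }⟩
  · -- activation of the root
    obtain ⟨f, hf1, hf2, hf3⟩ := glue_copy pt tt g G0 hBact (Function.Embedding.refl X) hjt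
      (fun c d hcd _ => act_of_adj (glue_inl pt tt g G0 hcd))
      (fun c d hd hcd hne => by
        have hcj : (c : W) ≠ j := by
          intro h
          apply hne
          rw [h]
          congr 1
          exact hS.unique j hj d t hd ht (h ▸ hcd) hjt
        have hroot := glue_root pt tt g G0 ⟨c, hcj, d, hd, hcd⟩
        have h2 := htt ⟨c, hcj, d, hd, hcd⟩
        have h3 : tt ⟨c, hcj, d, hd, hcd⟩ = d :=
          hS.unique c c.2 _ d h2.1 hd h2.2 hcd
        rw [h3] at hroot
        exact hroot)
    have h4 := hf1 ⟨j, hj⟩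
    have h5 := hf2 t ht
    change f j = _ at h4
    rw [h4, h5] at hf3
    exact hf3
  · -- counting
    intro S
    set F' : Set W := {v | ∃ h : v ∈ X, (Sum.inl ⟨v, h⟩ : Tot (V0 := X) tt g) ∈ S} with hF'
    have hF'X : F' ⊆ X := fun v hv => hv.1
    -- the edges
    have hedge := glue_edges pt tt g S (exS (glue pt tt g G0) β S)
      {e | e ∈ G0.edgeSet ∧ ∀ v ∈ e, (Sum.inl v : Tot (V0 := X) tt g) ∈ S} ∅ (by
        intro z z' he
        obtain ⟨h1, h2, v, hv, hv2⟩ := he
        have hz : z ∈ S := h2 z (Sym2.mem_mk_left _ _)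
        have hz' : z' ∈ S := h2 z' (Sym2.mem_mk_right _ _)
        refine ⟨hz, hz', ?_⟩
        have hadj : (glue pt tt g G0).Adj z z' := h1
        rcases hadj with ⟨u, u', h, h3, h4⟩ | ⟨a, b, h, h3, h4⟩ | ⟨p, u, u', h, h3, h4⟩
        · left
          refine ⟨u, u', ⟨h, ?_⟩, h3, h4⟩
          intro w hw
          rw [Sym2.mem_iff] at hw
          rcases hw with rfl | rfl
          · rw [h3]; exact hz
          · rw [h4]; exact hz'
        · exfalso
          rw [Sym2.mem_iff] at hv
          rcases hv with rfl | rfl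
          · exact hv2 ⟨a, h3⟩
          · exact hv2 ⟨b, h4⟩
        · right; right
          refine ⟨p, u, u', h, h3, h4, ?_⟩
          by_contra hcon
          push Not at hcon
          obtain ⟨⟨a, ha⟩, ⟨b, hb⟩⟩ := hcon
          rw [Sym2.mem_iff] at hv
          rcases hv with rfl | rfl
          · apply hv2
            refine ⟨a, ?_⟩
            rw [← h3, ← ha, psi_β]
            rfl
          · apply hv2
            refine ⟨b, ?_⟩
            rw [← h4, ← hb, psi_β]
            rfl)
    -- the edges inside the copy of H[X]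
    have hE0 : ({e | e ∈ G0.edgeSet ∧ ∀ v ∈ e, (Sum.inl v : Tot (V0 := X) tt g) ∈ S} :
        Set (Sym2 X)).ncard ≤ inside H F' := by
      unfold inside
      rw [← Set.ncard_image_of_injective _ (Sym2.map.injective Subtype.val_injective)]
      apply Set.ncard_le_ncard _ (Set.toFinite _)
      rintro e ⟨e', ⟨h1, h2⟩, rfl⟩
      induction e' using Sym2.ind with
      | _ u v =>
        rw [Sym2.map_mk]
        refine ⟨h1, ?_⟩
        intro w hw
        rw [Sym2.mem_iff] at hw
        rcases hw with rfl | rfl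
        · exact ⟨u.2, h2 u (Sym2.mem_mk_left _ _)⟩
        · exact ⟨v.2, h2 v (Sym2.mem_mk_right _ _)⟩
    -- the gadgets
    have hgad : ((∑ p, (exS (g p).Γ (g p).β (psi pt tt g p ⁻¹' S)).ncard : ℕ) : ℝ) ≤
        (θ + ε) * ((∑ p, (newS (g p).r (g p).β (psi pt tt g p ⁻¹' S)).ncard : ℕ) : ℝ) +
        (({p : P | (Sum.inl (pt p) : Tot (V0 := X) tt g) ∈ S} : Set P).ncard : ℝ) * c := by
      have h1 : (({p : P | (Sum.inl (pt p) : Tot (V0 := X) tt g) ∈ S} : Set P).ncard : ℝ) * c =
          ∑ p : P, if (Sum.inl (pt p) : Tot (V0 := X) tt g) ∈ S then c else 0 := by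
        rw [Finset.sum_ite, Finset.sum_const_zero, add_zero, Finset.sum_const, nsmul_eq_mul]
        congr 2
        rw [Set.ncard_eq_toFinset_card']
        congr 1
        ext p
        simp
      rw [h1]
      push_cast
      rw [Finset.mul_sum, ← Finset.sum_add_distrib]
      apply Finset.sum_le_sum
      intro p _
      have h2 := (g p).cnt (psi pt tt g p ⁻¹' S)
      have h3 : (g p).r ∈ psi pt tt g p ⁻¹' S ↔ (Sum.inl (pt p) : Tot (V0 := X) tt g) ∈ S := by
        rw [Set.mem_preimage, psi_r]
      simp only [h3] at h2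
      exact h2
    -- the vertices
    have hverts := glue_verts pt tt g (newS r β S)
    have hv1 : (Sum.inl ⁻¹' (newS r β S) : Set X).ncard = (F' \ {j}).ncard := by
      rw [← Set.ncard_image_of_injective _ Subtype.val_injective]
      congr 1
      ext v
      simp only [Set.mem_image, Set.mem_preimage, Subtype.exists, exists_and_right,
        exists_eq_right, Set.mem_sdiff, Set.mem_singleton_iff, hF', Set.mem_setOf_eq, newS]
      constructor
      · rintro ⟨h, h1, h2, h3⟩
        exact ⟨⟨h, h1⟩, fun h4 => h2 (by subst h4; rfl)⟩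
      · rintro ⟨⟨h, h1⟩, h2⟩
        refine ⟨h, h1, ?_, ?_⟩
        · intro h4
          exact h2 (congrArg Subtype.val (Sum.inl.inj h4))
        · rintro ⟨a, ha⟩
          exact absurd ha (by simp [β])
    have hv2 : ({a | Sum.inr (Sum.inl a) ∈ newS r β S} : Set W).ncard = 0 := by
      have : ({a | Sum.inr (Sum.inl a) ∈ newS r β S} : Set W) = ∅ := by
        ext a
        simp only [Set.mem_setOf_eq, Set.mem_empty_iff_false, iff_false]
        rintro ⟨_, _, h3⟩
        exact h3 ⟨a, rfl⟩
      rw [this, Set.ncard_empty]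
    have hv3 : ∀ p, newS (g p).r (g p).β (psi pt tt g p ⁻¹' (newS r β S)) =
        newS (g p).r (g p).β (psi pt tt g p ⁻¹' S) := by
      intro p
      ext v
      constructor
      · rintro ⟨h1, h2, h3⟩
        exact ⟨h1.1, h2, h3⟩
      · rintro ⟨h1, h2, h3⟩
        refine ⟨⟨h1, ?_, ?_⟩, h2, h3⟩
        · rw [psi_new pt tt g p v h2 h3]
          simp [r]
        · rw [psi_new pt tt g p v h2 h3]
          rintro ⟨a, ha⟩
          exact absurd ha (by simp [β])
    rw [hv1, hv2] at hverts
    simp only [hv3] at hverts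
    -- the number of gadgets whose root is in S
    have hm : ({p : P | (Sum.inl (pt p) : Tot (V0 := X) tt g) ∈ S} : Set P).ncard ≤
        (({v | v ∈ F' ∧ ∃ u, u ∉ X ∧ H.Adj v u} : Set W) \ {j}).ncard := by
      have hinj : Function.Injective (fun p : P => ((p.1 : X) : W)) := by
        intro p p' h
        exact Subtype.ext (Subtype.ext h)
      rw [← Set.ncard_image_of_injective _ hinj]
      apply Set.ncard_le_ncard _ (Set.toFinite _)
      rintro v ⟨p, hp, rfl⟩
      exact ⟨⟨⟨p.1.2, hp⟩, p.2.2⟩, p.2.1⟩
    set m : ℕ := ({p : P | (Sum.inl (pt p) : Tot (V0 := X) tt g) ∈ S} : Set P).ncard with hmdef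
    set N : ℕ := ∑ p, (newS (g p).r (g p).β (psi pt tt g p ⁻¹' S)).ncard with hN
    have hedge' : ((exS (glue pt tt g G0) β S).ncard : ℝ) ≤ (inside H F' : ℝ) +
        ((θ + ε) * (N : ℝ) + (m : ℝ) * c) := by
      have h1 : (exS (glue pt tt g G0) β S).ncard ≤ inside H F' +
          ∑ p, (exS (g p).Γ (g p).β (psi pt tt g p ⁻¹' S)).ncard := by
        rw [Set.ncard_empty, add_zero] at hedge
        exact le_trans hedge (Nat.add_le_add_right hE0 _)
      have h2 : ((exS (glue pt tt g G0) β S).ncard : ℝ) ≤ (inside H F' : ℝ) +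
          ((∑ p, (exS (g p).Γ (g p).β (psi pt tt g p ⁻¹' S)).ncard : ℕ) : ℝ) := by
        exact_mod_cast h1
      linarith
    have hnew : ((newS r β S).ncard : ℝ) = ((F' \ {j}).ncard : ℝ) + (N : ℝ) := by
      rw [hverts]
      push_cast
      ring
    rw [hnew]
    refine le_trans hedge' ?_
    have hgoal : (inside H F' : ℝ) + (m : ℝ) * c ≤ (θ + ε) * ((F' \ {j}).ncard : ℝ) +
        (if r ∈ S then max 0 (c - ε) else 0) := by
      by_cases hr : r ∈ S
      · rw [if_pos hr]
        have hjF : j ∈ F' := ⟨hj, hr⟩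
        have hcardF : ((F' \ {j}).ncard : ℝ) = (F'.ncard : ℝ) - 1 := by
          have h1 := Set.ncard_sdiff_singleton_add_one hjF (Set.toFinite F')
          have h2 : ((F' \ {j}).ncard : ℝ) + 1 = F'.ncard := by exact_mod_cast h1
          linarith
        have hout : (({v | v ∈ F' ∧ ∃ u, u ∉ X ∧ H.Adj v u} : Set W) \ {j}).ncard + 1 =
            out H X F' :=
          Set.ncard_sdiff_singleton_add_one ⟨hjF, t, ht, hjt⟩ (Set.toFinite _)
        have hm1 : m + 1 ≤ out H X F' := by omega
        rw [hcardF]
        have hn1 : 1 ≤ F'.ncard := (Set.ncard_pos (Set.toFinite _)).2 ⟨j, hjF⟩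
        have hfew := hS.few ⟨j, hj, t, ht, hjt⟩ F' hF'X ⟨j, hjF⟩
        apply step_arith hε hc1 (by exact_mod_cast hn1) hfew.1 hfew.2.1
          (by exact_mod_cast hm1)
        rcases Nat.eq_zero_or_pos m with h0 | h0
        · left
          exact_mod_cast h0
        · right
          refine ⟨by exact_mod_cast h0, ?_⟩
          have h5 : out H X F' ≤ F'.ncard :=
            Set.ncard_le_ncard (fun v hv => hv.1) (Set.toFinite _)
          have h6 : 2 ≤ F'.ncard := by omega
          exact_mod_cast h6
      · rw [if_neg hr, add_zero]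
        have hjF : j ∉ F' := by
          rintro ⟨h1, h2⟩
          exact hr h2
        have hcardF : (F' \ {j}).ncard = F'.ncard := by
          rw [Set.sdiff_singleton_eq_self hjF]
        rw [hcardF]
        have hout : m ≤ out H X F' := by
          refine le_trans hm ?_
          exact Set.ncard_le_ncard Set.sdiff_subset (Set.toFinite _)
        have hmc : (m : ℝ) * c ≤ out H X F' := by
          have h1 : (m : ℝ) ≤ out H X F' := by exact_mod_cast hout
          have h2 : (m : ℝ) * c ≤ (m : ℝ) * 1 :=
            mul_le_mul_of_nonneg_left hc1 (Nat.cast_nonneg _)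
          linarith
        have hfin2 : (inside H F' : ℝ) + out H X F' ≤ θ * (F'.ncard : ℝ) := by
          rcases Set.eq_empty_or_nonempty F' with he | hne
          · rw [he]
            have h1 : inside H (∅ : Set W) = 0 := by
              unfold inside
              have : ({e | e ∈ H.edgeSet ∧ ∀ v ∈ e, v ∈ (∅ : Set W)} : Set (Sym2 W)) = ∅ := by
                ext e
                induction e using Sym2.ind with
                | _ u v =>
                  simp only [Set.mem_setOf_eq, Set.mem_empty_iff_false, iff_false]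
                  rintro ⟨_, h2⟩
                  exact h2 u (Sym2.mem_mk_left _ _)
              rw [this, Set.ncard_empty]
            have h2 : out H X (∅ : Set W) = 0 := by
              unfold out
              simp
            rw [h1, h2]
            simp
          · exact (hS.few ⟨j, hj, t, ht, hjt⟩ F' hF'X hne).2.2 ⟨j, hj, hjF, t, ht, hjt⟩
        have h7 : 0 ≤ ε * (F'.ncard : ℝ) := mul_nonneg hε (Nat.cast_nonneg _)
        have h8 : (θ + ε) * (F'.ncard : ℝ) = θ * (F'.ncard : ℝ) + ε * (F'.ncard : ℝ) := by ring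
        rw [h8]
        linarith
    have h9 : (θ + ε) * (((F' \ {j}).ncard : ℝ) + (N : ℝ)) =
        (θ + ε) * ((F' \ {j}).ncard : ℝ) + (θ + ε) * (N : ℝ) := by ring
    rw [h9]
    linarith

/-- Gadgets without defect. -/
theorem gad_all [Finite W] {H B : SimpleGraph W} {X : Set W} {θ ε : ℝ}
    (hBact : ∀ a b, H.Adj a b → Act H B a b) (hS : SparsePart H X θ) (hε : 0 < ε) :
    ∀ j ∈ X, ∀ t, t ∉ X → H.Adj j t → Nonempty (GData H B (θ + ε) 0 t) := by
  have key : ∀ k : ℕ, ∃ c : ℝ, 0 ≤ c ∧ c ≤ 1 ∧ c ≤ max 0 (1 - k * ε) ∧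
      ∀ j ∈ X, ∀ t, t ∉ X → H.Adj j t → Nonempty (GData H B (θ + ε) c t) := by
    intro k
    induction k with
    | zero =>
      refine ⟨1, zero_le_one, le_refl _, ?_, fun j _ t _ _ => gad_zero H B (θ + ε) t⟩
      simp
    | succ k ih =>
      obtain ⟨c, h1, h2, h3, h4⟩ := ih
      refine ⟨max 0 (c - ε), le_max_left _ _, ?_, ?_, fun j hj t ht hjt =>
        gad_step hBact hS hε.le h1 h2 h4 hj ht hjt⟩
      · exact max_le zero_le_one (by linarith)
      · apply max_le (le_max_left _ _)
        push_cast
        rcases le_total (1 - k * ε) 0 with h5 | h5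
        · rw [max_eq_left h5] at h3
          have : 0 ≤ max 0 (1 - ((k : ℝ) + 1) * ε) := le_max_left _ _
          linarith
        · rw [max_eq_right h5] at h3
          have : 1 - ((k : ℝ) + 1) * ε ≤ max 0 (1 - ((k : ℝ) + 1) * ε) := le_max_right _ _
          linarith
  obtain ⟨k, hk⟩ := exists_nat_gt (1 / ε)
  obtain ⟨c, h1, _, h3, h4⟩ := key k
  have h5 : 1 < k * ε := by rwa [div_lt_iff₀ hε] at hk
  rw [max_eq_left (by linarith)] at h3
  have h6 : c = 0 := le_antisymm h3 h1
  rw [h6] at h4
  exact h4

end Pool.Agent.HA60
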